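import Pool.Agent.helper55.NT.Main
import Pool.Agent.helper3.NTH.LR
import Pool.Agent.helper3.NTH.AH

/-!
# MP_c8d30a (G2): THEOREM (A_h+) (helper55), on the definitions of helper3 (namespace NTH)

Every state in `EForm` (front `e` of one side mixed, a complete pair of the other side before the partner of `e`) of an irreducible equation with a complete pair on both sides
has a round trip to a hub, of cost at most `(14 m + 20) m`, `m` = number of tokens; together with helper3's `AH'`, `LR`: every state which is not pair free (`PFs`) has a round trip to a double standard state.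
-/

set_option autoImplicit false

namespace NTH

open NTok (EXs SFs ALL Inv Cand last_split pat1 ret1 chain)

universe u
variable {Ω : Type u} {p : Ω → Ω}

theorem of_step {s t : St Ω} {c : ℕ} (h : NTok.Step p s c t) : Sp p c s t := by
  cases h with
  | Lr x y A B V => exact Or.inl (SL.tr x y A B V)
  | Lm x y U A B => exact Or.inl (SL.reg x y U A B)
  | Rb x y A B U => exact Or.inr (SL.tr x y A B U)
  | Rm x y V A B => exact Or.inr (SL.reg x y V A B)

theorem of_reach {a : ℕ} {s t : St Ω} (h : NTok.Reach p a s t) : Reach p a s t := by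
  induction h with
  | refl a s hN => exact .refl _ _ hN
  | step h1 h2 h3 h4 ih =>
    exact (ih.trans (.head ih.right (of_step h2) (.refl 0 _ h3))).mono (by simpa using h4)

/-- the first element with a property. -/
theorem first_split (P : Ω → Prop) (l : List Ω) (h : ∃ x ∈ l, P x) :
    ∃ l1 a l2, l = l1 ++ a :: l2 ∧ P a ∧ ∀ x ∈ l1, ¬ P x := by
  classical
  induction l with
  | nil => obtain ⟨x, hx, -⟩ := h; simp at hx
  | cons a l ih =>
    by_cases ha : P a
    · exact ⟨[], a, l, by simp, ha, by simp⟩
    · obtain ⟨x, hx, hPx⟩ := h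
      rcases List.mem_cons.mp hx with rfl | hx
      · exact absurd hPx ha
      · obtain ⟨l1, b, l2, rfl, h2, h3⟩ := ih ⟨x, hx, hPx⟩
        refine ⟨a :: l1, b, l2, by simp, h2, ?_⟩
        intro z hz
        rcases List.mem_cons.mp hz with rfl | hz
        · exact ha
        · exact h3 z hz

/-- a complete pair in a list, in its order. -/
theorem pair_ord (hp : ∀ x, p (p x) = x) (hne : ∀ x, p x ≠ x) (L : List Ω) (h : ∃ b ∈ L, p b ∈ L) :
    ∃ (b : Ω) (P Q R : List Ω), L = P ++ b :: (Q ++ p b :: R) := by
  obtain ⟨b, hb, hpb⟩ := h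
  obtain ⟨L1, L2, rfl⟩ := List.append_of_mem hb
  simp only [List.mem_append, List.mem_cons] at hpb
  rcases hpb with h | h | h
  · obtain ⟨P, Q, rfl⟩ := List.append_of_mem h
    exact ⟨p b, P, Q, L2, by rw [hp]; simp⟩
  · exact absurd h (hne b)
  · obtain ⟨Q, R, rfl⟩ := List.append_of_mem h
    exact ⟨b, L1, Q, R, rfl⟩

/-- the extension by a mixed link, a regular round trip. -/
theorem ext_RT (e m w : Ω) (A1 A2 U3 U4 X1 X2 X3 : List Ω)
    (hN : N p ((A1 ++ m :: A2) ++ p e :: (U3 ++ p w :: U4), e :: (X1 ++ w :: (X2 ++ p m :: X3)))) :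
    RT p 0 ((A1 ++ m :: A2) ++ p e :: (U3 ++ p w :: U4), e :: (X1 ++ w :: (X2 ++ p m :: X3)))
      ((m :: (A2 ++ (A1 ++ p e :: U3))) ++ p w :: U4, w :: (X2 ++ e :: (X1 ++ p m :: X3))) := by
  have hN1 : N p (A1 ++ ((m :: A2) ++ p e :: (U3 ++ p w :: U4)), e :: (X1 ++ w :: (X2 ++ p m :: X3))) := by
    simpa using hN
  have h1 := rotRT e A1 (m :: A2) (U3 ++ p w :: U4) (X1 ++ w :: (X2 ++ p m :: X3)) hN1
  have hN2 := h1.1.right
  have hN3 : N p (mir ((m :: A2) ++ (A1 ++ p e :: (U3 ++ p w :: U4)),
      (e :: X1) ++ ((w :: X2) ++ p m :: X3))) := by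
    have := hN2.mir
    simpa using this
  have h2 := (rotRT m (e :: X1) (w :: X2) X3 (A2 ++ (A1 ++ p e :: (U3 ++ p w :: U4))) hN3).mir
  have h3 : ((m :: A2) ++ (A1 ++ p e :: (U3 ++ p w :: U4)), e :: (X1 ++ w :: (X2 ++ p m :: X3))) =
      mir ((e :: X1) ++ ((w :: X2) ++ p m :: X3), m :: (A2 ++ (A1 ++ p e :: (U3 ++ p w :: U4)))) := by
    simp
  have h4 : ((m :: (A2 ++ (A1 ++ p e :: U3))) ++ p w :: U4, w :: (X2 ++ e :: (X1 ++ p m :: X3))) =
      mir ((w :: X2) ++ ((e :: X1) ++ p m :: X3), m :: (A2 ++ (A1 ++ p e :: (U3 ++ p w :: U4)))) := by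
    simp
  have h5 : ((A1 ++ m :: A2) ++ p e :: (U3 ++ p w :: U4), e :: (X1 ++ w :: (X2 ++ p m :: X3))) =
      (A1 ++ ((m :: A2) ++ p e :: (U3 ++ p w :: U4)), e :: (X1 ++ w :: (X2 ++ p m :: X3))) := by
    simp
  rw [h4, h5]
  rw [h3] at h1
  have := h1.trans h2
  simpa using this

theorem AHP_aux (N0 : ℕ) : ∀ (n : ℕ) (e : Ω) (A U2 V2 : List Ω), U2.length = n →
    WF p (A ++ p e :: U2, e :: V2) → Irr p (A ++ p e :: U2, e :: V2) → N p (A ++ p e :: U2, e :: V2) →
    (∃ b ∈ A, p b ∈ A) → ((A ++ p e :: U2) ++ e :: V2).length ≤ N0 →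
    ∃ h k, Hub p k h ∧ RT p ((14 * N0 + 20) * N0) (A ++ p e :: U2, e :: V2) h := by
  classical
  intro n
  induction n using Nat.strong_induction_on with
  | _ n ih =>
  intro e A U2 V2 hn hw hi hN hb hlen
  have hinv := hw.inv
  have hne := hw.ne
  by_cases hext : ∃ m ∈ A, ∃ (w : Ω) (X1 X2 X3 : List Ω), V2 = X1 ++ w :: (X2 ++ p m :: X3) ∧ p w ∈ U2
  · -- extension by a mixed link
    obtain ⟨m, hm, w, X1, X2, X3, hV, hwU⟩ := hext
    obtain ⟨A1, A2, rfl⟩ := List.append_of_mem hm
    obtain ⟨U3, U4, rfl⟩ := List.append_of_mem hwU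
    subst hV
    have hRT := ext_RT e m w A1 A2 U3 U4 X1 X2 X3 hN
    have hlt : U4.length < n := by
      rw [← hn]
      simp
      omega
    obtain ⟨h, k, hh, hRT2⟩ := ih U4.length hlt w (m :: (A2 ++ (A1 ++ p e :: U3))) U4
      (X2 ++ e :: (X1 ++ p m :: X3)) rfl (hw.reach hRT.1) (Irr.reach hw hi hRT.1) hRT.1.right (by
        obtain ⟨b, h1, h2⟩ := hb
        refine ⟨b, ?_, ?_⟩
        · simp only [List.mem_append, List.mem_cons] at h1 ⊢
          (first | grind | tauto)
        · simp only [List.mem_append, List.mem_cons] at h2 ⊢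
          (first | grind | tauto)) (by
        have := hRT.1.perm.length_eq
        simp only at this
        rw [← this]
        exact hlen)
    refine ⟨h, k, hh, ?_⟩
    have := hRT.trans hRT2
    simpa using this
  · have hmax : ∀ m ∈ A, ∀ (w : Ω) (X1 X2 X3 : List Ω), V2 = X1 ++ w :: (X2 ++ p m :: X3) → p w ∉ U2 := by
      intro m hm w X1 X2 X3 h1 h2
      exact hext ⟨m, hm, w, X1, X2, X3, h1, h2⟩
    clear hext
    -- counting
    have hcnt : ∀ x, A.count x + U2.count x + V2.count x ≤ 1 := by
      intro x
      have := List.nodup_iff_count_le_one.mp hw.nd x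
      simp only [List.count_append, List.count_cons] at this
      omega
    have hpos : ∀ {x : Ω} {L : List Ω}, x ∈ L → 0 < L.count x := fun h => List.count_pos_iff.mpr h
    have hdis : ∀ x, (x = e ∨ x = p e) → x ∉ A ∧ x ∉ U2 ∧ x ∉ V2 := by
      intro x hx
      have h1 := List.nodup_iff_count_le_one.mp hw.nd x
      simp only [List.count_append, List.count_cons] at h1
      have hx1 : 1 ≤ (if (p e == x) = true then 1 else 0) + (if (e == x) = true then 1 else 0) := by
        rcases hx with rfl | rfl
        · simp
        · simp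
      refine ⟨?_, ?_, ?_⟩ <;>
      · intro h
        have := hpos h
        omega
    have hloc : ∀ t, (t ∈ A ∨ t ∈ U2 ∨ t ∈ V2) → (p t ∈ A ∨ p t ∈ U2 ∨ p t ∈ V2) := by
      intro t ht
      have h1 := hw.cl t (by simp only [List.mem_append, List.mem_cons]; (first | grind | tauto))
      simp only [List.mem_append, List.mem_cons] at h1
      have h2 : p t ≠ e := by
        intro h
        have h3 : t = p e := by rw [← h, hinv]
        have := hdis t (Or.inr h3)
        (first | grind | tauto)
      have h3 : p t ≠ p e := by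
        intro h
        have h4 : t = e := by rw [← hinv t, h, hinv]
        have := hdis t (Or.inl h4)
        (first | grind | tauto)
      (first | grind | tauto)
    have hblue : ∃ x ∈ V2, p x ∈ V2 := by
      obtain ⟨-, q, hq1, hq2⟩ := hN
      simp only [List.mem_cons] at hq1 hq2
      rcases hq1 with rfl | hq1
      · rcases hq2 with h | h
        · exact absurd h (hne q)
        · exact absurd h (hdis _ (Or.inr rfl)).2.2
      · rcases hq2 with h | h
        · have h3 : q = p e := by rw [← h, hinv]
          rw [h3] at hq1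
          exact absurd hq1 (hdis _ (Or.inr rfl)).2.2
        · exact ⟨q, hq1, h⟩
    obtain ⟨W, y, V', hV2, hy, hWf⟩ := first_split (fun x => p x ∈ V2) V2 hblue
    have hyV' : p y ∈ V' := by
      rw [hV2] at hy
      simp only [List.mem_append, List.mem_cons] at hy
      rcases hy with h | h | h
      · exfalso
        apply hWf _ h
        rw [hinv, hV2]
        simp
      · exact absurd h (hne y)
      · exact h
    obtain ⟨G, V4, rfl⟩ := List.append_of_mem hyV'
    by_cases h2 : ∃ m ∈ A, p m ∈ G ∨ p m ∈ V4
    · -- a hub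
      obtain ⟨m, hm, hmV⟩ := h2
      obtain ⟨A1, A2, rfl⟩ := List.append_of_mem hm
      obtain ⟨Yh, Vh, hVY, hyY⟩ : ∃ Yh Vh, V2 = Yh ++ p m :: Vh ∧ y ∈ Yh := by
        rcases hmV with h | h
        · obtain ⟨G1, G2, rfl⟩ := List.append_of_mem h
          exact ⟨W ++ y :: G1, G2 ++ p y :: V4, by rw [hV2]; simp, by simp⟩
        · obtain ⟨H1, H2, rfl⟩ := List.append_of_mem h
          exact ⟨W ++ y :: (G ++ p y :: H1), H2, by rw [hV2]; simp, by simp⟩
      have hpm : p m ∈ V2 := by rw [hVY]; simp
      have hbm : ∀ b, b ∈ A1 ++ m :: A2 → p b ∈ A1 ++ m :: A2 → b ∈ A2 ++ A1 := by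
        intro b h1 h3
        have h4 : b ≠ m := by
          rintro rfl
          have := hcnt (p b)
          have := hpos h3
          have := hpos hpm
          omega
        simp only [List.mem_append, List.mem_cons] at h1 ⊢
        (first | grind | tauto)
      have hN1 : N p (A1 ++ ((m :: A2) ++ p e :: U2), e :: V2) := by simpa using hN
      have hRT := rotRT e A1 (m :: A2) U2 V2 hN1
      refine ⟨Fm p m e (A2 ++ A1) U2 Yh Vh, U2.length + Vh.length, ⟨m, e, A2 ++ A1, U2, Yh, Vh, rfl, le_rfl, ?_, ?_⟩, ?_⟩
      · obtain ⟨b, h1, h3⟩ := hb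
        exact ⟨b, hbm b h1 h3, hbm (p b) h3 (by rw [hinv]; exact h1)⟩
      · refine ⟨y, hyY, ?_⟩
        rw [← hVY]
        exact List.mem_cons_of_mem _ hy
      · have h5 : Fm p m e (A2 ++ A1) U2 Yh Vh = ((m :: A2) ++ (A1 ++ p e :: U2), e :: V2) := by
          rw [hVY]
          simp [Fm]
        have h6 : ((A1 ++ m :: A2) ++ p e :: U2, e :: V2) = (A1 ++ ((m :: A2) ++ p e :: U2), e :: V2) := by
          simp
        rw [h5, h6]
        exact hRT.mono (by omega)
    · have h2' : ∀ m ∈ A, p m ∉ G ∧ p m ∉ V4 := by
        intro m hm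
        exact ⟨fun h => h2 ⟨m, hm, Or.inl h⟩, fun h => h2 ⟨m, hm, Or.inr h⟩⟩
      clear h2
      have hWV : ∀ x ∈ W, p x ∉ W ∧ p x ∉ G ∧ p x ∉ V4 := by
        intro x hx
        have h1 := hWf x hx
        rw [hV2] at h1
        simp only [List.mem_append, List.mem_cons] at h1
        (first | grind | tauto)
      have hWsub : ∀ x ∈ W, x ∈ V2 := by
        intro x hx
        rw [hV2]
        simp [hx]
      rcases last_split (fun t => p t ∈ A) U2 with ⟨U3, t, U4, hU2, ht, hl⟩ | hnone
      · -- the main case
        obtain ⟨a, rfl⟩ : ∃ a, t = p a := ⟨p t, (hinv t).symm⟩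
        rw [hinv] at ht
        obtain ⟨A1, A2, rfl⟩ := List.append_of_mem ht
        have hpaU : p a ∈ U2 := by rw [hU2]; simp
        have hbm : ∀ b, b ∈ A1 ++ a :: A2 → p b ∈ A1 ++ a :: A2 → b ∈ A2 ++ A1 := by
          intro b h1 h3
          have h4 : b ≠ a := by
            rintro rfl
            have := hcnt (p b)
            have := hpos h3
            have := hpos hpaU
            omega
          simp only [List.mem_append, List.mem_cons] at h1 ⊢
          (first | grind | tauto)
        obtain ⟨b, P, Q, R, hPQR⟩ := pair_ord hinv hne (A2 ++ A1) (by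
          obtain ⟨b, h1, h3⟩ := hb
          exact ⟨b, hbm b h1 h3, hbm (p b) h3 (by rw [hinv]; exact h1)⟩)
        have hN1 : N p (A1 ++ ((a :: A2) ++ p e :: U2), e :: V2) := by simpa using hN
        have hRT := rotRT e A1 (a :: A2) U2 V2 hN1
        have h5 : ((a :: A2) ++ (A1 ++ p e :: U2), e :: V2) =
            (a :: (P ++ b :: (Q ++ p b :: (R ++ p e :: (U3 ++ p a :: U4)))),
              e :: (W ++ y :: (G ++ p y :: V4))) := by
          have h6 : (a :: A2) ++ (A1 ++ p e :: U2) = a :: ((A2 ++ A1) ++ p e :: U2) := by simp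
          rw [h6, hPQR, hU2, hV2]
          simp
        have h6 : ((A1 ++ a :: A2) ++ p e :: U2, e :: V2) = (A1 ++ ((a :: A2) ++ p e :: U2), e :: V2) := by
          simp
        rw [h5, ← h6] at hRT
        have hwF := hw.reach hRT.1
        have hlF : (ALL p b e a y R Q U3 U4 P W G V4).length ≤ N0 := by
          have h7 := hRT.1.perm.length_eq
          simp only [List.length_append, List.length_cons] at h7 hlen
          simp only [ALL, List.length_append, List.length_cons]
          omega
        have hperm : (ALL p b e a y R Q U3 U4 P W G V4).Perm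
            ((a :: (P ++ b :: (Q ++ p b :: (R ++ p e :: (U3 ++ p a :: U4))))) ++
              (e :: (W ++ y :: (G ++ p y :: V4)))) := by
          rw [List.perm_iff_count]
          intro x
          simp only [ALL, List.count_append, List.count_cons]
          omega
        have hnd : (ALL p b e a y R Q U3 U4 P W G V4).Nodup := hperm.nodup_iff.mpr hwF.nd
        have hall : ∀ x ∈ ALL p b e a y R Q U3 U4 P W G V4, p x ∈ ALL p b e a y R Q U3 U4 P W G V4 :=
          fun x hx => hperm.mem_iff.mpr (hwF.cl x (hperm.mem_iff.mp hx))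
        have hQPA : ∀ x ∈ Q ++ P, x ∈ A1 ++ a :: A2 := by
          intro x hx
          have h8 : x ∈ A2 ++ A1 := by
            rw [hPQR]
            simp only [List.mem_append, List.mem_cons] at hx ⊢
            (first | grind | tauto)
          simp only [List.mem_append, List.mem_cons] at h8 ⊢
          (first | grind | tauto)
        have hU4 : ∀ x, x ∈ U4 → x ∈ U2 := by
          intro x hx
          rw [hU2]
          simp [hx]
        have hI : Inv p y Q U4 P W G V4 := by
          refine ⟨?_, ?_, ?_, ?_⟩
          · intro x hx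
            refine ⟨?_, h2' x (hQPA x hx)⟩
            intro h
            have := hl _ h
            rw [hinv] at this
            exact this (hQPA x hx)
          · intro x hx W1 W2 hW w hww h
            obtain ⟨Wa, Wb, rfl⟩ := List.append_of_mem hww
            exact hmax x (hQPA x hx) w Wa Wb (W2 ++ y :: (G ++ p y :: V4)) (by rw [hV2, hW]; simp) (hU4 _ h)
          · intro x hx
            exact hWV x hx
          · intro T0 T1 W0 W1 h7 h8 h9
            have := hi ((A1 ++ a :: A2) ++ p e :: (U3 ++ p a :: T0)) T1 (e :: W0) (W1 ++ y :: (G ++ p y :: V4))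
              (by rw [hU2, hV2, h7, h8]; simp) (by simp) (by simp) h9
            have h10 := this.2
            simp at h10
        have hA := NTok.ALL_len hlF
        have hN1 : 1 ≤ N0 := by omega
        have hl8 : ∀ l ∈ [V4, G, P, Q, R, U4, W, U3], l.length ≤ N0 := by
          intro l hl
          simp only [List.mem_cons, List.not_mem_nil, or_false] at hl
          rcases hl with rfl | rfl | rfl | rfl | rfl | rfl | rfl | rfl <;> omega
        have r1 := of_reach (pat1 hinv N0 hN1 a b e y P Q R U3 U4 W G V4 hl8)
        have r2 := of_reach (chain hinv N0 U4.length b e a y R Q U3 U4 P W G V4 rfl hnd hall hlF hI)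
        have r3 := of_reach (ret1 hinv N0 hN1 a b e y P Q R U3 U4 W G V4 hl8)
        have hU4len : U4.length ≤ N0 := by omega
        refine ⟨EXs p b e a y R Q U3 U4 P W G V4, U4.length + V4.length,
          ⟨y, a, G ++ e :: (W ++ p e :: U3), U4, P ++ b :: (Q ++ p b :: R), V4, ?_, le_rfl, ?_, ?_⟩, ?_⟩
        · simp [EXs, Fm]
        · exact ⟨e, by simp, by simp⟩
        · exact ⟨b, by simp, by simp⟩
        · have hle1 : 0 + 10 * N0 ≤ (14 * N0 + 20) * N0 := by
            rw [Nat.zero_add]
            exact Nat.mul_le_mul_right N0 (by omega)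
          have hle2 : (14 * U4.length + 18) * N0 + 2 * N0 + 0 ≤ (14 * N0 + 20) * N0 := by
            have : (14 * U4.length + 18) * N0 + 2 * N0 + 0 = (14 * U4.length + 20) * N0 := by ring
            rw [this]
            exact Nat.mul_le_mul_right N0 (by omega)
          exact ⟨(hRT.1.trans r1).mono hle1, ((r2.trans r3).trans hRT.2).mono hle2⟩
      · -- no incomplete red letter: a closed suffix pair
        exfalso
        have hclosed : ∀ Wa Wb : List Ω, W = Wa ++ Wb → (∀ x ∈ Wb, p x ∉ A) → (∀ w ∈ Wa, p w ∉ U2) →
            ∀ t ∈ U2 ++ (Wb ++ y :: (G ++ p y :: V4)), p t ∈ U2 ++ (Wb ++ y :: (G ++ p y :: V4)) := by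
          intro Wa Wb hWab h1 h3 t ht
          simp only [List.mem_append, List.mem_cons] at ht ⊢
          have hV2mem : ∀ x, x ∈ V2 ↔ x ∈ W ∨ x = y ∨ x ∈ G ∨ x = p y ∨ x ∈ V4 := by
            intro x
            rw [hV2]
            simp only [List.mem_append, List.mem_cons]
          have hGV : (t ∈ G ∨ t ∈ V4) →
              p t ∈ U2 ∨ p t ∈ Wb ∨ p t = y ∨ p t ∈ G ∨ p t = p y ∨ p t ∈ V4 := by
            intro hgv
            have htV : t ∈ V2 := by rw [hV2mem]; (first | grind | tauto)
            rcases hloc t (Or.inr (Or.inr htV)) with h | h | h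
            · exfalso
              have := h2' _ h
              rw [hinv] at this
              (first | grind | tauto)
            · left; exact h
            · rw [hV2mem] at h
              rcases h with h | h
              · exfalso
                apply hWf _ h
                rw [hinv]
                exact htV
              · (first | grind | tauto)
          rcases ht with ht | ht | ht | ht | ht | ht
          · rcases hloc t (Or.inr (Or.inl ht)) with h | h | h
            · exact absurd h (hnone t ht)
            · left; exact h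
            · rw [hV2mem] at h
              rcases h with h | h
              · rw [hWab] at h
                rcases List.mem_append.mp h with h | h
                · exfalso
                  have := h3 _ h
                  rw [hinv] at this
                  exact this ht
                · right; left; exact h
              · (first | grind | tauto)
          · have hW' : t ∈ W := by rw [hWab]; simp [ht]
            rcases hloc t (Or.inr (Or.inr (hWsub t hW'))) with h | h | h
            · exact absurd h (h1 t ht)
            · left; exact h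
            · exact absurd h (hWf t hW')
          · right; right; right; right; left
            rw [ht]
          · exact hGV (Or.inl ht)
          · right; right; left
            rw [ht, hinv]
          · exact hGV (Or.inr ht)
        rcases last_split (fun q => p q ∈ A) W with ⟨W0, q, W1, hW, hq, hl⟩ | hn0
        · have h7 := hclosed (W0 ++ [q]) W1 (by rw [hW]; simp) hl (by
            intro w hww
            rcases List.mem_append.mp hww with hww | hww
            · obtain ⟨Wa, Wb, rfl⟩ := List.append_of_mem hww
              exact hmax (p q) hq w Wa Wb (W1 ++ y :: (G ++ p y :: V4)) (by rw [hV2, hW, hinv]; simp)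
            · have hwq : w = q := by simpa using hww
              subst hwq
              intro h
              have h8 := hpos h
              have h9 := hpos hq
              have h10 := hcnt (p w)
              omega)
          have := hi (A ++ [p e]) U2 (e :: (W0 ++ [q])) (W1 ++ y :: (G ++ p y :: V4))
            (by rw [hV2, hW]; simp) (by simp) (by simp) h7
          have h10 := this.2
          simp at h10
        · have h7 := hclosed [] W rfl hn0 (by simp)
          have := hi (A ++ [p e]) U2 [e] (W ++ y :: (G ++ p y :: V4))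
            (by rw [hV2]; simp) (by simp) (by simp) h7
          have h10 := this.2
          simp at h10

/-- THEOREM (A_h+). -/
theorem AHP (s : St Ω) (hw : WF p s) (hi : Irr p s) (hN : N p s) (he : EForm p s ∨ EForm p (mir s)) :
    ∃ h k, (Hub p k h ∨ Hub p k (mir h)) ∧
      RT p ((14 * (s.1 ++ s.2).length + 20) * (s.1 ++ s.2).length) s h := by
  rcases he with he | he
  · obtain ⟨e, A, U2, V2, rfl, hb⟩ := he
    obtain ⟨h, k, h1, h2⟩ := AHP_aux _ _ e A U2 V2 rfl hw hi hN hb le_rfl
    exact ⟨h, k, Or.inl h1, h2⟩
  · obtain ⟨e, A, U2, V2, hs, hb⟩ := he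
    have hw' := hw.mir
    have hi' := hi.mir
    have hN' := hN.mir
    have hlen : ((mir s).1 ++ (mir s).2).length ≤ (s.1 ++ s.2).length := by
      simp [mir, Nat.add_comm]
    rw [hs] at hw' hi' hN' hlen
    obtain ⟨h, k, h1, h2⟩ := AHP_aux (s.1 ++ s.2).length _ e A U2 V2 rfl hw' hi' hN' hb hlen
    refine ⟨mir h, k, Or.inr h1, ?_⟩
    rw [← hs] at h2
    exact h2.mir

/-- every state which is not pair free has a round trip to a double standard state. -/
theorem AHP_DS (s : St Ω) (hw : WF p s) (hi : Irr p s) (hN : N p s) (hpf : ¬ PFs p s) :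
    ∃ t, DS p t ∧ RT p ((15 * (s.1 ++ s.2).length + 20) * (s.1 ++ s.2).length) s t := by
  obtain ⟨s1, h1, h2⟩ := LR s hw hN hpf
  have hw1 := hw.reach h1.1
  have hi1 := Irr.reach hw hi h1.1
  obtain ⟨h, k, h3, h4⟩ := AHP s1 hw1 hi1 h1.1.right h2
  have hw2 := hw1.reach h4.1
  have hi2 := Irr.reach hw1 hi1 h4.1
  obtain ⟨t, h5, h6⟩ := AH' h hw2 hi2 k h3
  refine ⟨t, h5, ?_⟩
  have e1 := h1.1.perm.length_eq
  have e2 := h4.1.perm.length_eq
  rw [← e2, ← e1] at h6
  rw [← e1] at h4
  refine ((h1.trans h4).trans h6).mono ?_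
  have : 0 + (14 * (s.1 ++ s.2).length + 20) * (s.1 ++ s.2).length +
      (s.1 ++ s.2).length * (s.1 ++ s.2).length = (15 * (s.1 ++ s.2).length + 20) * (s.1 ++ s.2).length := by ring
  rw [this]

end NTH
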