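import Pool.Agent.helper55.NT.Sim

/-!
From arbitrary languages to languages with monotone slices: inputs and their complements.
-/

set_option autoImplicit false

namespace Pool.Agent.helper55.NT

open Pool.Agent.helper38.Neg

/-- every circuit is a straight line computation -/
lemma Circuit.toChain {N : ℕ} : ∀ {s : ℕ} (C : Circuit N s), ∃ L : List ((Fin N → Bool) → Bool),
    Chain L ∧ L.length = s ∧ ∀ k, Op L (fun x => C.val x k) := by
  intro s C
  induction C with
  | nil => exact ⟨[], Chain.nil, rfl, fun k => Or.inr ⟨k, rfl⟩⟩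
  | @snoc s C g ih =>
    obtain ⟨L, h1, h2, h3⟩ := ih
    have key : ∀ F : (Fin N → Bool) → Bool, (∀ x, g.eval (C.val x) = F x) → Chain (F :: L) →
        ∃ L : List ((Fin N → Bool) → Bool), Chain L ∧ L.length = s + 1 ∧
          ∀ k, Op L (fun x => (Circuit.snoc C g).val x k) := by
      intro F hF hch
      refine ⟨F :: L, hch, by simp [h2], fun k => ?_⟩
      refine Fin.lastCases ?_ (fun k => ?_) k
      · refine Or.inl ?_
        have : (fun x => (Circuit.snoc C g).val x (Fin.last (N + s))) = F := by
          funext x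
          rw [← hF x]
          simp [Circuit.val]
        change (fun x => (Circuit.snoc C g).val x (Fin.last (N + s))) ∈ F :: L
        rw [this]
        exact List.mem_cons_self
      · have : (fun x => (Circuit.snoc C g).val x (Fin.castSucc k)) = fun x => C.val x k := by
          funext x
          simp [Circuit.val]
        rw [this]
        exact (h3 k).mono fun _ h => List.mem_cons_of_mem _ h
    cases g with
    | const b => exact key _ (fun x => rfl) (Chain.const b h1)
    | and i j => exact key _ (fun x => rfl) (Chain.and h1 (h3 i) (h3 j))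
    | or i j => exact key _ (fun x => rfl) (Chain.or h1 (h3 i) (h3 j))
    | not i => exact key _ (fun x => rfl) (Chain.not h1 (h3 i))

/-- The language with monotone slices made from `A`: a word of length `2 n` is read as a pair
`(u, v)`. -/
def dbl (A : Lang) : Lang := fun m x => ∃ (n : ℕ) (h : n + n = m),
  (∃ i : Fin n, x (Fin.cast h (Fin.castAdd n i)) = true ∧ x (Fin.cast h (Fin.natAdd n i)) = true) ∨
  ((∀ i : Fin n, x (Fin.cast h (Fin.castAdd n i)) = true ∨
      x (Fin.cast h (Fin.natAdd n i)) = true) ∧
    A n (fun i => x (Fin.cast h (Fin.castAdd n i))))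

lemma dbl_iff (A : Lang) (n : ℕ) (x : Fin (n + n) → Bool) : dbl A (n + n) x ↔
    (∃ i : Fin n, x (Fin.castAdd n i) = true ∧ x (Fin.natAdd n i) = true) ∨
    ((∀ i : Fin n, x (Fin.castAdd n i) = true ∨ x (Fin.natAdd n i) = true) ∧
      A n (fun i => x (Fin.castAdd n i))) := by
  constructor
  · rintro ⟨n', h, h'⟩
    have : n' = n := by omega
    subst this
    exact h'
  · intro h
    exact ⟨n, rfl, h⟩

lemma dbl_mono (A : Lang) (m : ℕ) : Monotone (dbl A m) := by
  rintro x y hxy ⟨n, h, h'⟩
  subst h
  rw [dbl_iff]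
  have hle : ∀ j, x j = true → y j = true := fun j hj => Bool.le_iff_imp.1 (hxy j) hj
  simp only [Fin.cast_eq_self] at h'
  rcases h' with ⟨i, h1, h2⟩ | ⟨h1, h2⟩
  · exact Or.inl ⟨i, hle _ h1, hle _ h2⟩
  · by_cases h3 : ∃ i : Fin n, y (Fin.castAdd n i) = true ∧ y (Fin.natAdd n i) = true
    · exact Or.inl h3
    · refine Or.inr ⟨fun i => ?_, ?_⟩
      · rcases h1 i with h4 | h4
        · exact Or.inl (hle _ h4)
        · exact Or.inr (hle _ h4)
      · have h4 : (fun i => y (Fin.castAdd n i)) = fun i => x (Fin.castAdd n i) := by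
          funext i
          cases hx : x (Fin.castAdd n i)
          · rw [Bool.eq_false_iff]
            intro hy
            rcases h1 i with h5 | h5
            · rw [hx] at h5; exact absurd h5 (by simp)
            · exact h3 ⟨i, hy, hle _ h5⟩
          · exact hle _ hx
        rw [h4]
        exact h2

lemma eval_mono (p : Polynomial ℕ) {a b : ℕ} (h : a ≤ b) : p.eval a ≤ p.eval b := by
  rw [Polynomial.eval_eq_sum_range, Polynomial.eval_eq_sum_range]
  refine Finset.sum_le_sum fun i _ => ?_
  gcongr

lemma dbl_inNPPoly (A : Lang) (h : InNPPoly A) : InNPPoly (dbl A) := by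
  obtain ⟨p, hp⟩ := h
  refine ⟨p + 8 * Polynomial.X + 10, fun m => ?_⟩
  have hev : (p + 8 * Polynomial.X + 10 : Polynomial ℕ).eval m = p.eval m + 8 * m + 10 := by
    simp
  rw [hev]
  by_cases hm : ∃ n, n + n = m
  · obtain ⟨n, rfl⟩ := hm
    obtain ⟨w, s, hw, hs, C, o, hC⟩ := hp n
    have hpm : p.eval n ≤ p.eval (n + n) := eval_mono p (by omega)
    obtain ⟨L, hL1, hL2, hL3⟩ := Circuit.toChain C
    -- coordinates
    let φ : Fin (n + w) → Fin (n + n + w) :=
      Fin.append (fun i : Fin n => Fin.castAdd w (Fin.castAdd n i)) (fun j : Fin w => Fin.natAdd (n + n) j)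
    have hcost : HasCost (fun z : Fin (n + n + w) → Bool => C.val (z ∘ φ) o) s := by
      refine HasCost.rename φ (f := fun z => C.val z o) ⟨L, hL1, hL2.le, hL3 o⟩
    have hany : HasCost (fun z : Fin (n + n + w) → Bool => anyB fun i : Fin n =>
        (z (Fin.castAdd w (Fin.castAdd n i)) && z (Fin.castAdd w (Fin.natAdd n i)))) (n * 2 + 1) := by
      have h1 := HasCost.any (ι := Fin (n + n + w)) (fun (i : Fin n) z =>
        (z (Fin.castAdd w (Fin.castAdd n i)) && z (Fin.castAdd w (Fin.natAdd n i)))) 1
        (fun i => (HasCost.var _).and (HasCost.var _))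
      rwa [Fintype.card_fin] at h1
    have hall : HasCost (fun z : Fin (n + n + w) → Bool => allB fun i : Fin n =>
        (z (Fin.castAdd w (Fin.castAdd n i)) || z (Fin.castAdd w (Fin.natAdd n i)))) (n * 2 + 1) := by
      have h1 := HasCost.all (ι := Fin (n + n + w)) (fun (i : Fin n) z =>
        (z (Fin.castAdd w (Fin.castAdd n i)) || z (Fin.castAdd w (Fin.natAdd n i)))) 1
        (fun i => (HasCost.var _).or (HasCost.var _))
      rwa [Fintype.card_fin] at h1
    obtain ⟨L', g1, g2, g3⟩ := hany.or (hall.and hcost)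
    obtain ⟨C', hC'⟩ := g1.toCircuit
    obtain ⟨o', ho'⟩ := hC' _ g3
    refine ⟨w, L'.length, by omega, by omega, C', o', fun x => ?_⟩
    rw [dbl_iff]
    have hval : ∀ y : Fin w → Bool, (Fin.append x y) ∘ φ =
        Fin.append (fun i => x (Fin.castAdd n i)) y := by
      intro y
      funext j
      refine Fin.addCases (fun i => ?_) (fun i => ?_) j
      · simp [φ]
      · simp [φ]
    constructor
    · rintro (⟨i, h1, h2⟩ | ⟨h1, h2⟩)
      · refine ⟨fun _ => false, ?_⟩
        rw [ho', Bool.or_eq_true]
        refine Or.inl ?_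
        rw [anyB_iff]
        exact ⟨i, by simp only [Fin.append_left, h1, h2, Bool.and_self]⟩
      · obtain ⟨y, hy⟩ := (hC _).1 h2
        refine ⟨y, ?_⟩
        rw [ho', Bool.or_eq_true, Bool.and_eq_true]
        refine Or.inr ⟨?_, ?_⟩
        · rw [allB_iff]
          intro i
          simp only [Fin.append_left, Bool.or_eq_true]
          exact h1 i
        · rw [hval]
          exact hy
    · rintro ⟨y, hy⟩
      rw [ho', Bool.or_eq_true, Bool.and_eq_true, anyB_iff, allB_iff, hval] at hy
      rcases hy with ⟨i, hi⟩ | ⟨h1, h2⟩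
      · refine Or.inl ⟨i, ?_⟩
        simpa only [Fin.append_left, Bool.and_eq_true] using hi
      · refine Or.inr ⟨fun i => ?_, (hC _).2 ⟨y, h2⟩⟩
        simpa only [Fin.append_left, Bool.or_eq_true] using h1 i
  · refine ⟨0, 1, by omega, by omega, Circuit.snoc Circuit.nil (Gate.const false),
      Fin.last _, fun x => ?_⟩
    constructor
    · rintro ⟨n, h, -⟩
      exact absurd ⟨n, h⟩ hm
    · rintro ⟨y, hy⟩
      simp [Circuit.val, Gate.eval] at hy

/-- circuits for `dbl A` give circuits for `A` -/
lemma dbl_circuit (A : Lang) (n s : ℕ) (C : Circuit (n + n) s) (o : Fin (n + n + s))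
    (hC : C.Computes o (dbl A (n + n))) :
    ∃ s' ≤ n + 2 * s, ∃ (C' : Circuit n s') (o' : Fin (n + s')), C'.Computes o' (A n) := by
  let P : Fin (n + n) → Fn n := Fin.append (fun i x => x i) (fun i x => !(x i))
  let Q : Fin (n + n) → Fn n := Fin.append (fun i x => !(x i)) (fun i x => x i)
  have h1 : Rel (∅ : Set (Fn n)) 0 0
      (⋃ i ∈ (Finset.univ : Finset (Fin n)), {fun x : Fin n → Bool => x i}) :=
    (Rel.biUnion (m := 0) Finset.univ (fun i : Fin n => {fun x : Fin n → Bool => x i})
      (fun i _ => Rel.var _ i)).mono le_rfl subset_rfl (by simp) le_rfl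
  set V : Set (Fn n) := ⋃ i ∈ (Finset.univ : Finset (Fin n)), {fun x : Fin n → Bool => x i} with hV
  have hVi : ∀ i : Fin n, (fun x : Fin n → Bool => x i) ∈ V := by
    intro i
    simp only [hV, Set.mem_iUnion]
    exact ⟨i, Finset.mem_univ _, rfl⟩
  have h2 : ∀ S : Finset (Fin n), Rel V S.card S.card
      (⋃ i ∈ S, {fun x : Fin n → Bool => !(x i)}) := by
    intro S
    classical
    induction S using Finset.induction_on with
    | empty =>
      refine (Rel.sub (G := ∅) (Set.empty_subset _)).mono le_rfl ?_ (by simp) (by simp)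
      simp
    | @insert a S ha ih =>
      refine ((Rel.not (hVi a)).union ih).mono le_rfl ?_ ?_ ?_
      · intro g hg
        simp only [Finset.mem_insert, Set.mem_iUnion, exists_prop, exists_eq_or_imp] at hg
        rcases hg with hg | hg
        · exact Or.inl hg
        · refine Or.inr ?_
          simp only [Set.mem_iUnion, exists_prop]
          exact hg
      · rw [Finset.card_insert_of_notMem ha]; omega
      · rw [Finset.card_insert_of_notMem ha]; omega
  have h3 := h2 Finset.univ
  set N : Set (Fn n) := ⋃ i ∈ (Finset.univ : Finset (Fin n)), {fun x : Fin n → Bool => !(x i)} with hN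
  have hNi : ∀ i : Fin n, (fun x : Fin n → Bool => !(x i)) ∈ N := by
    intro i
    simp only [hN, Set.mem_iUnion]
    exact ⟨i, Finset.mem_univ _, rfl⟩
  rw [Finset.card_univ, Fintype.card_fin] at h3
  have h4 := Rel.dual C P Q
  have hPQ : Set.range P ∪ Set.range Q ⊆ V ∪ N := by
    rintro g (⟨j, rfl⟩ | ⟨j, rfl⟩)
    · refine Fin.addCases (fun i => ?_) (fun i => ?_) j
      · simp only [P, Fin.append_left]
        exact Or.inl (hVi i)
      · simp only [P, Fin.append_right]
        exact Or.inr (hNi i)
    · refine Fin.addCases (fun i => ?_) (fun i => ?_) j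
      · simp only [Q, Fin.append_left]
        exact Or.inr (hNi i)
      · simp only [Q, Fin.append_right]
        exact Or.inl (hVi i)
  have h5 := h1.trans' ((h3.trans' (h4.mono hPQ subset_rfl le_rfl le_rfl)).mono
    (F' := ∅ ∪ V) Set.subset_union_right le_rfl le_rfl le_rfl)
  have h6 : Rel (∅ : Set (Fn n)) (n + 2 * s) n
      {fun x => (dval C (fun i => P i x) (fun i => Q i x) o).1} := by
    refine h5.mono le_rfl ?_ (by omega) (by omega)
    rintro g rfl
    exact Or.inl ⟨o, rfl⟩
  obtain ⟨s', hs', C', o', -, hC'⟩ := h6.toCircuit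
  refine ⟨s', hs', C', o', fun x => ?_⟩
  rw [hC']
  have hz : ∀ i, ((Fin.append x (fun i => !(x i)) : Fin (n + n) → Bool) i = P i x) ∧
      (Q i x = !((Fin.append x (fun i => !(x i)) : Fin (n + n) → Bool) i)) := by
    intro j
    refine Fin.addCases (fun i => ?_) (fun i => ?_) j
    · simp only [P, Q, Fin.append_left, and_self]
    · simp only [P, Q, Fin.append_right, Bool.not_not, and_self]
  have h7 : (dval C (fun i => P i x) (fun i => Q i x) o).1 =
      C.val (Fin.append x (fun i => !(x i))) o := by
    rw [Bool.eq_iff_iff]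
    constructor
    · refine (dval_ge C _ _ _ (fun i => ?_) o).1
      obtain ⟨a1, a2⟩ := hz i
      rw [← a1, a2]
      exact ⟨fun h => h, fun h => by simpa using h⟩
    · refine (dval_le C _ _ _ (fun i => ?_) o).1
      obtain ⟨a1, a2⟩ := hz i
      rw [← a1, a2]
      exact ⟨fun h => h, fun h => by simp [h]⟩
  rw [h7, hC, dbl_iff]
  constructor
  · rintro (⟨i, h8, h9⟩ | ⟨h8, h9⟩)
    · simp only [Fin.append_left, Fin.append_right] at h8 h9
      rw [h8] at h9
      exact absurd h9 (by simp)
    · simpa only [Fin.append_left] using h9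
  · intro h
    refine Or.inr ⟨fun i => ?_, ?_⟩
    · simp only [Fin.append_left, Fin.append_right]
      cases x i <;> simp
    · simpa only [Fin.append_left] using h

end Pool.Agent.helper55.NT
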