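import Pool.Agent.helper55.NT.Dbl

/-!
The threshold for the number of NOT gates.
-/

set_option autoImplicit false

namespace Pool.Agent.helper55.NT

open Pool.Agent.helper38.Neg

variable {n : ℕ}

lemma mon_of {f : (Fin n → Bool) → Prop} (hf : Monotone f) (g : Fn n)
    (hg : ∀ x, g x = true ↔ f x) : Mon g := by
  intro x y h hx
  rw [hg] at hx ⊢
  exact hf (fun i => Bool.le_iff_imp.2 (h i)) hx

/-- The window theorem. -/
theorem window (n s k b : ℕ) (f : (Fin n → Bool) → Prop) (hb : 1 ≤ b) (hf : Monotone f)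
    (C : Circuit n s) (o : Fin (n + s)) (hC : C.Computes o f) :
    ∃ s' ≤ 4 * b * (s + 1) * (n + 2) ^ (b + 2), ∃ (C' : Circuit n s') (o' : Fin (n + s')),
      C'.notCount = 0 ∧ (∀ x, k ≤ wt x → f x → C'.val x o' = true) ∧
        ∀ x, wt x < k + b → ¬ f x → C'.val x o' = false := by
  obtain ⟨s', hs, C', o', h1, h2⟩ := window_circuit (fun x => C.val x o) (mon_of hf _ hC) C o
    (fun x => rfl) k b hb
  refine ⟨s', hs, C', o', h1, fun x hx hfx => ?_, fun x hx hfx => ?_⟩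
  · rw [h2, (hC x).2 hfx, decide_eq_true hx]
    simp
  · have h3 : C.val x o = false := by
      rw [Bool.eq_false_iff]
      exact fun h => hfx ((hC x).1 h)
    rw [h2, h3, decide_eq_false (by omega : ¬ (k + b ≤ wt x))]
    simp

/-- Simulation with few NOT gates. -/
theorem sim (n s b r : ℕ) (f : (Fin n → Bool) → Prop) (hn : n + 1 ≤ b * 2 ^ r) (hf : Monotone f)
    (C : Circuit n s) (o : Fin (n + s)) (hC : C.Computes o f) :
    ∃ s' ≤ 18 * b * (s + 1) * (n + 2) ^ (b + 2), ∃ (C' : Circuit n s') (o' : Fin (n + s')),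
      C'.Computes o' f ∧ C'.notCount ≤ r := by
  obtain ⟨s', hs, C', o', h1, h2⟩ := sim_circuit (fun x => C.val x o) (mon_of hf _ hC) C o
    (fun x => rfl) b r hn
  exact ⟨s', hs, C', o', fun x => by rw [h2]; exact hC x, h1⟩

/-- The criterion for polynomial size. -/
theorem poly_criterion (r : ℕ → ℕ) (hr : ∃ c, ∀ n, n ≤ c * 2 ^ r n) :
    (∀ A, InNPPoly A → InPPoly A) ↔
      ∀ A, InNPPoly A → (∀ n, Monotone (A n)) → PolyNots r A := by
  constructor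
  · intro h A hA hmono
    obtain ⟨c, hc⟩ := hr
    obtain ⟨p, hp⟩ := h A hA
    refine ⟨Polynomial.C (18 * (c + 1)) * (p + 1) * (Polynomial.X + 2) ^ (c + 1 + 2), fun n => ?_⟩
    obtain ⟨s, hs, C, o, hC⟩ := hp n
    have hn : n + 1 ≤ (c + 1) * 2 ^ r n := by
      have h1 := hc n
      have h2 : 1 ≤ 2 ^ r n := Nat.one_le_two_pow
      nlinarith
    obtain ⟨s', hs', C', o', h1, h2⟩ := sim n s (c + 1) (r n) (A n) hn (hmono n) C o hC
    refine ⟨s', hs'.trans ?_, C', o', h1, h2⟩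
    simp only [Polynomial.eval_mul, Polynomial.eval_C, Polynomial.eval_add, Polynomial.eval_one,
      Polynomial.eval_pow, Polynomial.eval_X, Polynomial.eval_ofNat]
    gcongr
  · intro h A hA
    obtain ⟨p, hp⟩ := h (dbl A) (dbl_inNPPoly A hA) (dbl_mono A)
    refine ⟨Polynomial.X + 2 * p.comp (Polynomial.X + Polynomial.X), fun n => ?_⟩
    obtain ⟨s, hs, C, o, hC, -⟩ := hp (n + n)
    obtain ⟨s', hs', C', o', h1⟩ := dbl_circuit A n s C o hC
    refine ⟨s', hs'.trans ?_, C', o', h1⟩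
    simp only [Polynomial.eval_add, Polynomial.eval_X, Polynomial.eval_mul, Polynomial.eval_ofNat,
      Polynomial.eval_comp]
    have : s ≤ p.eval (n + n) := hs
    omega

lemma lg_pos (n : ℕ) : 1 ≤ lg n := by
  unfold lg
  exact Nat.log_pos (by norm_num) (by omega)

lemma lt_two_pow_lg (n : ℕ) : n + 2 < 2 ^ (lg n + 1) := Nat.lt_pow_succ_log_self (by norm_num) _

lemma lg_two (n : ℕ) : lg (n + n) ≤ 2 * lg n := by
  have h1 : lg (n + n) ≤ lg n + 1 := by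
    unfold lg
    have h2 : Nat.log 2 (n + n + 2) ≤ Nat.log 2 ((n + 2) * 2) := Nat.log_mono_right (by omega)
    rwa [Nat.log_mul_base (by norm_num) (by omega)] at h2
  have := lg_pos n
  omega

lemma lg_pow_le (n : ℕ) {a K : ℕ} (h : a ≤ K) : lg n ^ a ≤ lg n ^ K :=
  Nat.pow_le_pow_right (lg_pos n) h

lemma two_pow_add (a b : ℕ) : 2 ^ a + 2 ^ b ≤ 2 ^ (a + b + 1) := by
  have h1 : 2 ^ a ≤ 2 ^ (a + b) := Nat.pow_le_pow_right (by norm_num) (by omega)
  have h2 : 2 ^ b ≤ 2 ^ (a + b) := Nat.pow_le_pow_right (by norm_num) (by omega)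
  rw [pow_succ]
  omega

lemma inQuasi_of_dbl (r : ℕ → ℕ)
    (h : ∀ A, InNPPoly A → (∀ n, Monotone (A n)) → QuasiNots r A) (A : Lang) (hA : InNPPoly A) :
    InQuasi A := by
  obtain ⟨k, hk⟩ := h (dbl A) (dbl_inNPPoly A hA) (dbl_mono A)
  refine ⟨k * 2 ^ k + k + 4, fun n => ?_⟩
  obtain ⟨s, hs, C, o, hC, -⟩ := hk (n + n)
  obtain ⟨s', hs', C', o', h1⟩ := dbl_circuit A n s C o hC
  refine ⟨s', hs'.trans ?_, C', o', h1⟩
  have h2 : s ≤ 2 ^ (k * lg (n + n) ^ k) := hs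
  have h3 : k * lg (n + n) ^ k ≤ k * 2 ^ k * lg n ^ k := by
    rw [mul_assoc, ← mul_pow]
    exact Nat.mul_le_mul_left _ (Nat.pow_le_pow_left (lg_two n) _)
  have h4 : 2 * s ≤ 2 ^ (k * 2 ^ k * lg n ^ k + 1) := by
    rw [pow_succ]
    have := h2.trans (Nat.pow_le_pow_right (by norm_num) h3)
    omega
  have h5 : n ≤ 2 ^ (lg n + 1) := by
    have := lt_two_pow_lg n
    omega
  have h6 : n + 2 * s ≤ 2 ^ ((lg n + 1) + (k * 2 ^ k * lg n ^ k + 1) + 1) :=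
    (Nat.add_le_add h5 h4).trans (two_pow_add _ _)
  refine h6.trans (Nat.pow_le_pow_right (by norm_num) ?_)
  set K := k * 2 ^ k + k + 4 with hK
  have a1 : lg n ^ k ≤ lg n ^ K := lg_pow_le n (by omega)
  have a2 : lg n ≤ lg n ^ K := Nat.le_self_pow (by omega) _
  have a3 : 1 ≤ lg n ^ K := Nat.one_le_pow _ _ (lg_pos n)
  have a4 : k * 2 ^ k * lg n ^ k ≤ k * 2 ^ k * lg n ^ K := Nat.mul_le_mul_left _ a1
  have a5 : K * lg n ^ K = k * 2 ^ k * lg n ^ K + k * lg n ^ K + 4 * lg n ^ K := by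
    rw [hK]; ring
  rw [a5]
  have a6 : 0 ≤ k * lg n ^ K := Nat.zero_le _
  omega

lemma quasiNots_of (r : ℕ → ℕ) (hr : ∃ c, ∀ n, n ≤ c * lg n ^ c * 2 ^ r n)
    (h : ∀ A, InNPPoly A → InQuasi A) (A : Lang) (hA : InNPPoly A) (hmono : ∀ n, Monotone (A n)) :
    QuasiNots r A := by
  obtain ⟨c, hc⟩ := hr
  obtain ⟨k, hk⟩ := h A hA
  refine ⟨3 * c + k + 20, fun n => ?_⟩
  obtain ⟨s, hs, C, o, hC⟩ := hk n
  have hn : n + 1 ≤ (c * lg n ^ c + 1) * 2 ^ r n := by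
    have h1 := hc n
    have h2 : 1 ≤ 2 ^ r n := Nat.one_le_two_pow
    rw [add_mul, one_mul]
    omega
  obtain ⟨s', hs', C', o', h1, h2⟩ := sim n s (c * lg n ^ c + 1) (r n) (A n) hn (hmono n) C o hC
  refine ⟨s', hs'.trans ?_, C', o', h1, h2⟩
  set K := 3 * c + k + 20 with hK
  set L := lg n with hL
  have hL1 : 1 ≤ L := lg_pos n
  have b1 : 18 ≤ 2 ^ 5 := by norm_num
  have b2 : c * L ^ c + 1 ≤ 2 ^ (c * L ^ c + 1) := Nat.lt_two_pow_self.le
  have b3 : s + 1 ≤ 2 ^ (k * L ^ k + 1) := by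
    rw [pow_succ]
    have : 1 ≤ 2 ^ (k * L ^ k) := Nat.one_le_two_pow
    omega
  have b4 : (n + 2) ^ (c * L ^ c + 1 + 2) ≤ 2 ^ ((L + 1) * (c * L ^ c + 1 + 2)) := by
    rw [pow_mul]
    exact Nat.pow_le_pow_left (lt_two_pow_lg n).le _
  calc 18 * (c * L ^ c + 1) * (s + 1) * (n + 2) ^ (c * L ^ c + 1 + 2)
      ≤ 2 ^ 5 * 2 ^ (c * L ^ c + 1) * 2 ^ (k * L ^ k + 1) * 2 ^ ((L + 1) * (c * L ^ c + 1 + 2)) := by
        gcongr
    _ = 2 ^ (5 + (c * L ^ c + 1) + (k * L ^ k + 1) + (L + 1) * (c * L ^ c + 1 + 2)) := by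
        rw [← pow_add, ← pow_add, ← pow_add]
    _ ≤ 2 ^ (K * L ^ K) := Nat.pow_le_pow_right (by norm_num) ?_
  have a1 : L ^ c ≤ L ^ K := Nat.pow_le_pow_right hL1 (by omega)
  have a2 : L ^ k ≤ L ^ K := Nat.pow_le_pow_right hL1 (by omega)
  have a3 : L ^ (c + 1) ≤ L ^ K := Nat.pow_le_pow_right hL1 (by omega)
  have a4 : L ≤ L ^ K := Nat.le_self_pow (by omega) _
  have a5 : 1 ≤ L ^ K := Nat.one_le_pow _ _ hL1
  have e1 : 5 + (c * L ^ c + 1) + (k * L ^ k + 1) + (L + 1) * (c * L ^ c + 1 + 2) =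
      2 * (c * L ^ c) + k * L ^ k + c * L ^ (c + 1) + 3 * L + 10 := by ring
  have e2 : K * L ^ K = 3 * (c * L ^ K) + k * L ^ K + 20 * L ^ K := by rw [hK]; ring
  rw [e1, e2]
  have c1 : c * L ^ c ≤ c * L ^ K := Nat.mul_le_mul_left _ a1
  have c2 : k * L ^ k ≤ k * L ^ K := Nat.mul_le_mul_left _ a2
  have c3 : c * L ^ (c + 1) ≤ c * L ^ K := Nat.mul_le_mul_left _ a3
  omega

/-- The lower bound gives the growth condition. -/
lemma growth_of (r : ℕ → ℕ) (A : Lang) (c0 : ℝ) (hc0 : 0 < c0)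
    (hA : ∀ n s K : ℕ, 2 ≤ n → ∀ (C : Circuit n s) (o : Fin (n + s)),
        C.Computes o (A n) → (2 ^ C.notCount ≤ K ∨ C.PatternsLE K) →
          (2 : ℝ) ^ (c0 * ((n : ℝ) / (K * Real.log n)) ^ ((1 : ℝ) / 4)) ≤ s + 2)
    (k e : ℕ) (hk : HasCircuits (fun n => 2 ^ (k * lg n ^ e)) r A) :
    ∃ c, ∀ n, n ≤ c * lg n ^ (4 * e + 1) * 2 ^ r n := by
  set D : ℝ := ((k + 2) / c0) ^ 4 with hD
  have hD0 : 0 ≤ D := by positivity
  obtain ⟨d, hd⟩ := exists_nat_ge (2 * D)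
  refine ⟨d + 1, fun n => ?_⟩
  set L := lg n with hL
  have hL1 : 1 ≤ L := lg_pos n
  rcases Nat.lt_or_ge n 2 with hn | hn
  · have a1 : 1 ≤ L ^ (4 * e + 1) := Nat.one_le_pow _ _ hL1
    have a2 : 1 ≤ 2 ^ r n := Nat.one_le_two_pow
    have a3 : 1 ≤ (d + 1) * L ^ (4 * e + 1) := Nat.mul_pos (by omega) a1
    have a4 : 1 ≤ (d + 1) * L ^ (4 * e + 1) * 2 ^ r n := Nat.mul_pos a3 a2
    omega
  · obtain ⟨s, hs, C, o, hC, hr⟩ := hk n
    have hs' : s ≤ 2 ^ (k * L ^ e) := hs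
    have h1 := hA n s (2 ^ r n) hn C o hC
      (Or.inl (Nat.pow_le_pow_right (by norm_num) hr))
    have hlogn : 0 < Real.log n := Real.log_pos (by exact_mod_cast hn)
    have hn0 : (0 : ℝ) < n := by
      have : 0 < n := by omega
      exact_mod_cast this
    have h2 : ((s : ℝ) + 2) ≤ (2 : ℝ) ^ ((k * L ^ e + 2 : ℕ) : ℝ) := by
      rw [Real.rpow_natCast, pow_add]
      have h3 : ((s : ℕ) : ℝ) ≤ 2 ^ (k * L ^ e) := by exact_mod_cast hs'
      have h4 : (1 : ℝ) ≤ 2 ^ (k * L ^ e) := one_le_pow₀ (by norm_num)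
      nlinarith
    have h3 := h1.trans h2
    rw [Real.rpow_le_rpow_left_iff (by norm_num)] at h3
    set R : ℝ := (n : ℝ) / (((2 ^ r n : ℕ) : ℝ) * Real.log n) with hR
    have hR0 : 0 ≤ R := by positivity
    have h4 : ((k * L ^ e + 2 : ℕ) : ℝ) ≤ (k + 2) * (L : ℝ) ^ e := by
      push_cast
      have : (1 : ℝ) ≤ (L : ℝ) ^ e := one_le_pow₀ (by exact_mod_cast hL1)
      nlinarith
    have h5 : R ^ ((1 : ℝ) / 4) ≤ (k + 2) / c0 * (L : ℝ) ^ e := by
      rw [div_mul_eq_mul_div, le_div_iff₀ hc0]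
      linarith
    have h6 : R ≤ D * (L : ℝ) ^ (4 * e) := by
      have h7 : (R ^ ((1 : ℝ) / 4)) ^ 4 ≤ ((k + 2) / c0 * (L : ℝ) ^ e) ^ 4 :=
        pow_le_pow_left₀ (by positivity) h5 4
      have h8 : (R ^ ((1 : ℝ) / 4)) ^ 4 = R := by
        rw [← Real.rpow_natCast, ← Real.rpow_mul hR0]
        norm_num
      rw [h8, mul_pow, ← pow_mul, mul_comm e 4] at h7
      exact h7
    have h7 : (n : ℝ) ≤ D * (L : ℝ) ^ (4 * e) * (((2 ^ r n : ℕ) : ℝ) * Real.log n) := by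
      have h2r : (0 : ℝ) < ((2 ^ r n : ℕ) : ℝ) * Real.log n := by positivity
      rwa [hR, div_le_iff₀ h2r] at h6
    have h8 : Real.log n ≤ 2 * L := by
      have h9 : (n : ℝ) ≤ (2 : ℝ) ^ (L + 1) := by
        have h14 : n ≤ 2 ^ (L + 1) := by
          have := lt_two_pow_lg n
          rw [← hL] at this
          omega
        exact_mod_cast h14
      have h10 : Real.log n ≤ Real.log ((2 : ℝ) ^ (L + 1)) := Real.log_le_log hn0 h9
      rw [Real.log_pow] at h10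
      have h11 : Real.log 2 ≤ 1 := by
        have := Real.log_two_lt_d9
        linarith
      have h12 : ((L + 1 : ℕ) : ℝ) * Real.log 2 ≤ ((L + 1 : ℕ) : ℝ) * 1 :=
        mul_le_mul_of_nonneg_left h11 (by positivity)
      have h13 : (1 : ℝ) ≤ L := by exact_mod_cast hL1
      push_cast at h10 h12
      linarith
    have hLr : (1 : ℝ) ≤ (L : ℝ) := by exact_mod_cast hL1
    have h9 : (n : ℝ) ≤ (((d + 1) * L ^ (4 * e + 1) * 2 ^ r n : ℕ) : ℝ) := by
      calc (n : ℝ) ≤ D * (L : ℝ) ^ (4 * e) * (((2 ^ r n : ℕ) : ℝ) * Real.log n) := h7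
        _ ≤ D * (L : ℝ) ^ (4 * e) * (((2 ^ r n : ℕ) : ℝ) * (2 * L)) := by gcongr
        _ = (2 * D) * (L : ℝ) ^ (4 * e + 1) * ((2 ^ r n : ℕ) : ℝ) := by ring
        _ ≤ ((d + 1 : ℕ) : ℝ) * (L : ℝ) ^ (4 * e + 1) * ((2 ^ r n : ℕ) : ℝ) := by
          have e1 : (2 * D) ≤ ((d + 1 : ℕ) : ℝ) := hd.trans (by exact_mod_cast (by omega : d ≤ d + 1))
          gcongr
        _ = (((d + 1) * L ^ (4 * e + 1) * 2 ^ r n : ℕ) : ℝ) := by push_cast; ring
    exact_mod_cast h9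

lemma eval_le_two_pow (p : Polynomial ℕ) : ∃ k, ∀ n, p.eval n ≤ 2 ^ (k * lg n ^ 1) := by
  refine ⟨(∑ i ∈ Finset.range (p.natDegree + 1), p.coeff i) + 2 * p.natDegree, fun n => ?_⟩
  set S := ∑ i ∈ Finset.range (p.natDegree + 1), p.coeff i with hS
  have hL1 : 1 ≤ lg n := lg_pos n
  have h1 : p.eval n ≤ S * (n + 2) ^ p.natDegree := by
    rw [Polynomial.eval_eq_sum_range, hS, Finset.sum_mul]
    refine Finset.sum_le_sum fun i hi => Nat.mul_le_mul_left _ ?_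
    rw [Finset.mem_range] at hi
    exact (Nat.pow_le_pow_left (by omega) _).trans (Nat.pow_le_pow_right (by omega) (by omega))
  have h2 : (n + 2) ^ p.natDegree ≤ 2 ^ ((lg n + 1) * p.natDegree) := by
    rw [pow_mul]
    exact Nat.pow_le_pow_left (lt_two_pow_lg n).le _
  have h3 : S ≤ 2 ^ S := Nat.lt_two_pow_self.le
  calc p.eval n ≤ S * (n + 2) ^ p.natDegree := h1
    _ ≤ 2 ^ S * 2 ^ ((lg n + 1) * p.natDegree) := Nat.mul_le_mul h3 h2
    _ = 2 ^ (S + (lg n + 1) * p.natDegree) := by rw [pow_add]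
    _ ≤ 2 ^ ((S + 2 * p.natDegree) * lg n ^ 1) := by
      refine Nat.pow_le_pow_right (by norm_num) ?_
      have h4 : S ≤ S * lg n := Nat.le_mul_of_pos_right _ hL1
      have h5 : (lg n + 1) * p.natDegree ≤ 2 * p.natDegree * lg n := by
        calc (lg n + 1) * p.natDegree ≤ (lg n + lg n) * p.natDegree := by gcongr
          _ = 2 * p.natDegree * lg n := by ring
      calc S + (lg n + 1) * p.natDegree ≤ S * lg n + 2 * p.natDegree * lg n :=
            Nat.add_le_add h4 h5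
        _ = (S + 2 * p.natDegree) * lg n ^ 1 := by ring

/-- A necessary condition for polynomial size. -/
theorem poly_growth (r : ℕ → ℕ)
    (h : ∀ A, InNPPoly A → (∀ n, Monotone (A n)) → PolyNots r A) :
    ∃ c, ∀ n, n ≤ c * lg n ^ 5 * 2 ^ r n := by
  obtain ⟨p, hp⟩ := h lang lang_inNPPoly lang_mono
  obtain ⟨k, hk⟩ := eval_le_two_pow p
  refine growth_of r lang (1 / 64) (by norm_num)
    (fun _ _ _ hn C o hC h => size_bound hn C o hC h) k 1 fun n => ?_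
  obtain ⟨s, hs, C, o, h1, h2⟩ := hp n
  exact ⟨s, hs.trans (hk n), C, o, h1, h2⟩

/-- The criterion for quasi-polynomial size, for every number of NOT gates. -/
theorem quasi_criterion (r : ℕ → ℕ) :
    (∀ A, InNPPoly A → (∀ n, Monotone (A n)) → QuasiNots r A) ↔
      (∃ c, ∀ n, n ≤ c * lg n ^ c * 2 ^ r n) ∧ ∀ A, InNPPoly A → InQuasi A := by
  constructor
  · intro h
    refine ⟨?_, inQuasi_of_dbl r h⟩
    obtain ⟨k, hk⟩ := h lang lang_inNPPoly lang_mono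
    obtain ⟨c, hc⟩ := growth_of r lang (1 / 64) (by norm_num)
      (fun _ _ _ hn C o hC h => size_bound hn C o hC h) k k hk
    refine ⟨c + (4 * k + 1), fun n => (hc n).trans ?_⟩
    refine Nat.mul_le_mul_right _ (Nat.mul_le_mul (by omega) ?_)
    exact Nat.pow_le_pow_right (lg_pos n) (by omega)
  · rintro ⟨h1, h2⟩ A hA hm
    exact quasiNots_of r h1 h2 A hA hm

end Pool.Agent.helper55.NT
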