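import Pool.Agent.helper55.NT.Pats

/-!
# MP_c8d30a (G2): the greedy induction of (A_h+) (helper55)
-/

set_option autoImplicit false

namespace NTok

universe u

variable {Om : Type u} {p : Om → Om}

/-- all tokens of a chain state. -/
def ALL (p : Om → Om) (b e c y : Om) (R Q Y T Z W G V : List Om) : List Om :=
  b :: p b :: e :: p e :: c :: p c :: y :: p y :: (R ++ (Q ++ (Y ++ (T ++ (Z ++ (W ++ (G ++ V)))))))

/-- the last element with a property. -/
theorem last_split (P : Om → Prop) (l : List Om) :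
    (∃ l1 a l2, l = l1 ++ a :: l2 ∧ P a ∧ ∀ x ∈ l2, ¬ P x) ∨ ∀ x ∈ l, ¬ P x := by
  classical
  induction l with
  | nil => right; simp
  | cons a l ih =>
    rcases ih with ⟨l1, x, l2, rfl, h2, h3⟩ | h
    · left
      exact ⟨a :: l1, x, l2, by simp, h2, h3⟩
    · by_cases ha : P a
      · left
        exact ⟨[], a, l, by simp, ha, h⟩
      · right
        intro x hx
        rcases List.mem_cons.mp hx with rfl | hx
        · exact ha
        · exact h x hx

/-- the invariant of the chain. -/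
structure Inv (p : Om → Om) (y : Om) (Q T Z W G V : List Om) : Prop where
  a : ∀ t ∈ Q ++ Z, p t ∉ T ∧ p t ∉ G ∧ p t ∉ V
  b : ∀ t ∈ Q ++ Z, ∀ W1 W2 : List Om, W = W1 ++ p t :: W2 → ∀ w ∈ W1, p w ∉ T
  c : ∀ t ∈ W, p t ∉ W ∧ p t ∉ G ∧ p t ∉ V
  d : ∀ T0 T1 W0 W1 : List Om, T = T0 ++ T1 → W = W0 ++ W1 →
    ¬ ∀ t ∈ T1 ++ (W1 ++ y :: (G ++ p y :: V)), p t ∈ T1 ++ (W1 ++ y :: (G ++ p y :: V))

theorem Inv.same {y c : Om} {Q T T0 T2 Z W G V X : List Om} (hI : Inv p y Q T Z W G V) (hT : T = T0 ++ T2)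
    (hX : ∀ x ∈ X, (p x ∉ T2 ∧ p x ∉ G ∧ p x ∉ V) ∧
      ∀ W1 W2 : List Om, W = W1 ++ p x :: W2 → ∀ w ∈ W1, p w ∉ T2)
    (hc : p c ∉ T2 ∧ p c ∉ G ∧ p c ∉ V ∧ p c ∉ W) : Inv p y Q T2 (X ++ c :: Z) W G V := by
  have hsub : ∀ x, x ∉ T → x ∉ T2 := fun x h h2 => h (by rw [hT]; simp [h2])
  refine ⟨?_, ?_, hI.c, ?_⟩
  · intro t ht
    have ht' : t ∈ Q ++ Z ∨ t ∈ X ∨ t = c := by
      simp only [List.mem_append, List.mem_cons] at ht ⊢
      (first | grind | tauto)
    rcases ht' with h | h | rfl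
    · obtain ⟨h1, h2, h3⟩ := hI.a t h
      exact ⟨hsub _ h1, h2, h3⟩
    · exact (hX t h).1
    · exact ⟨hc.1, hc.2.1, hc.2.2.1⟩
  · intro t ht W1 W2 hW w hw
    have ht' : t ∈ Q ++ Z ∨ t ∈ X ∨ t = c := by
      simp only [List.mem_append, List.mem_cons] at ht ⊢
      (first | grind | tauto)
    rcases ht' with h | h | rfl
    · exact hsub _ (hI.b t h W1 W2 hW w hw)
    · exact (hX t h).2 W1 W2 hW w hw
    · exfalso
      apply hc.2.2.2
      rw [hW]
      simp
  · intro T0' T1 W0 W1 h1 h2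
    exact hI.d (T0 ++ T0') T1 W0 W1 (by rw [hT, h1]; simp) h2

theorem Inv.link {y c w m : Om} {Q T T0 T2 Z W W1 W2 W3 G V : List Om} (hI : Inv p y Q T Z W G V)
    (hT : T = T0 ++ T2) (hW : W = W1 ++ w :: (W2 ++ p m :: W3))
    (hX : ∀ x ∈ W2, p x ∉ T2) (hp : ∀ x, p (p x) = x)
    (hm1 : m ∉ Q ++ Z) (hm2 : m ∉ T ++ (W ++ y :: (G ++ p y :: V)))
    (hc : p c ∉ T2 ∧ p c ∉ G ∧ p c ∉ V ∧ p c ∉ W) : Inv p y Q T2 (W2 ++ c :: Z) (W1 ++ p m :: W3) G V := by
  have hsub : ∀ x, x ∉ T → x ∉ T2 := fun x h h2 => h (by rw [hT]; simp [h2])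
  have hWs : ∀ x, x ∈ W1 ++ p m :: W3 → x ∈ W := by
    intro x hx
    rw [hW]
    simp only [List.mem_append, List.mem_cons] at hx ⊢
    (first | grind | tauto)
  have hW2 : ∀ x ∈ W2, x ∈ W := by
    intro x hx
    rw [hW]
    simp only [List.mem_append, List.mem_cons]
    (first | grind | tauto)
  refine ⟨?_, ?_, ?_, ?_⟩
  · intro t ht
    have ht' : t ∈ Q ++ Z ∨ t ∈ W2 ∨ t = c := by
      simp only [List.mem_append, List.mem_cons] at ht ⊢
      (first | grind | tauto)
    rcases ht' with h | h | rfl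
    · obtain ⟨h1, h2, h3⟩ := hI.a t h
      exact ⟨hsub _ h1, h2, h3⟩
    · exact ⟨hX t h, (hI.c t (hW2 t h)).2⟩
    · exact ⟨hc.1, hc.2.1, hc.2.2.1⟩
  · intro t ht V1 V2 hV w' hw'
    have ht' : t ∈ Q ++ Z ∨ t ∈ W2 ∨ t = c := by
      simp only [List.mem_append, List.mem_cons] at ht ⊢
      (first | grind | tauto)
    have hmem : p t ∈ W1 ++ p m :: W3 := by rw [hV]; simp
    rcases ht' with h | h | rfl
    · apply hsub
      rw [List.append_eq_append_iff] at hV
      rcases hV with ⟨as, h1, h2⟩ | ⟨bs, h1, h2⟩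
      · -- `V1 = W1 ++ as`, `p m :: W3 = as ++ p t :: V2`
        cases as with
        | nil =>
          simp only [List.nil_append, List.cons.injEq] at h2
          exfalso
          apply hm1
          have : m = t := by rw [← hp m, h2.1, hp]
          rw [this]
          exact h
        | cons a as =>
          simp only [List.cons_append, List.cons.injEq] at h2
          obtain ⟨rfl, h2⟩ := h2
          apply hI.b t h (W1 ++ w :: (W2 ++ p m :: as)) V2 (by rw [hW, h2]; simp) w'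
          rw [h1] at hw'
          simp only [List.mem_append, List.mem_cons] at hw' ⊢
          (first | grind | tauto)
      · -- `W1 = V1 ++ bs`, `p t :: V2 = bs ++ p m :: W3`
        cases bs with
        | nil =>
          simp only [List.nil_append, List.cons.injEq] at h2
          exfalso
          apply hm1
          have : m = t := by rw [← hp m, ← h2.1, hp]
          rw [this]
          exact h
        | cons a as =>
          simp only [List.cons_append, List.cons.injEq] at h2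
          obtain ⟨rfl, h2⟩ := h2
          exact hI.b t h V1 (as ++ w :: (W2 ++ p m :: W3)) (by rw [hW, h1]; simp) w' hw'
    · exact absurd (hWs _ hmem) (hI.c t (hW2 t h)).1
    · exact absurd (hWs _ hmem) hc.2.2.2
  · intro t ht
    obtain ⟨h1, h2, h3⟩ := hI.c t (hWs t ht)
    exact ⟨fun h => h1 (hWs _ h), h2, h3⟩
  · intro T0' T1 W0 Wb h1 h2 hcl
    rw [List.append_eq_append_iff] at h2
    rcases h2 with ⟨as, h3, h4⟩ | ⟨bs, h3, h4⟩
    · -- `W0 = W1 ++ as`, `p m :: W3 = as ++ Wb`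
      cases as with
      | nil =>
        simp only [List.nil_append] at h4
        have h5 := hcl (p m) (by rw [← h4]; simp)
        rw [hp] at h5
        apply hm2
        rw [← h4] at h5
        rw [hT, h1, hW]
        simp only [List.mem_append, List.mem_cons] at h5 ⊢
        (first | grind | tauto)
      | cons a as =>
        simp only [List.cons_append, List.cons.injEq] at h4
        obtain ⟨rfl, h4⟩ := h4
        exact hI.d (T0 ++ T0') T1 (W1 ++ w :: (W2 ++ p m :: as)) Wb (by rw [hT, h1]; simp)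
          (by rw [hW, h4]; simp) hcl
    · -- `W1 = W0 ++ bs`, `Wb = bs ++ p m :: W3`
      have h5 := hcl (p m) (by rw [h4]; simp)
      rw [hp] at h5
      apply hm2
      rw [h4] at h5
      rw [hT, h1, hW, h3]
      simp only [List.mem_append, List.mem_cons] at h5 ⊢
      (first | grind | tauto)

/-! ## Locations -/

theorem clos {K L : List Om} (hp : ∀ x, p (p x) = x) (hnd : (K ++ L).Nodup) (hall : ∀ t ∈ K ++ L, p t ∈ K ++ L)
    (hK : ∀ t ∈ K, p t ∈ K) : ∀ t ∈ L, p t ∈ L := by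
  intro t ht
  rcases List.mem_append.mp (hall t (List.mem_append_right _ ht)) with h | h
  · exfalso
    have h1 := hK _ h
    rw [hp] at h1
    exact List.disjoint_of_nodup_append hnd h1 ht
  · exact h

/-- the core. -/
def core (p : Om → Om) (b e c y : Om) : List Om := [b, p b, e, p e, c, p c, y, p y]

theorem core_cl (hp : ∀ x, p (p x) = x) (b e c y : Om) : ∀ t ∈ core p b e c y, p t ∈ core p b e c y := by
  intro t ht
  simp only [core, List.mem_cons, List.not_mem_nil, or_false] at ht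
  rcases ht with rfl | rfl | rfl | rfl | rfl | rfl | rfl | rfl <;> simp [core, hp]

theorem ploc (hp : ∀ x, p (p x) = x) {b e c y : Om} {R Q Y T Z W G V : List Om}
    (hnd : (ALL p b e c y R Q Y T Z W G V).Nodup)
    (hall : ∀ t ∈ ALL p b e c y R Q Y T Z W G V, p t ∈ ALL p b e c y R Q Y T Z W G V) (t : Om)
    (ht : t ∈ R ∨ t ∈ Q ∨ t ∈ Y ∨ t ∈ T ∨ t ∈ Z ∨ t ∈ W ∨ t ∈ G ∨ t ∈ V) :
    p t ∈ R ∨ p t ∈ Q ∨ p t ∈ Y ∨ p t ∈ T ∨ p t ∈ Z ∨ p t ∈ W ∨ p t ∈ G ∨ p t ∈ V := by
  have h := clos (K := core p b e c y) (L := R ++ (Q ++ (Y ++ (T ++ (Z ++ (W ++ (G ++ V))))))) hp hnd hall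
    (core_cl hp b e c y) t (by simpa only [List.mem_append] using ht)
  simpa only [List.mem_append] using h

section
variable [DecidableEq Om]

theorem cnt1 {b e c y : Om} {R Q Y T Z W G V : List Om} (hnd : (ALL p b e c y R Q Y T Z W G V).Nodup) (x : Om) :
    R.count x + Q.count x + Y.count x + T.count x + Z.count x + W.count x + G.count x + V.count x ≤ 1 := by
  have h1 : (core p b e c y ++ (R ++ (Q ++ (Y ++ (T ++ (Z ++ (W ++ (G ++ V)))))))).Nodup := hnd
  have h2 := List.nodup_iff_count_le_one.mp (List.Nodup.of_append_right h1) x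
  simp only [List.count_append] at h2
  omega

theorem cnt0 {b e c y : Om} {R Q Y T Z W G V : List Om} (hnd : (ALL p b e c y R Q Y T Z W G V).Nodup) (x : Om)
    (hx : x ∈ core p b e c y) :
    x ∉ R ∧ x ∉ Q ∧ x ∉ Y ∧ x ∉ T ∧ x ∉ Z ∧ x ∉ W ∧ x ∉ G ∧ x ∉ V := by
  have h1 : (core p b e c y ++ (R ++ (Q ++ (Y ++ (T ++ (Z ++ (W ++ (G ++ V)))))))).Nodup := hnd
  have h2 := List.disjoint_of_nodup_append h1 hx
  simp only [List.mem_append, not_or] at h2
  (first | grind | tauto)

theorem perm2 (b e c y z : Om) (R Q Y1 Y2 T0 T2 Z W G V : List Om) :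
    (ALL p b e z y (R ++ p c :: T0) Q Y1 T2 (Y2 ++ c :: Z) W G V).Perm
      (ALL p b e c y R Q (Y1 ++ z :: Y2) (T0 ++ p z :: T2) Z W G V) := by
  rw [List.perm_iff_count]
  intro a
  simp only [ALL, List.count_cons, List.count_append]
  omega

theorem perm3 (b e c y z : Om) (R1 R2 Q Y T0 T2 Z W G V : List Om) :
    (ALL p b e z y R1 Q (Y ++ p c :: T0) T2 (R2 ++ c :: Z) W G V).Perm
      (ALL p b e c y (R1 ++ z :: R2) Q Y (T0 ++ p z :: T2) Z W G V) := by
  rw [List.perm_iff_count]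
  intro a
  simp only [ALL, List.count_cons, List.count_append]
  omega

theorem perm4 (b e c m w y : Om) (R Q Y1 Y2 T0 T2 Z W1 W2 W3 G V : List Om) :
    (ALL p b e w y R Q (Y1 ++ p c :: (T0 ++ m :: Y2)) T2 (W2 ++ c :: Z) (W1 ++ p m :: W3) G V).Perm
      (ALL p b e c y R Q (Y1 ++ m :: Y2) (T0 ++ p w :: T2) Z (W1 ++ w :: (W2 ++ p m :: W3)) G V) := by
  rw [List.perm_iff_count]
  intro a
  simp only [ALL, List.count_cons, List.count_append]
  omega

theorem perm5 (b e c m w y : Om) (R1 R2 Q Y T0 T2 Z W1 W2 W3 G V : List Om) :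
    (ALL p b e w y (R1 ++ p c :: (T0 ++ m :: R2)) Q Y T2 (W2 ++ c :: Z) (W1 ++ p m :: W3) G V).Perm
      (ALL p b e c y (R1 ++ m :: R2) Q Y (T0 ++ p w :: T2) Z (W1 ++ w :: (W2 ++ p m :: W3)) G V) := by
  rw [List.perm_iff_count]
  intro a
  simp only [ALL, List.count_cons, List.count_append]
  omega

end

end NTok
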