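import Pool.Agent.helper38.Neg.Defs

/-!
Languages with deterministic circuits of polynomial and quasi-polynomial size, with a bound for the
number of NOT gates.
-/

set_option autoImplicit false

namespace Pool.Agent.helper55.NT

open Pool.Agent.helper38.Neg

/-- The number of ones of an input. -/
def wt {n : ℕ} (x : Fin n → Bool) : ℕ := (Finset.univ.filter fun i => x i = true).card

/-- The slice `A n` is computed by a circuit with at most `S n` gates, at most `r n` of them NOT
gates, for every `n`. -/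
def HasCircuits (S r : ℕ → ℕ) (A : Lang) : Prop :=
  ∀ n, ∃ s ≤ S n, ∃ (C : Circuit n s) (o : Fin (n + s)), C.Computes o (A n) ∧ C.notCount ≤ r n

/-- Polynomial size circuits with at most `r n` NOT gates. -/
def PolyNots (r : ℕ → ℕ) (A : Lang) : Prop :=
  ∃ p : Polynomial ℕ, HasCircuits (fun n => p.eval n) r A

/-- Polynomial size circuits, i.e. `A ∈ P/Poly`. -/
def InPPoly (A : Lang) : Prop :=
  ∃ p : Polynomial ℕ, ∀ n, ∃ s ≤ p.eval n, ∃ (C : Circuit n s) (o : Fin (n + s)),
    C.Computes o (A n)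

/-- `⌊log₂ (n + 2)⌋` -/
def lg (n : ℕ) : ℕ := Nat.log 2 (n + 2)

/-- Quasi-polynomial size circuits with at most `r n` NOT gates. -/
def QuasiNots (r : ℕ → ℕ) (A : Lang) : Prop :=
  ∃ k : ℕ, HasCircuits (fun n => 2 ^ (k * lg n ^ k)) r A

/-- Quasi-polynomial size circuits. -/
def InQuasi (A : Lang) : Prop :=
  ∃ k : ℕ, ∀ n, ∃ s ≤ 2 ^ (k * lg n ^ k), ∃ (C : Circuit n s) (o : Fin (n + s)),
    C.Computes o (A n)

end Pool.Agent.helper55.NT
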