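import Pool.Agent.helper55.NT.SL

/-!
The dual rail evaluation of a circuit: the NOT gates are replaced by given functions `q i` in
place of the negated inputs.
-/

set_option autoImplicit false

namespace Pool.Agent.helper55.NT

open Pool.Agent.helper38.Neg

/-- dual rail value of a gate -/
def gdual {w : ℕ} (v : Fin w → Bool × Bool) : Gate w → Bool × Bool
  | Gate.const b => (b, !b)
  | Gate.and i j => ((v i).1 && (v j).1, (v i).2 || (v j).2)
  | Gate.or i j => ((v i).1 || (v j).1, (v i).2 && (v j).2)
  | Gate.not i => ((v i).2, (v i).1)

/-- dual rail values of all wires, `p i` in place of the `i`-th input, `q i` in place of its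
negation -/
def dval {n : ℕ} : {s : ℕ} → Circuit n s → (Fin n → Bool) → (Fin n → Bool) →
    (Fin (n + s) → Bool × Bool)
  | _, Circuit.nil, p, q => fun i => (p i, q i)
  | _, Circuit.snoc C g, p, q =>
      Fin.snoc (α := fun _ => Bool × Bool) (dval C p q) (gdual (dval C p q) g)

lemma dval_le {n s : ℕ} (C : Circuit n s) (z p q : Fin n → Bool)
    (h : ∀ i, (z i = true → p i = true) ∧ (z i = false → q i = true)) (k : Fin (n + s)) :
    (C.val z k = true → (dval C p q k).1 = true) ∧
      (C.val z k = false → (dval C p q k).2 = true) := by
  induction C with
  | nil => exact h k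
  | @snoc s C g ih =>
    refine Fin.lastCases ?_ (fun k => ?_) k
    · simp only [Circuit.val, dval, Fin.snoc_last]
      cases g with
      | const b => simp [Gate.eval, gdual]
      | and i j =>
        have hi := ih i; have hj := ih j
        simp only [Gate.eval, gdual]
        revert hi hj
        generalize C.val z i = u
        generalize C.val z j = v
        generalize dval C p q i = a
        generalize dval C p q j = b
        obtain ⟨a1, a2⟩ := a
        obtain ⟨b1, b2⟩ := b
        revert u v a1 a2 b1 b2
        decide
      | or i j =>
        have hi := ih i; have hj := ih j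
        simp only [Gate.eval, gdual]
        revert hi hj
        generalize C.val z i = u
        generalize C.val z j = v
        generalize dval C p q i = a
        generalize dval C p q j = b
        obtain ⟨a1, a2⟩ := a
        obtain ⟨b1, b2⟩ := b
        revert u v a1 a2 b1 b2
        decide
      | not i =>
        have hi := ih i
        simp only [Gate.eval, gdual]
        revert hi
        cases C.val z i <;> simp
    · simp only [Circuit.val, dval, Fin.snoc_castSucc]
      exact ih k

lemma dval_ge {n s : ℕ} (C : Circuit n s) (z p q : Fin n → Bool)
    (h : ∀ i, (p i = true → z i = true) ∧ (q i = true → z i = false)) (k : Fin (n + s)) :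
    ((dval C p q k).1 = true → C.val z k = true) ∧
      ((dval C p q k).2 = true → C.val z k = false) := by
  induction C with
  | nil => exact h k
  | @snoc s C g ih =>
    refine Fin.lastCases ?_ (fun k => ?_) k
    · simp only [Circuit.val, dval, Fin.snoc_last]
      cases g with
      | const b => simp [Gate.eval, gdual]
      | and i j =>
        have hi := ih i; have hj := ih j
        simp only [Gate.eval, gdual]
        revert hi hj
        generalize C.val z i = u
        generalize C.val z j = v
        generalize dval C p q i = a
        generalize dval C p q j = b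
        obtain ⟨a1, a2⟩ := a
        obtain ⟨b1, b2⟩ := b
        revert u v a1 a2 b1 b2
        decide
      | or i j =>
        have hi := ih i; have hj := ih j
        simp only [Gate.eval, gdual]
        revert hi hj
        generalize C.val z i = u
        generalize C.val z j = v
        generalize dval C p q i = a
        generalize dval C p q j = b
        obtain ⟨a1, a2⟩ := a
        obtain ⟨b1, b2⟩ := b
        revert u v a1 a2 b1 b2
        decide
      | not i =>
        have hi := ih i
        simp only [Gate.eval, gdual]
        revert hi
        cases C.val z i <;> simp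
    · simp only [Circuit.val, dval, Fin.snoc_castSucc]
      exact ih k

/-- Both rails of all wires are computed with `2 s` gates, none of them a NOT gate. -/
lemma Rel.dual {n m s : ℕ} (C : Circuit n s) (P Q : Fin n → Fn m) :
    Rel (Set.range P ∪ Set.range Q) (2 * s) 0
      ((Set.range fun (k : Fin (n + s)) (x : Fin m → Bool) =>
          (dval C (fun i => P i x) (fun i => Q i x) k).1) ∪
        Set.range fun (k : Fin (n + s)) (x : Fin m → Bool) =>
          (dval C (fun i => P i x) (fun i => Q i x) k).2) := by
  induction C with
  | nil =>
    refine (Rel.sub subset_rfl).mono le_rfl ?_ (by simp) le_rfl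
    rintro g (⟨k, rfl⟩ | ⟨k, rfl⟩)
    · exact Or.inl ⟨k, rfl⟩
    · exact Or.inr ⟨k, rfl⟩
  | @snoc s C g ih =>
    set F : Set (Fn m) := Set.range P ∪ Set.range Q with hF
    set G : Set (Fn m) := (Set.range fun (k : Fin (n + s)) (x : Fin m → Bool) =>
          (dval C (fun i => P i x) (fun i => Q i x) k).1) ∪
        Set.range fun (k : Fin (n + s)) (x : Fin m → Bool) =>
          (dval C (fun i => P i x) (fun i => Q i x) k).2 with hG
    have h1 : ∀ k : Fin (n + s), (fun x => (dval C (fun i => P i x) (fun i => Q i x) k).1) ∈ F ∪ G :=
      fun k => Or.inr (Or.inl ⟨k, rfl⟩)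
    have h2 : ∀ k : Fin (n + s), (fun x => (dval C (fun i => P i x) (fun i => Q i x) k).2) ∈ F ∪ G :=
      fun k => Or.inr (Or.inr ⟨k, rfl⟩)
    have hstep : Rel (F ∪ G) 2 0
        ({fun x => (gdual (dval C (fun i => P i x) (fun i => Q i x)) g).1} ∪
          {fun x => (gdual (dval C (fun i => P i x) (fun i => Q i x)) g).2}) := by
      cases g with
      | const b => exact (Rel.const _ b).union (Rel.const _ (!b))
      | and i j => exact (Rel.and (h1 i) (h1 j)).union (Rel.or (h2 i) (h2 j))
      | or i j => exact (Rel.or (h1 i) (h1 j)).union (Rel.and (h2 i) (h2 j))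
      | not i =>
        refine (Rel.sub (F := F ∪ G) ?_).mono le_rfl subset_rfl (by simp) le_rfl
        rintro f (rfl | rfl)
        · exact h2 i
        · exact h1 i
    refine (ih.trans hstep).mono le_rfl ?_ (by omega) le_rfl
    rintro f (⟨k, rfl⟩ | ⟨k, rfl⟩)
    · refine Fin.lastCases ?_ (fun k => ?_) k
      · refine Or.inr (Or.inl ?_)
        rw [Set.mem_singleton_iff]
        funext x
        simp [dval]
      · refine Or.inl (Or.inl ⟨k, ?_⟩)
        funext x
        simp [dval]
    · refine Fin.lastCases ?_ (fun k => ?_) k
      · refine Or.inr (Or.inr ?_)
        rw [Set.mem_singleton_iff]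
        funext x
        simp [dval]
      · refine Or.inl (Or.inr ⟨k, ?_⟩)
        funext x
        simp [dval]

end Pool.Agent.helper55.NT
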