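import Pool.Agent.helper55.NT.Chain

/-!
# MP_c8d30a (G2): the chain theorem: from the exchanged state back to the state (helper55)
-/

set_option autoImplicit false

namespace NTok

universe u

variable {Om : Type u} {p : Om → Om}

/-- `u` is the static token of a link. -/
def Cand (p : Om → Om) (R Y W : List Om) (u : Om) : Prop :=
  p u ∈ Y ∨ p u ∈ R ∨ ∃ m, (m ∈ Y ∨ m ∈ R) ∧ ∃ W1 W2 W3 : List Om, W = W1 ++ p u :: (W2 ++ p m :: W3)

theorem ALL_len {b e c y : Om} {R Q Y T Z W G V : List Om} {N : ℕ}
    (h : (ALL p b e c y R Q Y T Z W G V).length ≤ N) :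
    8 + R.length + Q.length + Y.length + T.length + Z.length + W.length + G.length + V.length ≤ N := by
  simp only [ALL, List.length_cons, List.length_append] at h
  omega

theorem no_link [DecidableEq Om] (hp : ∀ x, p (p x) = x) {b e c y : Om} {R Q Y T Z W G V : List Om}
    (hnd : (ALL p b e c y R Q Y T Z W G V).Nodup)
    (hall : ∀ t ∈ ALL p b e c y R Q Y T Z W G V, p t ∈ ALL p b e c y R Q Y T Z W G V)
    (hI : Inv p y Q T Z W G V) (hE' : ∀ v, (v ∈ Y ∨ v ∈ R) → p v ∉ G ∧ p v ∉ V)
    (hnone : ∀ x ∈ T, ¬ Cand p R Y W x) : False := by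
  have hcnt := cnt1 hnd
  have hpos : ∀ {x : Om} {L : List Om}, x ∈ L → 0 < L.count x := fun h => List.count_pos_iff.mpr h
  have hnoY : ∀ t ∈ T, p t ∉ Y ∧ p t ∉ R := by
    intro t ht
    exact ⟨fun h => hnone t ht (Or.inl h), fun h => hnone t ht (Or.inr (Or.inl h))⟩
  have hclosed : ∀ Wa Wb : List Om, W = Wa ++ Wb → (∀ x ∈ Wb, p x ∉ Y ∧ p x ∉ R ∧ p x ∉ Q ∧ p x ∉ Z) →
      (∀ w ∈ Wa, p w ∉ T) →
      ∀ t ∈ T ++ (Wb ++ y :: (G ++ p y :: V)), p t ∈ T ++ (Wb ++ y :: (G ++ p y :: V)) := by
    intro Wa Wb hWab h1 h2 t ht
    simp only [List.mem_append, List.mem_cons] at ht ⊢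
    have hGV : (t ∈ G ∨ t ∈ V) →
        p t ∈ T ∨ p t ∈ Wb ∨ p t = y ∨ p t ∈ G ∨ p t = p y ∨ p t ∈ V := by
      intro hgv
      have h3 := ploc hp hnd hall t (by (first | grind | tauto))
      rcases h3 with h | h | h | h | h | h | h | h
      · exfalso
        have := hE' _ (Or.inr h)
        rw [hp] at this
        rcases hgv with h' | h'
        · exact this.1 h'
        · exact this.2 h'
      · exfalso
        have := hI.a (p t) (by simp [h])
        rw [hp] at this
        rcases hgv with h' | h'
        · exact this.2.1 h'
        · exact this.2.2 h'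
      · exfalso
        have := hE' _ (Or.inl h)
        rw [hp] at this
        rcases hgv with h' | h'
        · exact this.1 h'
        · exact this.2 h'
      · left; exact h
      · exfalso
        have := hI.a (p t) (by simp [h])
        rw [hp] at this
        rcases hgv with h' | h'
        · exact this.2.1 h'
        · exact this.2.2 h'
      · exfalso
        have := hI.c (p t) h
        rw [hp] at this
        rcases hgv with h' | h'
        · exact this.2.1 h'
        · exact this.2.2 h'
      · (first | grind | tauto)
      · (first | grind | tauto)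
    rcases ht with ht | ht | ht | ht | ht | ht
    · have h3 := ploc hp hnd hall t (by (first | grind | tauto))
      rcases h3 with h | h | h | h | h | h | h | h
      · exact absurd h (hnoY t ht).2
      · exfalso
        have := hI.a (p t) (by simp [h])
        rw [hp] at this
        exact this.1 ht
      · exact absurd h (hnoY t ht).1
      · left; exact h
      · exfalso
        have := hI.a (p t) (by simp [h])
        rw [hp] at this
        exact this.1 ht
      · rw [hWab] at h
        rcases List.mem_append.mp h with h | h
        · exfalso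
          have := h2 _ h
          rw [hp] at this
          exact this ht
        · right; left; exact h
      · (first | grind | tauto)
      · (first | grind | tauto)
    · have hW' : t ∈ W := by rw [hWab]; simp [ht]
      have h3 := ploc hp hnd hall t (by (first | grind | tauto))
      have h4 := h1 t ht
      have h5 := hI.c t hW'
      rcases h3 with h | h | h | h | h | h | h | h
      · exact absurd h h4.2.1
      · exact absurd h h4.2.2.1
      · exact absurd h h4.1
      · left; exact h
      · exact absurd h h4.2.2.2
      · exact absurd h h5.1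
      · exact absurd h h5.2.1
      · exact absurd h h5.2.2
    · right; right; right; right; left
      rw [ht]
    · exact hGV (Or.inl ht)
    · right; right; left
      rw [ht, hp]
    · exact hGV (Or.inr ht)
  rcases last_split (fun q => p q ∈ Y ∨ p q ∈ R ∨ p q ∈ Q ∨ p q ∈ Z) W with
    ⟨W0, q, W1, hW, hq, hl⟩ | hn0
  · apply hI.d [] T (W0 ++ [q]) W1 rfl (by rw [hW]; simp)
    apply hclosed (W0 ++ [q]) W1 (by rw [hW]; simp)
    · intro x hx
      have := hl x hx
      simp only [not_or] at this
      exact this
    · intro w hw
      rcases List.mem_append.mp hw with hw | hw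
      · -- before `q`
        have hcase : (p q ∈ Y ∨ p q ∈ R) ∨ (p q ∈ Q ++ Z) := by
          simp only [List.mem_append]
          (first | grind | tauto)
        rcases hcase with hcase | hcase
        · intro h
          obtain ⟨Wa, Wb, rfl⟩ := List.append_of_mem hw
          apply hnone _ h
          right; right
          refine ⟨p q, hcase, Wa, Wb, W1, ?_⟩
          rw [hp, hp, hW]
          simp
        · exact hI.b (p q) hcase W0 W1 (by rw [hp]; exact hW) w hw
      · -- `w = q`
        have hwq : w = q := by simpa using hw
        subst hwq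
        intro h
        have h1 := hpos h
        have h2 := hcnt (p w)
        rcases hq with h3 | h3 | h3 | h3
        · have := hpos h3
          omega
        · have := hpos h3
          omega
        · have := hpos h3
          omega
        · have := hpos h3
          omega
  · apply hI.d [] T [] W rfl rfl
    apply hclosed [] W rfl
    · intro x hx
      have := hn0 x hx
      simp only [not_or] at this
      exact this
    · intro w hw
      simp at hw

theorem chain [DecidableEq Om] (hp : ∀ x, p (p x) = x) (N : ℕ) : ∀ (n : ℕ) (b e c y : Om)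
    (R Q Y T Z W G V : List Om), T.length = n → (ALL p b e c y R Q Y T Z W G V).Nodup →
    (∀ t ∈ ALL p b e c y R Q Y T Z W G V, p t ∈ ALL p b e c y R Q Y T Z W G V) →
    (ALL p b e c y R Q Y T Z W G V).length ≤ N → Inv p y Q T Z W G V →
    Reach p ((14 * n + 18) * N) (EXs p b e c y R Q Y T Z W G V) (SFs p b e c y R Q Y T Z W G V) := by
  intro n
  induction n using Nat.strong_induction_on with
  | _ n ih =>
  intro b e c y R Q Y T Z W G V hn hnd hall hlen hI
  have hN := ALL_len hlen
  have hN1 : 1 ≤ N := by omega
  have hcnt := cnt1 hnd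
  have hcc := fun x hx => cnt0 hnd x hx
  -- two lists
  have hpos : ∀ {x : Om} {L : List Om}, x ∈ L → 0 < L.count x := fun h => List.count_pos_iff.mpr h
  have hc0 : p c ∉ R ∧ p c ∉ Q ∧ p c ∉ Y ∧ p c ∉ T ∧ p c ∉ Z ∧ p c ∉ W ∧ p c ∉ G ∧ p c ∉ V :=
    hcc (p c) (by simp [core])
  by_cases hE : ∃ v, (v ∈ Y ∨ v ∈ R) ∧ (p v ∈ G ∨ p v ∈ V)
  · -- the end letter
    have hle : 18 * N ≤ (14 * n + 18) * N := Nat.mul_le_mul_right N (by omega)
    obtain ⟨v, hv1, hv2⟩ := hE
    rcases hv1 with hv1 | hv1
    · obtain ⟨Y1, Y2, rfl⟩ := List.append_of_mem hv1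
      simp only [List.length_append, List.length_cons] at hN
      rcases hv2 with hv2 | hv2
      · obtain ⟨G1, G2, rfl⟩ := List.append_of_mem hv2
        simp only [List.length_append, List.length_cons] at hN
        refine (pat7 hp N hN1 b c e v y R Q Y1 Y2 T Z W G1 G2 V ?_).mono hle
        intro l hl
        simp only [List.mem_cons, List.not_mem_nil, or_false] at hl
        rcases hl with rfl | rfl | rfl | rfl | rfl | rfl | rfl | rfl | rfl | rfl <;> omega
      · obtain ⟨H, V2, rfl⟩ := List.append_of_mem hv2
        simp only [List.length_append, List.length_cons] at hN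
        refine (pat6 hp N hN1 b c e v y R Q Y1 Y2 T Z W G H V2 ?_).mono hle
        intro l hl
        simp only [List.mem_cons, List.not_mem_nil, or_false] at hl
        rcases hl with rfl | rfl | rfl | rfl | rfl | rfl | rfl | rfl | rfl | rfl <;> omega
    · obtain ⟨R1, R2, rfl⟩ := List.append_of_mem hv1
      simp only [List.length_append, List.length_cons] at hN
      rcases hv2 with hv2 | hv2
      · obtain ⟨G1, G2, rfl⟩ := List.append_of_mem hv2
        simp only [List.length_append, List.length_cons] at hN
        refine (pat9 hp N hN1 b c e v y R1 R2 Q Y T Z W G1 G2 V ?_).mono hle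
        intro l hl
        simp only [List.mem_cons, List.not_mem_nil, or_false] at hl
        rcases hl with rfl | rfl | rfl | rfl | rfl | rfl | rfl | rfl | rfl | rfl <;> omega
      · obtain ⟨H, V2, rfl⟩ := List.append_of_mem hv2
        simp only [List.length_append, List.length_cons] at hN
        refine (pat8 hp N hN1 b c e v y R1 R2 Q Y T Z W G H V2 ?_).mono hle
        intro l hl
        simp only [List.mem_cons, List.not_mem_nil, or_false] at hl
        rcases hl with rfl | rfl | rfl | rfl | rfl | rfl | rfl | rfl | rfl | rfl <;> omega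
  · have hE' : ∀ v, (v ∈ Y ∨ v ∈ R) → p v ∉ G ∧ p v ∉ V := by
      intro v hv
      constructor
      · intro h
        exact hE ⟨v, hv, Or.inl h⟩
      · intro h
        exact hE ⟨v, hv, Or.inr h⟩
    clear hE
    rcases last_split (Cand p R Y W) T with ⟨T0, t, T2, hT, hC, hlast⟩ | hnone
    · -- a link exists
      have hT2 : T2.length < n := by
        rw [← hn, hT]
        simp
        omega
      have hfin : ∀ {s1 s2 s3 s4 : St Om}, Reach p (12 * N) s1 s2 →
          Reach p ((14 * T2.length + 18) * N) s2 s3 → Reach p (2 * N) s3 s4 →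
          Reach p ((14 * n + 18) * N) s1 s4 := by
        intro s1 s2 s3 s4 h1 h2 h3
        refine ((h1.trans h2).trans h3).mono ?_
        have : 12 * N + (14 * T2.length + 18) * N + 2 * N = (14 * (T2.length + 1) + 18) * N := by ring
        rw [this]
        exact Nat.mul_le_mul_right N (by omega)
      obtain ⟨z, rfl⟩ : ∃ z, t = p z := ⟨p t, (hp t).symm⟩
      have hsubT : ∀ x, x ∈ T2 → x ∈ T := by
        intro x hx
        rw [hT]
        simp [hx]
      have hcT2 : p c ∉ T2 := fun h => hc0.2.2.2.1 (hsubT _ h)
      have hX : ∀ x, (x ∈ Y ∨ x ∈ R) → (p x ∉ T2 ∧ p x ∉ G ∧ p x ∉ V) ∧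
          ∀ W1 W2 : List Om, W = W1 ++ p x :: W2 → ∀ w ∈ W1, p w ∉ T2 := by
        intro x hx
        refine ⟨⟨?_, (hE' x hx).1, (hE' x hx).2⟩, ?_⟩
        · intro h
          apply hlast _ h
          rcases hx with hx | hx
          · left; rw [hp]; exact hx
          · right; left; rw [hp]; exact hx
        · intro W1 W2 hW w hw h
          apply hlast _ h
          right; right
          obtain ⟨Wa, Wb, rfl⟩ := List.append_of_mem hw
          refine ⟨x, hx, Wa, Wb, W2, ?_⟩
          rw [hp, hW]
          simp
      rcases hC with hC | hC | ⟨m, hm, W1, W2, W3, hW⟩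
      · -- red link in `Y`
        rw [hp] at hC
        obtain ⟨Y1, Y2, rfl⟩ := List.append_of_mem hC
        subst hT
        have hperm := perm2 (p := p) b e c y z R Q Y1 Y2 T0 T2 Z W G V
        have hI' : Inv p y Q T2 (Y2 ++ c :: Z) W G V := by
          refine hI.same (T0 := T0 ++ [p z]) (by simp) (fun x hx => hX x (Or.inl (by simp [hx]))) ?_
          exact ⟨hcT2, hc0.2.2.2.2.2.2.1, hc0.2.2.2.2.2.2.2, hc0.2.2.2.2.2.1⟩
        have h2 := ih T2.length hT2 b e z y (R ++ p c :: T0) Q Y1 T2 (Y2 ++ c :: Z) W G V rfl
          (hperm.nodup_iff.mpr hnd)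
          (fun t ht => hperm.mem_iff.mpr (hall t (hperm.mem_iff.mp ht)))
          (by rw [hperm.length_eq]; exact hlen) hI'
        simp only [List.length_append, List.length_cons] at hN
        have hl : ∀ l ∈ [Y1, Y2, T0, T2, V, G, Q, R, W, Z], l.length ≤ N := by
          intro l hl
          simp only [List.mem_cons, List.not_mem_nil, or_false] at hl
          rcases hl with rfl | rfl | rfl | rfl | rfl | rfl | rfl | rfl | rfl | rfl <;> omega
        exact hfin (pat2 hp N hN1 b c e y z R Q Y1 Y2 T0 T2 Z W G V hl) h2
          (ret2 hp N hN1 b c e y z R Q Y1 Y2 T0 T2 Z W G V hl)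
      · -- red link in `R`
        rw [hp] at hC
        obtain ⟨R1, R2, rfl⟩ := List.append_of_mem hC
        subst hT
        have hperm := perm3 (p := p) b e c y z R1 R2 Q Y T0 T2 Z W G V
        have hI' : Inv p y Q T2 (R2 ++ c :: Z) W G V := by
          refine hI.same (T0 := T0 ++ [p z]) (by simp) (fun x hx => hX x (Or.inr (by simp [hx]))) ?_
          exact ⟨hcT2, hc0.2.2.2.2.2.2.1, hc0.2.2.2.2.2.2.2, hc0.2.2.2.2.2.1⟩
        have h2 := ih T2.length hT2 b e z y R1 Q (Y ++ p c :: T0) T2 (R2 ++ c :: Z) W G V rfl
          (hperm.nodup_iff.mpr hnd)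
          (fun t ht => hperm.mem_iff.mpr (hall t (hperm.mem_iff.mp ht)))
          (by rw [hperm.length_eq]; exact hlen) hI'
        simp only [List.length_append, List.length_cons] at hN
        have hl : ∀ l ∈ [Y, T0, T2, V, G, Q, R1, R2, W, Z], l.length ≤ N := by
          intro l hl
          simp only [List.mem_cons, List.not_mem_nil, or_false] at hl
          rcases hl with rfl | rfl | rfl | rfl | rfl | rfl | rfl | rfl | rfl | rfl <;> omega
        exact hfin (pat3 hp N hN1 b c e y z R1 R2 Q Y T0 T2 Z W G V hl) h2
          (ret3 hp N hN1 b c e y z R1 R2 Q Y T0 T2 Z W G V hl)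
      · -- mixed link
        rw [hp] at hW
        have hX2 : ∀ x ∈ W2, p x ∉ T2 := by
          intro x hx h
          apply hlast _ h
          right; right
          obtain ⟨Wa, Wb, rfl⟩ := List.append_of_mem hx
          refine ⟨m, hm, W1 ++ z :: Wa, Wb, W3, ?_⟩
          rw [hp, hW]
          simp
        have hmc : 0 < Y.count m ∨ 0 < R.count m := by
          rcases hm with h | h
          · left; exact hpos h
          · right; exact hpos h
        have hcm := hcnt m
        have hm1 : m ∉ Q ++ Z := by
          intro h
          rcases List.mem_append.mp h with h | h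
          · have := hpos h
            omega
          · have := hpos h
            omega
        have hmy : m ≠ y ∧ m ≠ p y := by
          constructor
          · rintro rfl
            have := hcc m (by simp [core])
            rcases hm with h | h
            · exact this.2.2.1 h
            · exact this.1 h
          · intro h0
            have := hcc m (by rw [h0]; simp [core])
            rcases hm with h | h
            · exact this.2.2.1 h
            · exact this.1 h
        have hm2 : m ∉ T ++ (W ++ y :: (G ++ p y :: V)) := by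
          intro h
          simp only [List.mem_append, List.mem_cons] at h
          rcases h with h | h | h | h | h | h
          · have := hpos h
            omega
          · have := hpos h
            omega
          · exact hmy.1 h
          · have := hpos h
            omega
          · exact hmy.2 h
          · have := hpos h
            omega
        have hI' : Inv p y Q T2 (W2 ++ c :: Z) (W1 ++ p m :: W3) G V := by
          refine hI.link (T0 := T0 ++ [p z]) (w := z) (by rw [hT]; simp) hW hX2 hp hm1 hm2 ?_
          exact ⟨hcT2, hc0.2.2.2.2.2.2.1, hc0.2.2.2.2.2.2.2, hc0.2.2.2.2.2.1⟩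
        subst hT
        subst hW
        rcases hm with hm | hm
        · obtain ⟨Y1, Y2, rfl⟩ := List.append_of_mem hm
          have hperm := perm4 (p := p) b e c m z y R Q Y1 Y2 T0 T2 Z W1 W2 W3 G V
          have h2 := ih T2.length hT2 b e z y R Q (Y1 ++ p c :: (T0 ++ m :: Y2)) T2 (W2 ++ c :: Z)
            (W1 ++ p m :: W3) G V rfl
            (hperm.nodup_iff.mpr hnd)
            (fun t ht => hperm.mem_iff.mpr (hall t (hperm.mem_iff.mp ht)))
            (by rw [hperm.length_eq]; exact hlen) hI'
          simp only [List.length_append, List.length_cons] at hN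
          have hl : ∀ l ∈ [V, G, Q, R, T0, T2, W1, W2, W3, Y2, Y1, Z], l.length ≤ N := by
            intro l hl
            simp only [List.mem_cons, List.not_mem_nil, or_false] at hl
            rcases hl with rfl | rfl | rfl | rfl | rfl | rfl | rfl | rfl | rfl | rfl | rfl | rfl <;> omega
          exact hfin (pat4 hp N hN1 b c e m z y R Q Y1 Y2 T0 T2 Z W1 W2 W3 G V hl) h2
            (ret4 hp N hN1 b c e m z y R Q Y1 Y2 T0 T2 Z W1 W2 W3 G V hl)
        · obtain ⟨R1, R2, rfl⟩ := List.append_of_mem hm
          have hperm := perm5 (p := p) b e c m z y R1 R2 Q Y T0 T2 Z W1 W2 W3 G V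
          have h2 := ih T2.length hT2 b e z y (R1 ++ p c :: (T0 ++ m :: R2)) Q Y T2 (W2 ++ c :: Z)
            (W1 ++ p m :: W3) G V rfl
            (hperm.nodup_iff.mpr hnd)
            (fun t ht => hperm.mem_iff.mpr (hall t (hperm.mem_iff.mp ht)))
            (by rw [hperm.length_eq]; exact hlen) hI'
          simp only [List.length_append, List.length_cons] at hN
          have hl : ∀ l ∈ [T0, T2, V, G, Q, R1, R2, W1, W2, W3, Y, Z], l.length ≤ N := by
            intro l hl
            simp only [List.mem_cons, List.not_mem_nil, or_false] at hl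
            rcases hl with rfl | rfl | rfl | rfl | rfl | rfl | rfl | rfl | rfl | rfl | rfl | rfl <;> omega
          exact hfin (pat5 hp N hN1 b c e m z y R1 R2 Q Y T0 T2 Z W1 W2 W3 G V hl) h2
            (ret5 hp N hN1 b c e m z y R1 R2 Q Y T0 T2 Z W1 W2 W3 G V hl)
    · -- no link: a closed suffix pair
      exact (no_link hp hnd hall hI hE' hnone).elim

end NTok
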