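import Pool.Agent.helper55.NT.Tok

/-!
# MP_c8d30a (G2): the nine symbolic paths of (A_h+) (helper55)

Generated by a program; every path is verified by evaluation of `NTok.run`. Names: `SFs` = the states of the chain, `EXs` = the states after the block exchange.
-/

set_option autoImplicit false

namespace NTok

universe u

variable {Om : Type u} {p : Om → Om}

/-- state of the chain. -/
def SFs (p : Om → Om) (b e c y : Om) (R Q Y T Z W G V : List Om) : St Om :=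
  (p b :: (R ++ b :: (Q ++ p e :: (Y ++ p c :: T))), c :: (Z ++ e :: (W ++ y :: (G ++ p y :: V))))

/-- the state after the exchange. -/
def EXs (p : Om → Om) (b e c y : Om) (R Q Y T Z W G V : List Om) : St Om :=
  (y :: (G ++ e :: (W ++ p e :: (Y ++ p c :: T))), c :: (Z ++ b :: (Q ++ p b :: (R ++ p y :: V))))

/-- tokens from a list. -/
def tks (p : Om → Om) (d : Om) (l : List Om) (i : ℕ) (c : Bool) : Om := if c then p (l.getD i d) else l.getD i d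

theorem tks_par (hp : ∀ x, p (p x) = x) (d : Om) (l : List Om) (i : ℕ) (c : Bool) :
    p (tks p d l i c) = tks p d l i (!c) := by
  cases c <;> simp [tks, hp]

theorem blk_len (m : ℕ) (l : List (List Om)) (h : ∀ x ∈ l, x.length ≤ m) (j : ℕ) : (l.getD j []).length ≤ m := by
  induction l generalizing j with
  | nil => simp
  | cons a l ih =>
    cases j with
    | zero => simpa using h a (by simp)
    | succ j => simpa using ih (fun x hx => h x (by simp [hx])) j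


/-- raw form of pattern P1: aPbQb`Re`Ya`T|eWyGy`F -> yGeWe`Ya`T|aPbQb`Ry`F. -/
theorem rawP1 (hp : ∀ x, p (p x) = x) (N : ℕ) (hN : 1 ≤ N) (a b e y : Om) (F G P Q R T W Y : List Om)
    (hl : ∀ l ∈ [F, G, P, Q, R, T, W, Y], l.length ≤ N) :
    Reach p (10 * N) (a :: (P ++ (b :: (Q ++ (p b :: (R ++ (p e :: (Y ++ (p a :: (T))))))))),
      e :: (W ++ (y :: (G ++ (p y :: (F))))))
      (y :: (G ++ (e :: (W ++ (p e :: (Y ++ (p a :: (T))))))),
      a :: (P ++ (b :: (Q ++ (p b :: (R ++ (p y :: (F)))))))) :=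
  run_sound (tks p a [a, b, e, y]) (fun j => [F, G, P, Q, R, T, W, Y].getD j [])
    (tks_par hp _ _) N hN (blk_len N _ hl)
    [true, true, false, false, false, false, false, false, true, true, false, false]
    ([.tk 0 false, .bk 2, .tk 1 false, .bk 3, .tk 1 true, .bk 4, .tk 2 true, .bk 7, .tk 0 true, .bk 5],
      [.tk 2 false, .bk 6, .tk 3 false, .bk 1, .tk 3 true, .bk 0])
    ([.tk 3 false, .bk 1, .tk 2 false, .bk 6, .tk 2 true, .bk 7, .tk 0 true, .bk 5],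
      [.tk 0 false, .bk 2, .tk 1 false, .bk 3, .tk 1 true, .bk 4, .tk 3 true, .bk 0]) 10 rfl

/-- raw form of pattern P2: yGeWe`AzBc`Cz`D|cZbQb`Ry`F -> yGeWe`Az`D|zBcZbQb`Rc`Cy`F. -/
theorem rawP2 (hp : ∀ x, p (p x) = x) (N : ℕ) (hN : 1 ≤ N) (b c e y z : Om) (A B C D F G Q R W Z : List Om)
    (hl : ∀ l ∈ [A, B, C, D, F, G, Q, R, W, Z], l.length ≤ N) :
    Reach p (12 * N) (y :: (G ++ (e :: (W ++ (p e :: (A ++ (z :: (B ++ (p c :: (C ++ (p z :: (D))))))))))),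
      c :: (Z ++ (b :: (Q ++ (p b :: (R ++ (p y :: (F))))))))
      (y :: (G ++ (e :: (W ++ (p e :: (A ++ (p z :: (D))))))),
      z :: (B ++ (c :: (Z ++ (b :: (Q ++ (p b :: (R ++ (p c :: (C ++ (p y :: (F)))))))))))) :=
  run_sound (tks p b [b, c, e, y, z]) (fun j => [A, B, C, D, F, G, Q, R, W, Z].getD j [])
    (tks_par hp _ _) N hN (blk_len N _ hl)
    [false, false, false, false, false, false, true, true, false, false, true, true, false, false, false, false, false, false, true, true, false, false, false, false, false, false, true, true, true, true]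
    ([.tk 3 false, .bk 5, .tk 2 false, .bk 8, .tk 2 true, .bk 0, .tk 4 false, .bk 1, .tk 1 true, .bk 2, .tk 4 true, .bk 3],
      [.tk 1 false, .bk 9, .tk 0 false, .bk 6, .tk 0 true, .bk 7, .tk 3 true, .bk 4])
    ([.tk 3 false, .bk 5, .tk 2 false, .bk 8, .tk 2 true, .bk 0, .tk 4 true, .bk 3],
      [.tk 4 false, .bk 1, .tk 1 false, .bk 9, .tk 0 false, .bk 6, .tk 0 true, .bk 7, .tk 1 true, .bk 2, .tk 3 true, .bk 4]) 12 rfl

/-- raw form of pattern P3: yGeWe`Ac`Cz`D|cZbQb`RzSy`F -> yGeWe`Ac`Cz`D|zScZbQb`Ry`F. -/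
theorem rawP3 (hp : ∀ x, p (p x) = x) (N : ℕ) (hN : 1 ≤ N) (b c e y z : Om) (A C D F G Q R S W Z : List Om)
    (hl : ∀ l ∈ [A, C, D, F, G, Q, R, S, W, Z], l.length ≤ N) :
    Reach p (8 * N) (y :: (G ++ (e :: (W ++ (p e :: (A ++ (p c :: (C ++ (p z :: (D))))))))),
      c :: (Z ++ (b :: (Q ++ (p b :: (R ++ (z :: (S ++ (p y :: (F))))))))))
      (y :: (G ++ (e :: (W ++ (p e :: (A ++ (p c :: (C ++ (p z :: (D))))))))),
      z :: (S ++ (c :: (Z ++ (b :: (Q ++ (p b :: (R ++ (p y :: (F)))))))))) :=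
  run_sound (tks p b [b, c, e, y, z]) (fun j => [A, C, D, F, G, Q, R, S, W, Z].getD j [])
    (tks_par hp _ _) N hN (blk_len N _ hl)
    [true, true, true, true, false, false, true, true, false, false, true, true, true, true, false, false, true, true, false, false, false, false]
    ([.tk 3 false, .bk 4, .tk 2 false, .bk 8, .tk 2 true, .bk 0, .tk 1 true, .bk 1, .tk 4 true, .bk 2],
      [.tk 1 false, .bk 9, .tk 0 false, .bk 5, .tk 0 true, .bk 6, .tk 4 false, .bk 7, .tk 3 true, .bk 3])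
    ([.tk 3 false, .bk 4, .tk 2 false, .bk 8, .tk 2 true, .bk 0, .tk 1 true, .bk 1, .tk 4 true, .bk 2],
      [.tk 4 false, .bk 7, .tk 1 false, .bk 9, .tk 0 false, .bk 5, .tk 0 true, .bk 6, .tk 3 true, .bk 3]) 8 rfl

/-- raw form of pattern P4: yGeUwVm`We`YmXc`Sw`T|cZbQb`Ry`F -> yGeUm`We`Yc`SmXw`T|wVcZbQb`Ry`F. -/
theorem rawP4 (hp : ∀ x, p (p x) = x) (N : ℕ) (hN : 1 ≤ N) (b c e m w y : Om) (F G Q R S T U V W X Y Z : List Om)
    (hl : ∀ l ∈ [F, G, Q, R, S, T, U, V, W, X, Y, Z], l.length ≤ N) :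
    Reach p (10 * N) (y :: (G ++ (e :: (U ++ (w :: (V ++ (p m :: (W ++ (p e :: (Y ++ (m :: (X ++ (p c :: (S ++ (p w :: (T))))))))))))))),
      c :: (Z ++ (b :: (Q ++ (p b :: (R ++ (p y :: (F))))))))
      (y :: (G ++ (e :: (U ++ (p m :: (W ++ (p e :: (Y ++ (p c :: (S ++ (m :: (X ++ (p w :: (T))))))))))))),
      w :: (V ++ (c :: (Z ++ (b :: (Q ++ (p b :: (R ++ (p y :: (F)))))))))) :=
  run_sound (tks p b [b, c, e, m, w, y]) (fun j => [F, G, Q, R, S, T, U, V, W, X, Y, Z].getD j [])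
    (tks_par hp _ _) N hN (blk_len N _ hl)
    [false, false, false, false, false, false, false, false, false, false, true, true, false, false, true, true, false, false, false, false, true, true, false, false, false, false, true, true]
    ([.tk 5 false, .bk 1, .tk 2 false, .bk 6, .tk 4 false, .bk 7, .tk 3 true, .bk 8, .tk 2 true, .bk 10, .tk 3 false, .bk 9, .tk 1 true, .bk 4, .tk 4 true, .bk 5],
      [.tk 1 false, .bk 11, .tk 0 false, .bk 2, .tk 0 true, .bk 3, .tk 5 true, .bk 0])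
    ([.tk 5 false, .bk 1, .tk 2 false, .bk 6, .tk 3 true, .bk 8, .tk 2 true, .bk 10, .tk 1 true, .bk 4, .tk 3 false, .bk 9, .tk 4 true, .bk 5],
      [.tk 4 false, .bk 7, .tk 1 false, .bk 11, .tk 0 false, .bk 2, .tk 0 true, .bk 3, .tk 5 true, .bk 0]) 10 rfl

/-- raw form of pattern P5: yGeUwVm`We`Yc`Cw`D|cZbQb`RmSy`F -> yGeUm`We`Yw`D|wVcZbQb`Rc`CmSy`F. -/
theorem rawP5 (hp : ∀ x, p (p x) = x) (N : ℕ) (hN : 1 ≤ N) (b c e m w y : Om) (C D F G Q R S U V W Y Z : List Om)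
    (hl : ∀ l ∈ [C, D, F, G, Q, R, S, U, V, W, Y, Z], l.length ≤ N) :
    Reach p (12 * N) (y :: (G ++ (e :: (U ++ (w :: (V ++ (p m :: (W ++ (p e :: (Y ++ (p c :: (C ++ (p w :: (D))))))))))))),
      c :: (Z ++ (b :: (Q ++ (p b :: (R ++ (m :: (S ++ (p y :: (F))))))))))
      (y :: (G ++ (e :: (U ++ (p m :: (W ++ (p e :: (Y ++ (p w :: (D))))))))),
      w :: (V ++ (c :: (Z ++ (b :: (Q ++ (p b :: (R ++ (p c :: (C ++ (m :: (S ++ (p y :: (F)))))))))))))) :=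
  run_sound (tks p b [b, c, e, m, w, y]) (fun j => [C, D, F, G, Q, R, S, U, V, W, Y, Z].getD j [])
    (tks_par hp _ _) N hN (blk_len N _ hl)
    [false, false, false, false, true, true, false, false, true, true, false, false, false, false, false, false, false, false, true, true, false, false, false, false, false, false, true, true, true, true, false, false, false, false]
    ([.tk 5 false, .bk 3, .tk 2 false, .bk 7, .tk 4 false, .bk 8, .tk 3 true, .bk 9, .tk 2 true, .bk 10, .tk 1 true, .bk 0, .tk 4 true, .bk 1],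
      [.tk 1 false, .bk 11, .tk 0 false, .bk 4, .tk 0 true, .bk 5, .tk 3 false, .bk 6, .tk 5 true, .bk 2])
    ([.tk 5 false, .bk 3, .tk 2 false, .bk 7, .tk 3 true, .bk 9, .tk 2 true, .bk 10, .tk 4 true, .bk 1],
      [.tk 4 false, .bk 8, .tk 1 false, .bk 11, .tk 0 false, .bk 4, .tk 0 true, .bk 5, .tk 1 true, .bk 0, .tk 3 false, .bk 6, .tk 5 true, .bk 2]) 12 rfl

/-- raw form of pattern P6: yGeWe`YvXc`T|cZbQb`Ry`Hv`F -> b`RbQe`YvXc`T|cZeWyGy`Hv`F. -/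
theorem rawP6 (hp : ∀ x, p (p x) = x) (N : ℕ) (hN : 1 ≤ N) (b c e v y : Om) (F G H Q R T W X Y Z : List Om)
    (hl : ∀ l ∈ [F, G, H, Q, R, T, W, X, Y, Z], l.length ≤ N) :
    Reach p (8 * N) (y :: (G ++ (e :: (W ++ (p e :: (Y ++ (v :: (X ++ (p c :: (T))))))))),
      c :: (Z ++ (b :: (Q ++ (p b :: (R ++ (p y :: (H ++ (p v :: (F))))))))))
      (p b :: (R ++ (b :: (Q ++ (p e :: (Y ++ (v :: (X ++ (p c :: (T))))))))),
      c :: (Z ++ (e :: (W ++ (y :: (G ++ (p y :: (H ++ (p v :: (F)))))))))) :=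
  run_sound (tks p b [b, c, e, v, y]) (fun j => [F, G, H, Q, R, T, W, X, Y, Z].getD j [])
    (tks_par hp _ _) N hN (blk_len N _ hl)
    [true, true, true, true, false, false, true, true, false, false, false, false, false, false, true, true, true, true, false, false, true, true, false, false, true, true, false, false]
    ([.tk 4 false, .bk 1, .tk 2 false, .bk 6, .tk 2 true, .bk 8, .tk 3 false, .bk 7, .tk 1 true, .bk 5],
      [.tk 1 false, .bk 9, .tk 0 false, .bk 3, .tk 0 true, .bk 4, .tk 4 true, .bk 2, .tk 3 true, .bk 0])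
    ([.tk 0 true, .bk 4, .tk 0 false, .bk 3, .tk 2 true, .bk 8, .tk 3 false, .bk 7, .tk 1 true, .bk 5],
      [.tk 1 false, .bk 9, .tk 2 false, .bk 6, .tk 4 false, .bk 1, .tk 4 true, .bk 2, .tk 3 true, .bk 0]) 8 rfl

/-- raw form of pattern P7: yGv`HeWe`YvXc`T|cZbQb`Ry`F -> b`RbQe`YvXc`T|cZeWyGv`Hy`F. -/
theorem rawP7 (hp : ∀ x, p (p x) = x) (N : ℕ) (hN : 1 ≤ N) (b c e v y : Om) (F G H Q R T W X Y Z : List Om)
    (hl : ∀ l ∈ [F, G, H, Q, R, T, W, X, Y, Z], l.length ≤ N) :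
    Reach p (18 * N) (y :: (G ++ (p v :: (H ++ (e :: (W ++ (p e :: (Y ++ (v :: (X ++ (p c :: (T))))))))))),
      c :: (Z ++ (b :: (Q ++ (p b :: (R ++ (p y :: (F))))))))
      (p b :: (R ++ (b :: (Q ++ (p e :: (Y ++ (v :: (X ++ (p c :: (T))))))))),
      c :: (Z ++ (e :: (W ++ (y :: (G ++ (p v :: (H ++ (p y :: (F)))))))))) :=
  run_sound (tks p b [b, c, e, v, y]) (fun j => [F, G, H, Q, R, T, W, X, Y, Z].getD j [])
    (tks_par hp _ _) N hN (blk_len N _ hl)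
    [true, true, true, true, false, false, false, false, true, true, false, false, false, false, false, false, true, true, false, false, true, true, false, false, false, false, true, true, true, true, false, false, false, false, true, true, false, false, false, false, true, true, false, false, false, false, false, false]
    ([.tk 4 false, .bk 1, .tk 3 true, .bk 2, .tk 2 false, .bk 6, .tk 2 true, .bk 8, .tk 3 false, .bk 7, .tk 1 true, .bk 5],
      [.tk 1 false, .bk 9, .tk 0 false, .bk 3, .tk 0 true, .bk 4, .tk 4 true, .bk 0])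
    ([.tk 0 true, .bk 4, .tk 0 false, .bk 3, .tk 2 true, .bk 8, .tk 3 false, .bk 7, .tk 1 true, .bk 5],
      [.tk 1 false, .bk 9, .tk 2 false, .bk 6, .tk 4 false, .bk 1, .tk 3 true, .bk 2, .tk 4 true, .bk 0]) 18 rfl

/-- raw form of pattern P8: yGeWe`Yc`T|cZbQb`RvSy`Hv`F -> b`RvSbQe`Yc`T|cZeWyGy`Hv`F. -/
theorem rawP8 (hp : ∀ x, p (p x) = x) (N : ℕ) (hN : 1 ≤ N) (b c e v y : Om) (F G H Q R S T W Y Z : List Om)
    (hl : ∀ l ∈ [F, G, H, Q, R, S, T, W, Y, Z], l.length ≤ N) :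
    Reach p (10 * N) (y :: (G ++ (e :: (W ++ (p e :: (Y ++ (p c :: (T))))))),
      c :: (Z ++ (b :: (Q ++ (p b :: (R ++ (v :: (S ++ (p y :: (H ++ (p v :: (F))))))))))))
      (p b :: (R ++ (v :: (S ++ (b :: (Q ++ (p e :: (Y ++ (p c :: (T))))))))),
      c :: (Z ++ (e :: (W ++ (y :: (G ++ (p y :: (H ++ (p v :: (F)))))))))) :=
  run_sound (tks p b [b, c, e, v, y]) (fun j => [F, G, H, Q, R, S, T, W, Y, Z].getD j [])
    (tks_par hp _ _) N hN (blk_len N _ hl)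
    [true, true, true, true, false, false, true, true, true, true, false, false, false, false, true, true, true, true, false, false, false, false, true, true, false, false, true, true, false, false, false, false, false, false]
    ([.tk 4 false, .bk 1, .tk 2 false, .bk 7, .tk 2 true, .bk 8, .tk 1 true, .bk 6],
      [.tk 1 false, .bk 9, .tk 0 false, .bk 3, .tk 0 true, .bk 4, .tk 3 false, .bk 5, .tk 4 true, .bk 2, .tk 3 true, .bk 0])
    ([.tk 0 true, .bk 4, .tk 3 false, .bk 5, .tk 0 false, .bk 3, .tk 2 true, .bk 8, .tk 1 true, .bk 6],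
      [.tk 1 false, .bk 9, .tk 2 false, .bk 7, .tk 4 false, .bk 1, .tk 4 true, .bk 2, .tk 3 true, .bk 0]) 10 rfl

/-- raw form of pattern P9: yGv`HeWe`Yc`T|cZbQb`RvSy`F -> b`RvSbQe`Yc`T|cZeWyGv`Hy`F. -/
theorem rawP9 (hp : ∀ x, p (p x) = x) (N : ℕ) (hN : 1 ≤ N) (b c e v y : Om) (F G H Q R S T W Y Z : List Om)
    (hl : ∀ l ∈ [F, G, H, Q, R, S, T, W, Y, Z], l.length ≤ N) :
    Reach p (12 * N) (y :: (G ++ (p v :: (H ++ (e :: (W ++ (p e :: (Y ++ (p c :: (T))))))))),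
      c :: (Z ++ (b :: (Q ++ (p b :: (R ++ (v :: (S ++ (p y :: (F))))))))))
      (p b :: (R ++ (v :: (S ++ (b :: (Q ++ (p e :: (Y ++ (p c :: (T))))))))),
      c :: (Z ++ (e :: (W ++ (y :: (G ++ (p v :: (H ++ (p y :: (F)))))))))) :=
  run_sound (tks p b [b, c, e, v, y]) (fun j => [F, G, H, Q, R, S, T, W, Y, Z].getD j [])
    (tks_par hp _ _) N hN (blk_len N _ hl)
    [false, false, true, true, true, true, false, false, true, true, false, false, false, false, false, false, true, true, true, true, false, false, true, true, false, false, false, false, true, true]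
    ([.tk 4 false, .bk 1, .tk 3 true, .bk 2, .tk 2 false, .bk 7, .tk 2 true, .bk 8, .tk 1 true, .bk 6],
      [.tk 1 false, .bk 9, .tk 0 false, .bk 3, .tk 0 true, .bk 4, .tk 3 false, .bk 5, .tk 4 true, .bk 0])
    ([.tk 0 true, .bk 4, .tk 3 false, .bk 5, .tk 0 false, .bk 3, .tk 2 true, .bk 8, .tk 1 true, .bk 6],
      [.tk 1 false, .bk 9, .tk 2 false, .bk 7, .tk 4 false, .bk 1, .tk 3 true, .bk 2, .tk 4 true, .bk 0]) 12 rfl

/-- raw form of pattern Q1: b`RbQe`Ya`T|aPeWyGy`F -> aPbQb`Re`Ya`T|eWyGy`F. -/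
theorem rawQ1 (hp : ∀ x, p (p x) = x) (N : ℕ) (hN : 1 ≤ N) (a b e y : Om) (F G P Q R T W Y : List Om)
    (hl : ∀ l ∈ [F, G, P, Q, R, T, W, Y], l.length ≤ N) :
    Reach p (2 * N) (p b :: (R ++ (b :: (Q ++ (p e :: (Y ++ (p a :: (T))))))),
      a :: (P ++ (e :: (W ++ (y :: (G ++ (p y :: (F))))))))
      (a :: (P ++ (b :: (Q ++ (p b :: (R ++ (p e :: (Y ++ (p a :: (T))))))))),
      e :: (W ++ (y :: (G ++ (p y :: (F)))))) :=
  run_sound (tks p a [a, b, e, y]) (fun j => [F, G, P, Q, R, T, W, Y].getD j [])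
    (tks_par hp _ _) N hN (blk_len N _ hl)
    [true, true, false, false]
    ([.tk 1 true, .bk 4, .tk 1 false, .bk 3, .tk 2 true, .bk 7, .tk 0 true, .bk 5],
      [.tk 0 false, .bk 2, .tk 2 false, .bk 6, .tk 3 false, .bk 1, .tk 3 true, .bk 0])
    ([.tk 0 false, .bk 2, .tk 1 false, .bk 3, .tk 1 true, .bk 4, .tk 2 true, .bk 7, .tk 0 true, .bk 5],
      [.tk 2 false, .bk 6, .tk 3 false, .bk 1, .tk 3 true, .bk 0]) 2 rfl

/-- raw form of pattern Q2: b`Rc`CbQe`Az`D|zBcZeWyGy`F -> b`RbQe`AzBc`Cz`D|cZeWyGy`F. -/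
theorem rawQ2 (hp : ∀ x, p (p x) = x) (N : ℕ) (hN : 1 ≤ N) (b c e y z : Om) (A B C D F G Q R W Z : List Om)
    (hl : ∀ l ∈ [A, B, C, D, F, G, Q, R, W, Z], l.length ≤ N) :
    Reach p (2 * N) (p b :: (R ++ (p c :: (C ++ (b :: (Q ++ (p e :: (A ++ (p z :: (D))))))))),
      z :: (B ++ (c :: (Z ++ (e :: (W ++ (y :: (G ++ (p y :: (F))))))))))
      (p b :: (R ++ (b :: (Q ++ (p e :: (A ++ (z :: (B ++ (p c :: (C ++ (p z :: (D))))))))))),
      c :: (Z ++ (e :: (W ++ (y :: (G ++ (p y :: (F)))))))) :=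
  run_sound (tks p b [b, c, e, y, z]) (fun j => [A, B, C, D, F, G, Q, R, W, Z].getD j [])
    (tks_par hp _ _) N hN (blk_len N _ hl)
    [false, false, false, false, true, true, false, false, false, false, false, false]
    ([.tk 0 true, .bk 7, .tk 1 true, .bk 2, .tk 0 false, .bk 6, .tk 2 true, .bk 0, .tk 4 true, .bk 3],
      [.tk 4 false, .bk 1, .tk 1 false, .bk 9, .tk 2 false, .bk 8, .tk 3 false, .bk 5, .tk 3 true, .bk 4])
    ([.tk 0 true, .bk 7, .tk 0 false, .bk 6, .tk 2 true, .bk 0, .tk 4 false, .bk 1, .tk 1 true, .bk 2, .tk 4 true, .bk 3],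
      [.tk 1 false, .bk 9, .tk 2 false, .bk 8, .tk 3 false, .bk 5, .tk 3 true, .bk 4]) 2 rfl

/-- raw form of pattern Q3: b`RbQe`Ac`Cz`D|zScZeWyGy`F -> b`RzSbQe`Ac`Cz`D|cZeWyGy`F. -/
theorem rawQ3 (hp : ∀ x, p (p x) = x) (N : ℕ) (hN : 1 ≤ N) (b c e y z : Om) (A C D F G Q R S W Z : List Om)
    (hl : ∀ l ∈ [A, C, D, F, G, Q, R, S, W, Z], l.length ≤ N) :
    Reach p (2 * N) (p b :: (R ++ (b :: (Q ++ (p e :: (A ++ (p c :: (C ++ (p z :: (D))))))))),
      z :: (S ++ (c :: (Z ++ (e :: (W ++ (y :: (G ++ (p y :: (F))))))))))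
      (p b :: (R ++ (z :: (S ++ (b :: (Q ++ (p e :: (A ++ (p c :: (C ++ (p z :: (D))))))))))),
      c :: (Z ++ (e :: (W ++ (y :: (G ++ (p y :: (F)))))))) :=
  run_sound (tks p b [b, c, e, y, z]) (fun j => [A, C, D, F, G, Q, R, S, W, Z].getD j [])
    (tks_par hp _ _) N hN (blk_len N _ hl)
    [true, true]
    ([.tk 0 true, .bk 6, .tk 0 false, .bk 5, .tk 2 true, .bk 0, .tk 1 true, .bk 1, .tk 4 true, .bk 2],
      [.tk 4 false, .bk 7, .tk 1 false, .bk 9, .tk 2 false, .bk 8, .tk 3 false, .bk 4, .tk 3 true, .bk 3])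
    ([.tk 0 true, .bk 6, .tk 4 false, .bk 7, .tk 0 false, .bk 5, .tk 2 true, .bk 0, .tk 1 true, .bk 1, .tk 4 true, .bk 2],
      [.tk 1 false, .bk 9, .tk 2 false, .bk 8, .tk 3 false, .bk 4, .tk 3 true, .bk 3]) 2 rfl

/-- raw form of pattern Q4: b`RbQe`Yc`SmXw`T|wVcZeUm`WyGy`F -> b`RbQe`YmXc`Sw`T|cZeUwVm`WyGy`F. -/
theorem rawQ4 (hp : ∀ x, p (p x) = x) (N : ℕ) (hN : 1 ≤ N) (b c e m w y : Om) (F G Q R S T U V W X Y Z : List Om)
    (hl : ∀ l ∈ [F, G, Q, R, S, T, U, V, W, X, Y, Z], l.length ≤ N) :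
    Reach p (0 * N) (p b :: (R ++ (b :: (Q ++ (p e :: (Y ++ (p c :: (S ++ (m :: (X ++ (p w :: (T))))))))))),
      w :: (V ++ (c :: (Z ++ (e :: (U ++ (p m :: (W ++ (y :: (G ++ (p y :: (F))))))))))))
      (p b :: (R ++ (b :: (Q ++ (p e :: (Y ++ (m :: (X ++ (p c :: (S ++ (p w :: (T))))))))))),
      c :: (Z ++ (e :: (U ++ (w :: (V ++ (p m :: (W ++ (y :: (G ++ (p y :: (F)))))))))))) :=
  run_sound (tks p b [b, c, e, m, w, y]) (fun j => [F, G, Q, R, S, T, U, V, W, X, Y, Z].getD j [])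
    (tks_par hp _ _) N hN (blk_len N _ hl)
    [false, false, false, false, false, false, false, false, true, true, false, false]
    ([.tk 0 true, .bk 3, .tk 0 false, .bk 2, .tk 2 true, .bk 10, .tk 1 true, .bk 4, .tk 3 false, .bk 9, .tk 4 true, .bk 5],
      [.tk 4 false, .bk 7, .tk 1 false, .bk 11, .tk 2 false, .bk 6, .tk 3 true, .bk 8, .tk 5 false, .bk 1, .tk 5 true, .bk 0])
    ([.tk 0 true, .bk 3, .tk 0 false, .bk 2, .tk 2 true, .bk 10, .tk 3 false, .bk 9, .tk 1 true, .bk 4, .tk 4 true, .bk 5],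
      [.tk 1 false, .bk 11, .tk 2 false, .bk 6, .tk 4 false, .bk 7, .tk 3 true, .bk 8, .tk 5 false, .bk 1, .tk 5 true, .bk 0]) 0 rfl

/-- raw form of pattern Q5: b`Rc`CmSbQe`Yw`D|wVcZeUm`WyGy`F -> b`RmSbQe`Yc`Cw`D|cZeUwVm`WyGy`F. -/
theorem rawQ5 (hp : ∀ x, p (p x) = x) (N : ℕ) (hN : 1 ≤ N) (b c e m w y : Om) (C D F G Q R S U V W Y Z : List Om)
    (hl : ∀ l ∈ [C, D, F, G, Q, R, S, U, V, W, Y, Z], l.length ≤ N) :
    Reach p (0 * N) (p b :: (R ++ (p c :: (C ++ (m :: (S ++ (b :: (Q ++ (p e :: (Y ++ (p w :: (D))))))))))),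
      w :: (V ++ (c :: (Z ++ (e :: (U ++ (p m :: (W ++ (y :: (G ++ (p y :: (F))))))))))))
      (p b :: (R ++ (m :: (S ++ (b :: (Q ++ (p e :: (Y ++ (p c :: (C ++ (p w :: (D))))))))))),
      c :: (Z ++ (e :: (U ++ (w :: (V ++ (p m :: (W ++ (y :: (G ++ (p y :: (F)))))))))))) :=
  run_sound (tks p b [b, c, e, m, w, y]) (fun j => [C, D, F, G, Q, R, S, U, V, W, Y, Z].getD j [])
    (tks_par hp _ _) N hN (blk_len N _ hl)
    [false, false, false, false, true, true, false, false, false, false, false, false]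
    ([.tk 0 true, .bk 5, .tk 1 true, .bk 0, .tk 3 false, .bk 6, .tk 0 false, .bk 4, .tk 2 true, .bk 10, .tk 4 true, .bk 1],
      [.tk 4 false, .bk 8, .tk 1 false, .bk 11, .tk 2 false, .bk 7, .tk 3 true, .bk 9, .tk 5 false, .bk 3, .tk 5 true, .bk 2])
    ([.tk 0 true, .bk 5, .tk 3 false, .bk 6, .tk 0 false, .bk 4, .tk 2 true, .bk 10, .tk 1 true, .bk 0, .tk 4 true, .bk 1],
      [.tk 1 false, .bk 11, .tk 2 false, .bk 7, .tk 4 false, .bk 8, .tk 3 true, .bk 9, .tk 5 false, .bk 3, .tk 5 true, .bk 2]) 0 rfl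

/-! ## The patterns in terms of `SFs`, `EXs` -/

theorem pat1 (hp : ∀ x, p (p x) = x) (N : ℕ) (hN : 1 ≤ N) (a b e y : Om) (P Q R Y T W G V : List Om)
    (hl : ∀ l ∈ [V, G, P, Q, R, T, W, Y], l.length ≤ N) :
    Reach p (10 * N) (a :: (P ++ b :: (Q ++ p b :: (R ++ p e :: (Y ++ p a :: T)))), e :: (W ++ y :: (G ++ p y :: V)))
      (EXs p b e a y R Q Y T P W G V) :=
  rawP1 hp N hN a b e y V G P Q R T W Y hl

theorem pat2 (hp : ∀ x, p (p x) = x) (N : ℕ) (hN : 1 ≤ N) (b c e y z : Om) (R Q Y1 Y2 Y3 T Z W G V : List Om)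
    (hl : ∀ l ∈ [Y1, Y2, Y3, T, V, G, Q, R, W, Z], l.length ≤ N) :
    Reach p (12 * N) (EXs p b e c y R Q (Y1 ++ z :: Y2) (Y3 ++ p z :: T) Z W G V)
      (EXs p b e z y (R ++ p c :: Y3) Q Y1 T (Y2 ++ c :: Z) W G V) := by
  have h := rawP2 hp N hN b c e y z Y1 Y2 Y3 T V G Q R W Z hl
  simpa [EXs] using h

theorem pat3 (hp : ∀ x, p (p x) = x) (N : ℕ) (hN : 1 ≤ N) (b c e y z : Om) (R1 R2 Q Y Y3 T Z W G V : List Om)
    (hl : ∀ l ∈ [Y, Y3, T, V, G, Q, R1, R2, W, Z], l.length ≤ N) :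
    Reach p (12 * N) (EXs p b e c y (R1 ++ z :: R2) Q Y (Y3 ++ p z :: T) Z W G V)
      (EXs p b e z y R1 Q (Y ++ p c :: Y3) T (R2 ++ c :: Z) W G V) := by
  have h := rawP3 hp N hN b c e y z Y Y3 T V G Q R1 R2 W Z hl
  simpa [EXs] using h.mono (b := 12 * N) (by omega)

theorem pat4 (hp : ∀ x, p (p x) = x) (N : ℕ) (hN : 1 ≤ N) (b c e m w y : Om)
    (R Q Y1 Y2 Y3 T Z W1 W2 W3 G V : List Om)
    (hl : ∀ l ∈ [V, G, Q, R, Y3, T, W1, W2, W3, Y2, Y1, Z], l.length ≤ N) :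
    Reach p (12 * N) (EXs p b e c y R Q (Y1 ++ m :: Y2) (Y3 ++ p w :: T) Z (W1 ++ w :: (W2 ++ p m :: W3)) G V)
      (EXs p b e w y R Q (Y1 ++ p c :: (Y3 ++ m :: Y2)) T (W2 ++ c :: Z) (W1 ++ p m :: W3) G V) := by
  have h := rawP4 hp N hN b c e m w y V G Q R Y3 T W1 W2 W3 Y2 Y1 Z hl
  simpa [EXs] using h.mono (b := 12 * N) (by omega)

theorem pat5 (hp : ∀ x, p (p x) = x) (N : ℕ) (hN : 1 ≤ N) (b c e m w y : Om)
    (R1 R2 Q Y Y3 T Z W1 W2 W3 G V : List Om)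
    (hl : ∀ l ∈ [Y3, T, V, G, Q, R1, R2, W1, W2, W3, Y, Z], l.length ≤ N) :
    Reach p (12 * N) (EXs p b e c y (R1 ++ m :: R2) Q Y (Y3 ++ p w :: T) Z (W1 ++ w :: (W2 ++ p m :: W3)) G V)
      (EXs p b e w y (R1 ++ p c :: (Y3 ++ m :: R2)) Q Y T (W2 ++ c :: Z) (W1 ++ p m :: W3) G V) := by
  have h := rawP5 hp N hN b c e m w y Y3 T V G Q R1 R2 W1 W2 W3 Y Z hl
  simpa [EXs] using h

theorem pat6 (hp : ∀ x, p (p x) = x) (N : ℕ) (hN : 1 ≤ N) (b c e v y : Om) (R Q Y1 Y2 T Z W G H V : List Om)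
    (hl : ∀ l ∈ [V, G, H, Q, R, T, W, Y2, Y1, Z], l.length ≤ N) :
    Reach p (18 * N) (EXs p b e c y R Q (Y1 ++ v :: Y2) T Z W G (H ++ p v :: V))
      (SFs p b e c y R Q (Y1 ++ v :: Y2) T Z W G (H ++ p v :: V)) := by
  have h := rawP6 hp N hN b c e v y V G H Q R T W Y2 Y1 Z hl
  simpa [EXs, SFs] using h.mono (b := 18 * N) (by omega)

theorem pat7 (hp : ∀ x, p (p x) = x) (N : ℕ) (hN : 1 ≤ N) (b c e v y : Om) (R Q Y1 Y2 T Z W G1 G2 V : List Om)
    (hl : ∀ l ∈ [V, G1, G2, Q, R, T, W, Y2, Y1, Z], l.length ≤ N) :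
    Reach p (18 * N) (EXs p b e c y R Q (Y1 ++ v :: Y2) T Z W (G1 ++ p v :: G2) V)
      (SFs p b e c y R Q (Y1 ++ v :: Y2) T Z W (G1 ++ p v :: G2) V) := by
  have h := rawP7 hp N hN b c e v y V G1 G2 Q R T W Y2 Y1 Z hl
  simpa [EXs, SFs] using h

theorem pat8 (hp : ∀ x, p (p x) = x) (N : ℕ) (hN : 1 ≤ N) (b c e v y : Om) (R1 R2 Q Y T Z W G H V : List Om)
    (hl : ∀ l ∈ [V, G, H, Q, R1, R2, T, W, Y, Z], l.length ≤ N) :
    Reach p (18 * N) (EXs p b e c y (R1 ++ v :: R2) Q Y T Z W G (H ++ p v :: V))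
      (SFs p b e c y (R1 ++ v :: R2) Q Y T Z W G (H ++ p v :: V)) := by
  have h := rawP8 hp N hN b c e v y V G H Q R1 R2 T W Y Z hl
  simpa [EXs, SFs] using h.mono (b := 18 * N) (by omega)

theorem pat9 (hp : ∀ x, p (p x) = x) (N : ℕ) (hN : 1 ≤ N) (b c e v y : Om) (R1 R2 Q Y T Z W G1 G2 V : List Om)
    (hl : ∀ l ∈ [V, G1, G2, Q, R1, R2, T, W, Y, Z], l.length ≤ N) :
    Reach p (18 * N) (EXs p b e c y (R1 ++ v :: R2) Q Y T Z W (G1 ++ p v :: G2) V)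
      (SFs p b e c y (R1 ++ v :: R2) Q Y T Z W (G1 ++ p v :: G2) V) := by
  have h := rawP9 hp N hN b c e v y V G1 G2 Q R1 R2 T W Y Z hl
  simpa [EXs, SFs] using h.mono (b := 18 * N) (by omega)


/-! ## The return paths -/

theorem ret1 (hp : ∀ x, p (p x) = x) (N : ℕ) (hN : 1 ≤ N) (a b e y : Om) (P Q R Y T W G V : List Om)
    (hl : ∀ l ∈ [V, G, P, Q, R, T, W, Y], l.length ≤ N) :
    Reach p (2 * N) (SFs p b e a y R Q Y T P W G V)
      (a :: (P ++ b :: (Q ++ p b :: (R ++ p e :: (Y ++ p a :: T)))), e :: (W ++ y :: (G ++ p y :: V))) :=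
  rawQ1 hp N hN a b e y V G P Q R T W Y hl

theorem ret2 (hp : ∀ x, p (p x) = x) (N : ℕ) (hN : 1 ≤ N) (b c e y z : Om) (R Q Y1 Y2 Y3 T Z W G V : List Om)
    (hl : ∀ l ∈ [Y1, Y2, Y3, T, V, G, Q, R, W, Z], l.length ≤ N) :
    Reach p (2 * N) (SFs p b e z y (R ++ p c :: Y3) Q Y1 T (Y2 ++ c :: Z) W G V)
      (SFs p b e c y R Q (Y1 ++ z :: Y2) (Y3 ++ p z :: T) Z W G V) := by
  have h := rawQ2 hp N hN b c e y z Y1 Y2 Y3 T V G Q R W Z hl
  simpa [SFs] using h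

theorem ret3 (hp : ∀ x, p (p x) = x) (N : ℕ) (hN : 1 ≤ N) (b c e y z : Om) (R1 R2 Q Y Y3 T Z W G V : List Om)
    (hl : ∀ l ∈ [Y, Y3, T, V, G, Q, R1, R2, W, Z], l.length ≤ N) :
    Reach p (2 * N) (SFs p b e z y R1 Q (Y ++ p c :: Y3) T (R2 ++ c :: Z) W G V)
      (SFs p b e c y (R1 ++ z :: R2) Q Y (Y3 ++ p z :: T) Z W G V) := by
  have h := rawQ3 hp N hN b c e y z Y Y3 T V G Q R1 R2 W Z hl
  simpa [SFs] using h

theorem ret4 (hp : ∀ x, p (p x) = x) (N : ℕ) (hN : 1 ≤ N) (b c e m w y : Om)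
    (R Q Y1 Y2 Y3 T Z W1 W2 W3 G V : List Om)
    (hl : ∀ l ∈ [V, G, Q, R, Y3, T, W1, W2, W3, Y2, Y1, Z], l.length ≤ N) :
    Reach p (2 * N) (SFs p b e w y R Q (Y1 ++ p c :: (Y3 ++ m :: Y2)) T (W2 ++ c :: Z) (W1 ++ p m :: W3) G V)
      (SFs p b e c y R Q (Y1 ++ m :: Y2) (Y3 ++ p w :: T) Z (W1 ++ w :: (W2 ++ p m :: W3)) G V) := by
  have h := rawQ4 hp N hN b c e m w y V G Q R Y3 T W1 W2 W3 Y2 Y1 Z hl
  simpa [SFs] using h.mono (b := 2 * N) (by omega)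

theorem ret5 (hp : ∀ x, p (p x) = x) (N : ℕ) (hN : 1 ≤ N) (b c e m w y : Om)
    (R1 R2 Q Y Y3 T Z W1 W2 W3 G V : List Om)
    (hl : ∀ l ∈ [Y3, T, V, G, Q, R1, R2, W1, W2, W3, Y, Z], l.length ≤ N) :
    Reach p (2 * N) (SFs p b e w y (R1 ++ p c :: (Y3 ++ m :: R2)) Q Y T (W2 ++ c :: Z) (W1 ++ p m :: W3) G V)
      (SFs p b e c y (R1 ++ m :: R2) Q Y (Y3 ++ p w :: T) Z (W1 ++ w :: (W2 ++ p m :: W3)) G V) := by
  have h := rawQ5 hp N hN b c e m w y Y3 T V G Q R1 R2 W1 W2 W3 Y Z hl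
  simpa [SFs] using h.mono (b := 2 * N) (by omega)


end NTok
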