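import Pool.Agent.helper38.Neg.Nondet
import Pool.Agent.helper55.NT.Defs

/-!
Straight line computations with a count of the NOT gates, and computations relative to a set of
available functions.
-/

set_option autoImplicit false

namespace Pool.Agent.helper55.NT

open Pool.Agent.helper38.Neg

/-- functions of `n` bits -/
abbrev Fn (n : ℕ) : Type := (Fin n → Bool) → Bool

/-- Straight line computations with `r` NOT gates. -/
inductive SL {n : ℕ} : List (Fn n) → ℕ → Prop
  | nil : SL [] 0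
  | const {L r} (b : Bool) : SL L r → SL ((fun _ => b) :: L) r
  | and {L r u v} : SL L r → Op L u → Op L v → SL ((fun y => u y && v y) :: L) r
  | or {L r u v} : SL L r → Op L u → Op L v → SL ((fun y => u y || v y) :: L) r
  | not {L r u} : SL L r → Op L u → SL ((fun y => !(u y)) :: L) (r + 1)

lemma SL.toCircuit {n : ℕ} {L : List (Fn n)} {r : ℕ} (h : SL L r) :
    ∃ C : Circuit n L.length, C.notCount = r ∧ ∀ f, Op L f → ∃ k, ∀ x, C.val x k = f x := by
  have key : ∀ (L : List (Fn n)) (C : Circuit n L.length)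
      (hC : ∀ f, Op L f → ∃ k, ∀ x, C.val x k = f x) (g : Gate (n + L.length))
      (F : Fn n) (_ : ∀ x, g.eval (C.val x) = F x),
      ∀ f, Op (F :: L) f → ∃ k, ∀ x, (Circuit.snoc C g).val x k = f x := by
    intro L C hC g F hF
    have hold : ∀ f, Op L f → ∃ k, ∀ x, (Circuit.snoc C g).val x k = f x := by
      intro f hf
      obtain ⟨k, hk⟩ := hC f hf
      refine ⟨Fin.castSucc k, fun x => ?_⟩
      rw [← hk x]
      simp [Circuit.val]
    intro f hf
    rcases hf with hf | hf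
    · rcases List.mem_cons.1 hf with rfl | hf
      · refine ⟨Fin.last (n + L.length), fun x => ?_⟩
        rw [← hF x]
        simp [Circuit.val]
      · exact hold f (Or.inl hf)
    · exact hold f (Or.inr hf)
  induction h with
  | nil =>
    refine ⟨Circuit.nil, rfl, ?_⟩
    rintro f (hf | ⟨i, rfl⟩)
    · simp at hf
    · exact ⟨i, fun x => rfl⟩
  | @const L r b _ ih =>
    obtain ⟨C, hr, hC⟩ := ih
    exact ⟨Circuit.snoc C (Gate.const b), hr, key L C hC (Gate.const b) _ (fun x => rfl)⟩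
  | @and L r u v _ hu hv ih =>
    obtain ⟨C, hr, hC⟩ := ih
    obtain ⟨i, hi⟩ := hC u hu
    obtain ⟨j, hj⟩ := hC v hv
    exact ⟨Circuit.snoc C (Gate.and i j), hr,
      key L C hC (Gate.and i j) _ (fun x => by simp [Gate.eval, hi, hj])⟩
  | @or L r u v _ hu hv ih =>
    obtain ⟨C, hr, hC⟩ := ih
    obtain ⟨i, hi⟩ := hC u hu
    obtain ⟨j, hj⟩ := hC v hv
    exact ⟨Circuit.snoc C (Gate.or i j), hr,
      key L C hC (Gate.or i j) _ (fun x => by simp [Gate.eval, hi, hj])⟩
  | @not L r u _ hu ih =>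
    obtain ⟨C, hr, hC⟩ := ih
    obtain ⟨i, hi⟩ := hC u hu
    exact ⟨Circuit.snoc C (Gate.not i), congrArg (· + 1) hr,
      key L C hC (Gate.not i) _ (fun x => by simp [Gate.eval, hi])⟩

/-- If all functions in `F` are available, then all functions in `G` can be computed with `m` further
gates, at most `r` of them NOT gates. -/
def Rel {n : ℕ} (F : Set (Fn n)) (m r : ℕ) (G : Set (Fn n)) : Prop :=
  ∀ (L : List (Fn n)) (q : ℕ), SL L q → (∀ f ∈ F, Op L f) →
    ∃ (L' : List (Fn n)) (q' : ℕ), SL L' q' ∧ q' ≤ q + r ∧ L'.length ≤ L.length + m ∧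
      (∀ f, Op L f → Op L' f) ∧ ∀ g ∈ G, Op L' g

variable {n : ℕ}

lemma Rel.mono {F F' G G' : Set (Fn n)} {m m' r r' : ℕ} (h : Rel F m r G) (hF : F ⊆ F')
    (hG : G' ⊆ G) (hm : m ≤ m') (hr : r ≤ r') : Rel F' m' r' G' := by
  intro L q hL hF'
  obtain ⟨L', q', h1, h2, h3, h4, h5⟩ := h L q hL fun f hf => hF' f (hF hf)
  exact ⟨L', q', h1, by omega, by omega, h4, fun g hg => h5 g (hG hg)⟩

lemma Rel.sub {F G : Set (Fn n)} (h : G ⊆ F) : Rel F 0 0 G := by
  intro L q hL hF
  exact ⟨L, q, hL, by omega, by omega, fun _ h => h, fun g hg => hF g (h hg)⟩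

lemma Rel.var (F : Set (Fn n)) (i : Fin n) : Rel F 0 0 {fun x => x i} := by
  intro L q hL _
  refine ⟨L, q, hL, by omega, by omega, fun _ h => h, ?_⟩
  rintro g rfl
  exact Or.inr ⟨i, rfl⟩

lemma Rel.const (F : Set (Fn n)) (b : Bool) : Rel F 1 0 {fun _ => b} := by
  intro L q hL _
  refine ⟨_, q, SL.const b hL, by omega, by simp, fun f h => h.mono fun _ h => List.mem_cons_of_mem _ h, ?_⟩
  rintro g rfl
  exact Or.inl List.mem_cons_self

lemma Rel.and {F : Set (Fn n)} {u v : Fn n} (hu : u ∈ F) (hv : v ∈ F) :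
    Rel F 1 0 {fun x => u x && v x} := by
  intro L q hL hF
  refine ⟨_, q, SL.and hL (hF u hu) (hF v hv), by omega, by simp,
    fun f h => h.mono fun _ h => List.mem_cons_of_mem _ h, ?_⟩
  rintro g rfl
  exact Or.inl List.mem_cons_self

lemma Rel.or {F : Set (Fn n)} {u v : Fn n} (hu : u ∈ F) (hv : v ∈ F) :
    Rel F 1 0 {fun x => u x || v x} := by
  intro L q hL hF
  refine ⟨_, q, SL.or hL (hF u hu) (hF v hv), by omega, by simp,
    fun f h => h.mono fun _ h => List.mem_cons_of_mem _ h, ?_⟩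
  rintro g rfl
  exact Or.inl List.mem_cons_self

lemma Rel.not {F : Set (Fn n)} {u : Fn n} (hu : u ∈ F) :
    Rel F 1 1 {fun x => !(u x)} := by
  intro L q hL hF
  refine ⟨_, q + 1, SL.not hL (hF u hu), by omega, by simp,
    fun f h => h.mono fun _ h => List.mem_cons_of_mem _ h, ?_⟩
  rintro g rfl
  exact Or.inl List.mem_cons_self

lemma Rel.trans {F G H : Set (Fn n)} {m m' r r' : ℕ} (h : Rel F m r G)
    (h' : Rel (F ∪ G) m' r' H) : Rel F (m + m') (r + r') (G ∪ H) := by
  intro L q hL hF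
  obtain ⟨L1, q1, h1, h2, h3, h4, h5⟩ := h L q hL hF
  obtain ⟨L2, q2, g1, g2, g3, g4, g5⟩ := h' L1 q1 h1 (by
    rintro f (hf | hf)
    · exact h4 f (hF f hf)
    · exact h5 f hf)
  refine ⟨L2, q2, g1, by omega, by omega, fun f hf => g4 f (h4 f hf), ?_⟩
  rintro g (hg | hg)
  · exact g4 g (h5 g hg)
  · exact g5 g hg

lemma Rel.trans' {F G H : Set (Fn n)} {m m' r r' : ℕ} (h : Rel F m r G)
    (h' : Rel (F ∪ G) m' r' H) : Rel F (m + m') (r + r') H :=
  (h.trans h').mono le_rfl Set.subset_union_right le_rfl le_rfl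

lemma Rel.union {F G H : Set (Fn n)} {m m' r r' : ℕ} (h : Rel F m r G)
    (h' : Rel F m' r' H) : Rel F (m + m') (r + r') (G ∪ H) :=
  h.trans (h'.mono Set.subset_union_left le_rfl le_rfl le_rfl)

lemma Rel.biUnion {ι : Type*} {F : Set (Fn n)} {m : ℕ} (S : Finset ι) (G : ι → Set (Fn n))
    (h : ∀ i ∈ S, Rel F m 0 (G i)) : Rel F (S.card * m) 0 (⋃ i ∈ S, G i) := by
  classical
  induction S using Finset.induction_on with
  | empty =>
    refine (Rel.sub (F := F) (G := ∅) (Set.empty_subset _)).mono le_rfl ?_ (by simp) le_rfl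
    simp
  | @insert a S ha ih =>
    have h1 := (h a (Finset.mem_insert_self _ _)).union
      (ih fun i hi => h i (Finset.mem_insert_of_mem hi))
    refine h1.mono le_rfl ?_ ?_ le_rfl
    · intro g hg
      simp only [Finset.mem_insert, Set.mem_iUnion, exists_prop, exists_eq_or_imp] at hg
      rcases hg with hg | hg
      · exact Or.inl hg
      · refine Or.inr ?_
        simp only [Set.mem_iUnion, exists_prop]
        exact hg
    · rw [Finset.card_insert_of_notMem ha]
      ring_nf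
      omega

/-- The conclusion for circuits. -/
lemma Rel.toCircuit {m r : ℕ} {g : Fn n} (h : Rel ∅ m r {g}) :
    ∃ s ≤ m, ∃ (C : Circuit n s) (o : Fin (n + s)), C.notCount ≤ r ∧ ∀ x, C.val x o = g x := by
  obtain ⟨L', q', h1, h2, h3, -, h5⟩ := h [] 0 SL.nil (by simp)
  obtain ⟨C, hr, hC⟩ := h1.toCircuit
  obtain ⟨o, ho⟩ := hC g (h5 g rfl)
  exact ⟨L'.length, by simpa using h3, C, o, by omega, ho⟩

end Pool.Agent.helper55.NT
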