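import Pool.Agent.helper55.NT.Win

/-!
The inverter for sorted functions with few NOT gates, and the simulation of circuits for monotone
functions by circuits with few NOT gates.
-/

set_option autoImplicit false

namespace Pool.Agent.helper55.NT

open Pool.Agent.helper38.Neg

variable {n : ℕ}

/-- the functions `t j`, `j + 1 < 2 ^ r` -/
def As (r : ℕ) (t : ℕ → Fn n) : Set (Fn n) := ⋃ j ∈ Finset.range (2 ^ r - 1), {t j}

/-- the negations of the functions `t j`, `j + 1 < 2 ^ r` -/
def Ns (r : ℕ) (t : ℕ → Fn n) : Set (Fn n) :=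
  ⋃ j ∈ Finset.range (2 ^ r - 1), {fun x => !(t j x)}

lemma mem_As {r : ℕ} {t : ℕ → Fn n} {j : ℕ} (hj : j < 2 ^ r - 1) : t j ∈ As r t := by
  simp only [As, Set.mem_iUnion]
  exact ⟨j, Finset.mem_range.2 hj, rfl⟩

lemma mem_Ns {r : ℕ} {t : ℕ → Fn n} {j : ℕ} (hj : j < 2 ^ r - 1) :
    (fun x => !(t j x)) ∈ Ns r t := by
  simp only [Ns, Set.mem_iUnion]
  exact ⟨j, Finset.mem_range.2 hj, rfl⟩

lemma inv_rel (r : ℕ) : ∀ t : ℕ → Fn n, (∀ j x, t (j + 1) x = true → t j x = true) →
    Rel (As r t) (4 * 2 ^ r) r (Ns r t) := by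
  induction r with
  | zero =>
    intro t _
    refine (Rel.sub (G := ∅) (Set.empty_subset _)).mono le_rfl ?_ (by simp) le_rfl
    intro g hg
    simp [Ns] at hg
  | succ r ih =>
    intro t ht
    have hmono : ∀ i j x, i ≤ j → t j x = true → t i x = true := by
      intro i j x hij
      induction j, hij using Nat.le_induction with
      | base => exact fun h => h
      | succ j _ ih => exact fun h => ih (ht j x h)
    obtain ⟨m, hm⟩ : ∃ m, 2 ^ r = m + 1 := ⟨2 ^ r - 1, by
      have : 0 < 2 ^ r := by positivity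
      omega⟩
    have hm2 : 2 ^ (r + 1) = 2 * m + 2 := by rw [pow_succ, hm]; ring
    set u : Fn n := fun x => !(t m x) with hu
    set t' : ℕ → Fn n := fun j x => (t j x && u x) || t (m + 1 + j) x with ht'
    have hsort : ∀ j x, t' (j + 1) x = true → t' j x = true := by
      intro j x
      simp only [ht', Bool.or_eq_true, Bool.and_eq_true]
      rintro (⟨h1, h2⟩ | h1)
      · exact Or.inl ⟨ht j x h1, h2⟩
      · exact Or.inr (ht _ x h1)
    have h1 : Rel (As (r + 1) t) 1 1 {u} := Rel.not (mem_As (by omega))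
    have h2 : Rel (As (r + 1) t ∪ {u}) (m * 2) 0 (As r t') := by
      have h3 := Rel.biUnion (F := As (r + 1) t ∪ {u}) (m := 2) (Finset.range (2 ^ r - 1))
        (fun j => {t' j}) (fun j hj => by
          rw [Finset.mem_range] at hj
          have h4 : Rel (As (r + 1) t ∪ {u}) 1 0 {fun x => t j x && u x} :=
            Rel.and (Or.inl (mem_As (by omega))) (Or.inr rfl)
          have h5 : Rel ((As (r + 1) t ∪ {u}) ∪ {fun x => t j x && u x}) 1 0
              {fun x => (t j x && u x) || t (m + 1 + j) x} :=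
            Rel.or (u := fun x => t j x && u x) (Or.inr rfl) (Or.inl (Or.inl (mem_As (by omega))))
          exact h4.trans' h5)
      refine h3.mono le_rfl subset_rfl ?_ le_rfl
      rw [Finset.card_range, hm, Nat.add_sub_cancel]
    have h3 := ih t' hsort
    have h4 : Rel ((As (r + 1) t ∪ {u}) ∪ Ns r t') (m * 2) 0 (Ns (r + 1) t) := by
      set F : Set (Fn n) := (As (r + 1) t ∪ {u}) ∪ Ns r t' with hF
      have h5 := Rel.biUnion (F := F) (m := 2) (Finset.range (2 ^ r - 1))
        (fun j => {fun x => !(t j x)} ∪ {fun x => !(t (m + 1 + j) x)}) (fun j hj => by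
          rw [Finset.mem_range] at hj
          have h6 : Rel F 1 0 {fun x => (!(t' j x)) && u x} :=
            Rel.and (Or.inr (mem_Ns (by omega))) (Or.inl (Or.inr rfl))
          have h7 : Rel F 1 0 {fun x => u x || (!(t' j x))} :=
            Rel.or (Or.inl (Or.inr rfl)) (Or.inr (mem_Ns (t := t') (by omega)))
          refine (h6.union h7).mono le_rfl ?_ le_rfl le_rfl
          have hj1 : ∀ x, t m x = true → t j x = true := fun x h => hmono j m x (by omega) h
          have hj2 : ∀ x, t (m + 1 + j) x = true → t m x = true :=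
            fun x h => hmono m _ x (by omega) h
          rintro g (rfl | rfl)
          · refine Or.inl ?_
            rw [Set.mem_singleton_iff]
            funext x
            have a1 := hj1 x
            have a2 := hj2 x
            simp only [ht', hu]
            revert a1 a2
            cases t m x <;> cases t j x <;> cases t (m + 1 + j) x <;> simp
          · refine Or.inr ?_
            rw [Set.mem_singleton_iff]
            funext x
            have a1 := hj1 x
            have a2 := hj2 x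
            simp only [ht', hu]
            revert a1 a2
            cases t m x <;> cases t j x <;> cases t (m + 1 + j) x <;> simp)
      have h8 : Rel F 0 0 {u} := Rel.sub (by
        rintro g rfl
        exact Or.inl (Or.inr rfl))
      refine (h5.union h8).mono le_rfl ?_ ?_ le_rfl
      · intro g hg
        simp only [Ns, Set.mem_iUnion, Set.mem_singleton_iff, Finset.mem_range] at hg
        obtain ⟨i, hi, rfl⟩ := hg
        rcases lt_trichotomy i m with h | h | h
        · refine Or.inl ?_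
          simp only [Set.mem_iUnion]
          exact ⟨i, Finset.mem_range.2 (by omega), Or.inl rfl⟩
        · subst h
          exact Or.inr rfl
        · refine Or.inl ?_
          simp only [Set.mem_iUnion]
          refine ⟨i - (m + 1), Finset.mem_range.2 (by omega), Or.inr ?_⟩
          rw [Set.mem_singleton_iff, show m + 1 + (i - (m + 1)) = i by omega]
      · rw [Finset.card_range, hm, Nat.add_sub_cancel, add_zero]
    have h5 := h1.trans h2
    have h6 := h5.trans (h3.mono (F' := As (r + 1) t ∪ ({u} ∪ As r t'))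
      (fun g hg => Or.inr (Or.inr hg)) subset_rfl le_rfl le_rfl)
    have h7 := h6.trans' (h4.mono (F' := As (r + 1) t ∪ ({u} ∪ As r t' ∪ Ns r t')) (by
      rintro g ((hg | hg) | hg)
      · exact Or.inl hg
      · exact Or.inr (Or.inl (Or.inl hg))
      · exact Or.inr (Or.inr hg)) subset_rfl le_rfl le_rfl)
    refine h7.mono le_rfl subset_rfl ?_ (by omega)
    rw [hm2, hm]
    omega

lemma T_mem_F0 (B k : ℕ) : T ∅ k ∈ F0 n B := by
  refine Or.inr ?_
  simp only [Set.mem_iUnion]
  exact ⟨∅, by simp [Sm], k, rfl⟩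

lemma window_rel {s : ℕ} (f : Fn n) (hf : Mon f) (C : Circuit n s) (o : Fin (n + s))
    (hC : ∀ x, C.val x o = f x) (k b : ℕ) :
    Rel (F0 n b) (b * ((n + 1) ^ b * (2 * s + 2))) 0 {W f k b ∅} := by
  refine (W_rel f hf C o hC k b b le_rfl).mono le_rfl ?_ le_rfl le_rfl
  rintro g rfl
  simp only [Set.mem_iUnion]
  exact ⟨∅, by simp [Sm], rfl⟩

lemma sim_rel {s : ℕ} (f : Fn n) (hf : Mon f) (C : Circuit n s) (o : Fin (n + s))
    (hC : ∀ x, C.val x o = f x) (b r : ℕ) (hn : n + 1 ≤ b * 2 ^ r) :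
    Rel ∅ ((n + 1) ^ b * (2 * (n + 2) ^ 2) + 2 ^ r * (b * ((n + 1) ^ b * (2 * s + 2))) +
      6 * 2 ^ r + 2) r {f} := by
  obtain ⟨m, hm⟩ : ∃ m, 2 ^ r = m + 1 := ⟨2 ^ r - 1, by
    have : 0 < 2 ^ r := by positivity
    omega⟩
  set t : ℕ → Fn n := fun j => T ∅ ((j + 1) * b) with ht
  have htx : ∀ j x, t j x = decide ((j + 1) * b ≤ wt x) := by
    intro j x
    simp only [ht, T, rem_empty]
  have hW : ∀ k x, W f k b ∅ x = (decide (k ≤ wt x) && (decide (k + b ≤ wt x) || f x)) := by
    intro k x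
    simp only [W, T, rem_empty]
  have hsort : ∀ j x, t (j + 1) x = true → t j x = true := by
    intro j x
    rw [htx, htx, decide_eq_true_eq, decide_eq_true_eq]
    intro h
    refine le_trans ?_ h
    gcongr
    omega
  have h0 : Rel ∅ ((n + 1) ^ b * (2 * (n + 2) ^ 2)) 0 (F0 n b) := F0_rel b
  have h1 : Rel (F0 n b) (2 ^ r * (b * ((n + 1) ^ b * (2 * s + 2)))) 0
      (⋃ j ∈ Finset.range (2 ^ r), {W f (j * b) b ∅}) := by
    have := Rel.biUnion (F := F0 n b) (Finset.range (2 ^ r)) (fun j => {W f (j * b) b ∅})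
      (fun j _ => window_rel f hf C o hC (j * b) b)
    rwa [Finset.card_range] at this
  have h2 : Rel (F0 n b) (4 * 2 ^ r) r (Ns r t) := by
    refine (inv_rel r t hsort).mono ?_ subset_rfl le_rfl le_rfl
    intro g hg
    simp only [As, Set.mem_iUnion, Set.mem_singleton_iff] at hg
    obtain ⟨j, -, rfl⟩ := hg
    exact T_mem_F0 _ _
  have h3 := h1.union h2
  set F : Set (Fn n) := (⋃ j ∈ Finset.range (2 ^ r), {W f (j * b) b ∅}) ∪ Ns r t with hF
  have hWF : ∀ j < 2 ^ r, W f (j * b) b ∅ ∈ F := by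
    intro j hj
    refine Or.inl ?_
    simp only [Set.mem_iUnion]
    exact ⟨j, Finset.mem_range.2 hj, rfl⟩
  have hNF : ∀ j < m, (fun x => !(t j x)) ∈ F := fun j hj => Or.inr (mem_Ns (by omega))
  have h4 : ∀ i ≤ m, Rel F (2 * i + 1) 0 {fun x => decide (wt x < i * b) && f x} := by
    intro i
    induction i with
    | zero =>
      intro _
      refine (Rel.const F false).mono le_rfl ?_ (by omega) le_rfl
      rintro g rfl
      rw [Set.mem_singleton_iff]
      funext x
      simp
    | succ i ih =>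
      intro hi
      have h5 := ih (by omega)
      have h6 : Rel F 1 0 {fun x => W f (i * b) b ∅ x && (!(t i x))} :=
        Rel.and (hWF i (by omega)) (hNF i (by omega))
      have h7 := h5.union h6
      have h8 : Rel (F ∪ ({fun x => decide (wt x < i * b) && f x} ∪
          {fun x => W f (i * b) b ∅ x && (!(t i x))})) 1 0
          {fun x => (decide (wt x < i * b) && f x) || (W f (i * b) b ∅ x && (!(t i x)))} :=
        Rel.or (u := fun x => decide (wt x < i * b) && f x)
          (v := fun x => W f (i * b) b ∅ x && (!(t i x)))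
          (Or.inr (Or.inl rfl)) (Or.inr (Or.inr rfl))
      refine (h7.trans' h8).mono le_rfl ?_ (by omega) le_rfl
      rintro g rfl
      rw [Set.mem_singleton_iff]
      funext x
      rw [hW, htx]
      have hib : i * b + b = (i + 1) * b := by ring
      rw [hib]
      rw [Bool.eq_iff_iff]
      simp only [Bool.and_eq_true, Bool.or_eq_true, decide_eq_true_eq, Bool.not_eq_true',
        decide_eq_false_iff_not, not_le]
      have hle : i * b ≤ (i + 1) * b := Nat.mul_le_mul_right _ (by omega)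
      constructor
      · rintro ⟨a1, a2⟩
        by_cases a3 : wt x < i * b
        · exact Or.inl ⟨a3, a2⟩
        · exact Or.inr ⟨⟨by omega, Or.inr a2⟩, a1⟩
      · rintro (⟨a1, a2⟩ | ⟨⟨a1, a2⟩, a3⟩)
        · exact ⟨by omega, a2⟩
        · refine ⟨a3, ?_⟩
          rcases a2 with a2 | a2
          · omega
          · exact a2
  have h5 := h4 m le_rfl
  have h6 : Rel (F ∪ {fun x => decide (wt x < m * b) && f x}) 1 0
      {fun x => (decide (wt x < m * b) && f x) || W f (m * b) b ∅ x} :=
    Rel.or (u := fun x => decide (wt x < m * b) && f x) (Or.inr rfl)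
      (Or.inl (hWF m (by omega)))
  have h7 := h5.trans' h6
  have h8 := h3.trans' (h7.mono (F' := F0 n b ∪ F) Set.subset_union_right le_rfl le_rfl le_rfl)
  have h9 := h0.trans' (h8.mono (F' := ∅ ∪ F0 n b) Set.subset_union_right le_rfl le_rfl le_rfl)
  refine h9.mono le_rfl ?_ ?_ (by omega)
  · rintro g rfl
    rw [Set.mem_singleton_iff]
    funext x
    rw [hW]
    have hw := wt_le x
    have hmb : m * b + b = b * 2 ^ r := by rw [hm]; ring
    rw [hmb]
    have h10 : ¬ (b * 2 ^ r ≤ wt x) := by omega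
    rw [decide_eq_false h10, Bool.false_or]
    by_cases h11 : wt x < m * b
    · rw [decide_eq_true h11, decide_eq_false (not_le.2 h11)]
      simp
    · rw [decide_eq_false h11, decide_eq_true (not_lt.1 h11)]
      simp
  · rw [hm]
    generalize (m + 1) * (b * ((n + 1) ^ b * (2 * s + 2))) = A
    generalize (n + 1) ^ b * (2 * (n + 2) ^ 2) = A'
    omega

/-- Simulation with `r` NOT gates. -/
theorem sim_circuit {s : ℕ} (f : Fn n) (hf : Mon f) (C : Circuit n s) (o : Fin (n + s))
    (hC : ∀ x, C.val x o = f x) (b r : ℕ) (hn : n + 1 ≤ b * 2 ^ r) :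
    ∃ s' ≤ 18 * b * (s + 1) * (n + 2) ^ (b + 2), ∃ (C' : Circuit n s') (o' : Fin (n + s')),
      C'.notCount ≤ r ∧ ∀ x, C'.val x o' = f x := by
  have hb : 1 ≤ b := by
    rcases Nat.eq_zero_or_pos b with rfl | h
    · omega
    · exact h
  have key : ∀ r' ≤ r, n + 1 ≤ b * 2 ^ r' → 2 ^ r' ≤ 2 * (n + 1) →
      ∃ s' ≤ 18 * b * (s + 1) * (n + 2) ^ (b + 2), ∃ (C' : Circuit n s') (o' : Fin (n + s')),
      C'.notCount ≤ r ∧ ∀ x, C'.val x o' = f x := by
    intro r' hr' hn' h2
    obtain ⟨s', hs', C', o', h3, h4⟩ := (sim_rel f hf C o hC b r' hn').toCircuit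
    refine ⟨s', hs'.trans ?_, C', o', h3.trans hr', h4⟩
    have e1 : (n + 1) ^ b * (2 * (n + 2) ^ 2) ≤ 2 * (n + 2) ^ (b + 2) := by
      rw [pow_add]
      have : (n + 1) ^ b ≤ (n + 2) ^ b := Nat.pow_le_pow_left (by omega) _
      nlinarith [Nat.mul_le_mul_right ((n + 2) ^ 2) this]
    have e2 : 2 ^ r' * (b * ((n + 1) ^ b * (2 * s + 2))) ≤
        4 * (b * (s + 1)) * (n + 2) ^ (b + 2) := by
      have a1 : (n + 1) ^ b * (n + 1) ≤ (n + 2) ^ (b + 2) := by
        rw [← pow_succ]
        exact (Nat.pow_le_pow_left (by omega) _).trans (Nat.pow_le_pow_right (by omega) (by omega))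
      calc 2 ^ r' * (b * ((n + 1) ^ b * (2 * s + 2)))
          ≤ 2 * (n + 1) * (b * ((n + 1) ^ b * (2 * s + 2))) := Nat.mul_le_mul_right _ h2
        _ = 4 * (b * (s + 1)) * ((n + 1) ^ b * (n + 1)) := by ring
        _ ≤ 4 * (b * (s + 1)) * (n + 2) ^ (b + 2) := Nat.mul_le_mul_left _ a1
    have e3 : n + 2 ≤ (n + 2) ^ (b + 2) := Nat.le_self_pow (by omega) _
    have e4 : 1 ≤ b * (s + 1) := Nat.mul_pos hb (by omega)
    set Q := (n + 2) ^ (b + 2) with hQ
    have e5 : Q ≤ b * (s + 1) * Q := Nat.le_mul_of_pos_left _ e4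
    have e6 : 18 * b * (s + 1) * Q = 18 * (b * (s + 1) * Q) := by ring
    have e7 : 4 * (b * (s + 1)) * Q = 4 * (b * (s + 1) * Q) := by ring
    rw [e6]
    rw [e7] at e2
    omega
  by_cases h2 : 2 ^ r ≤ 2 * (n + 1)
  · exact key r le_rfl hn h2
  · push Not at h2
    have h3 : 2 ^ Nat.clog 2 (n + 1) ≤ 2 * (n + 1) := by
      rcases Nat.eq_zero_or_pos n with rfl | hpos
      · simp
      · have h4 := Nat.pow_pred_clog_lt_self (b := 2) (by norm_num) (show 1 < n + 1 by omega)
        have h5 : 0 < Nat.clog 2 (n + 1) := Nat.clog_pos (by norm_num) (by omega)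
        have h6 : 2 ^ Nat.clog 2 (n + 1) = 2 * 2 ^ (Nat.clog 2 (n + 1)).pred := by
          rw [← pow_succ']
          congr 1
          simp only [Nat.pred_eq_sub_one]
          omega
        omega
    refine key (Nat.clog 2 (n + 1)) ?_ ?_ h3
    · by_contra hlt
      push Not at hlt
      have := Nat.pow_le_pow_right (show 1 ≤ 2 by norm_num) hlt.le
      omega
    · exact (Nat.le_pow_clog (by norm_num) _).trans (Nat.le_mul_of_pos_left _ hb)

/-- The window theorem for circuits. -/
theorem window_circuit {s : ℕ} (f : Fn n) (hf : Mon f) (C : Circuit n s) (o : Fin (n + s))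
    (hC : ∀ x, C.val x o = f x) (k b : ℕ) (hb : 1 ≤ b) :
    ∃ s' ≤ 4 * b * (s + 1) * (n + 2) ^ (b + 2), ∃ (C' : Circuit n s') (o' : Fin (n + s')),
      C'.notCount = 0 ∧ ∀ x, C'.val x o' = (decide (k ≤ wt x) && (decide (k + b ≤ wt x) || f x)) := by
  have h1 := (F0_rel (n := n) b).trans'
    ((window_rel f hf C o hC k b).mono (F' := ∅ ∪ F0 n b) Set.subset_union_right le_rfl le_rfl le_rfl)
  obtain ⟨s', hs', C', o', h3, h4⟩ := h1.toCircuit
  refine ⟨s', hs'.trans ?_, C', o', by omega, fun x => ?_⟩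
  · have e1 : (n + 1) ^ b * (2 * (n + 2) ^ 2) ≤ 2 * (n + 2) ^ (b + 2) := by
      rw [pow_add]
      have : (n + 1) ^ b ≤ (n + 2) ^ b := Nat.pow_le_pow_left (by omega) _
      nlinarith [Nat.mul_le_mul_right ((n + 2) ^ 2) this]
    have e2 : b * ((n + 1) ^ b * (2 * s + 2)) ≤ 2 * (b * (s + 1)) * (n + 2) ^ (b + 2) := by
      have a1 : (n + 1) ^ b ≤ (n + 2) ^ (b + 2) :=
        (Nat.pow_le_pow_left (by omega) _).trans (Nat.pow_le_pow_right (by omega) (by omega))
      calc b * ((n + 1) ^ b * (2 * s + 2)) = 2 * (b * (s + 1)) * (n + 1) ^ b := by ring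
        _ ≤ 2 * (b * (s + 1)) * (n + 2) ^ (b + 2) := Nat.mul_le_mul_left _ a1
    have e4 : 1 ≤ b * (s + 1) := Nat.mul_pos hb (by omega)
    set Q := (n + 2) ^ (b + 2) with hQ
    have e5 : Q ≤ b * (s + 1) * Q := Nat.le_mul_of_pos_left _ e4
    have e6 : 4 * b * (s + 1) * Q = 4 * (b * (s + 1) * Q) := by ring
    have e7 : 2 * (b * (s + 1)) * Q = 2 * (b * (s + 1) * Q) := by ring
    rw [e6]
    rw [e7] at e2
    omega
  · rw [h4]
    simp only [W, T, rem_empty]

end Pool.Agent.helper55.NT
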