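import Mathlib.Data.List.Basic
import Mathlib.Data.List.Perm.Basic
import Mathlib.Tactic

/-!
# MP_c8d30a (G2): token states, paths with T-cost, symbolic words (helper55)

A state is a pair of lists of tokens, `p` is the partner involution. A step: the front `x` of one side wins, the front `y` of the other side is put directly before `p x`.
Cost `1` if `p x` is on the side of `x`, cost `0` if it is on the other side.
-/

set_option autoImplicit false

namespace NTok

/-- states. -/
abbrev St (Om : Type*) := List Om × List Om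

/-- one step. -/
inductive Step {Om : Type*} (p : Om → Om) : St Om → ℕ → St Om → Prop
  | Lr (x y : Om) (A B V : List Om) : Step p (x :: (A ++ p x :: B), y :: V) 1 (x :: (A ++ y :: p x :: B), V)
  | Lm (x y : Om) (U A B : List Om) : Step p (x :: U, y :: (A ++ p x :: B)) 0 (x :: U, A ++ y :: p x :: B)
  | Rb (x y : Om) (A B U : List Om) : Step p (y :: U, x :: (A ++ p x :: B)) 1 (U, x :: (A ++ y :: p x :: B))
  | Rm (x y : Om) (V A B : List Om) : Step p (y :: (A ++ p x :: B), x :: V) 0 (A ++ y :: p x :: B, x :: V)

/-- there is a complete pair on both sides. -/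
def NN {Om : Type*} (p : Om → Om) (s : St Om) : Prop := (∃ r ∈ s.1, p r ∈ s.1) ∧ ∃ b ∈ s.2, p b ∈ s.2

/-- paths inside `NN` with cost at most `a`. -/
inductive Reach {Om : Type*} (p : Om → Om) : ℕ → St Om → St Om → Prop
  | refl (a : ℕ) (s : St Om) : NN p s → Reach p a s s
  | step {a b c : ℕ} {s t u : St Om} : Reach p a s t → Step p t c u → NN p u → a + c ≤ b → Reach p b s u

universe u

variable {Om : Type u} {p : Om → Om}

theorem Reach.mono {a b : ℕ} {s t : St Om} (h : Reach p a s t) (hab : a ≤ b) : Reach p b s t := by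
  cases h with
  | refl _ _ hN => exact Reach.refl _ _ hN
  | step h1 h2 h3 h4 => exact Reach.step h1 h2 h3 (h4.trans hab)

theorem Reach.NN_left {a : ℕ} {s t : St Om} (h : Reach p a s t) : NN p s := by
  induction h with
  | refl _ _ hN => exact hN
  | step _ _ _ _ ih => exact ih

theorem Reach.NN_right {a : ℕ} {s t : St Om} (h : Reach p a s t) : NN p t := by
  cases h with
  | refl _ _ hN => exact hN
  | step _ _ h3 _ => exact h3

theorem Reach.trans {a b : ℕ} {s t u : St Om} (h1 : Reach p a s t) (h2 : Reach p b t u) :
    Reach p (a + b) s u := by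
  induction h2 with
  | refl b t hN => exact h1.mono (Nat.le_add_right a b)
  | step h3 h4 h5 h6 ih => exact Reach.step (ih h1) h4 h5 (by omega)

theorem Reach.trans' {a b c : ℕ} {s t u : St Om} (h1 : Reach p a s t) (h2 : Reach p b t u)
    (h : a + b ≤ c) : Reach p c s u := (h1.trans h2).mono h

/-! ## Mirror -/

/-- the mirror image. -/
def mir (s : St Om) : St Om := (s.2, s.1)

theorem NN_mir {s : St Om} (h : NN p s) : NN p (mir s) := ⟨h.2, h.1⟩

theorem Step.mir {s t : St Om} {c : ℕ} (h : Step p s c t) : Step p (mir s) c (mir t) := by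
  cases h with
  | Lr x y A B V => exact Step.Rb x y A B V
  | Lm x y U A B => exact Step.Rm x y U A B
  | Rb x y A B U => exact Step.Lr x y A B U
  | Rm x y V A B => exact Step.Lm x y V A B

theorem Reach.mir {a : ℕ} {s t : St Om} (h : Reach p a s t) : Reach p a (mir s) (NTok.mir t) := by
  induction h with
  | refl _ _ hN => exact Reach.refl _ _ (NN_mir hN)
  | step _ h2 h3 h4 ih => exact Reach.step ih h2.mir (NN_mir h3) h4

/-! ## Moving a whole block -/

/-- red winner on the left eats the block `C`. -/
theorem runLr (x : Om) (A B C D : List Om) (hb : ∃ b ∈ D, p b ∈ D) :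
    Reach p C.length (x :: (A ++ p x :: B), C ++ D) (x :: (A ++ C ++ p x :: B), D) := by
  have hred : ∀ A' : List Om, ∃ r ∈ x :: (A' ++ p x :: B), p r ∈ x :: (A' ++ p x :: B) := fun A' =>
    ⟨x, by simp, by simp⟩
  induction C generalizing A with
  | nil => simpa using Reach.refl 0 _ ⟨hred A, hb⟩
  | cons y C ih =>
    have h1 := ih (A ++ [y])
    have h2 : Step p (x :: (A ++ p x :: B), y :: (C ++ D)) 1 (x :: (A ++ y :: p x :: B), C ++ D) :=
      Step.Lr x y A B (C ++ D)
    obtain ⟨b, hb1, hb2⟩ := hb
    have hN : ∀ E : List Om, ∃ b ∈ E ++ D, p b ∈ E ++ D := fun E => ⟨b, by simp [hb1], by simp [hb2]⟩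
    have h3 : Reach p 1 (x :: (A ++ p x :: B), y :: (C ++ D)) (x :: (A ++ y :: p x :: B), C ++ D) := by
      refine Reach.step (Reach.refl 0 _ ⟨hred A, ?_⟩) h2 ⟨?_, hN C⟩ (by omega)
      · exact hN (y :: C)
      · have := hred (A ++ [y])
        simpa using this
    have h4 : (x :: (A ++ y :: p x :: B), C ++ D) = (x :: (A ++ [y] ++ p x :: B), C ++ D) := by simp
    rw [h4] at h3
    have h5 := h3.trans h1
    simp only [List.length_cons, List.cons_append]
    have h6 : A ++ [y] ++ C ++ p x :: B = A ++ y :: C ++ p x :: B := by simp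
    rw [h6] at h5
    exact h5.mono (by omega)

/-- mixed winner on the left rotates the block `C`. -/
theorem runLm (x : Om) (U A B C : List Om) (hN : NN p (x :: U, C ++ A ++ p x :: B)) :
    Reach p 0 (x :: U, C ++ A ++ p x :: B) (x :: U, A ++ C ++ p x :: B) := by
  induction C generalizing A with
  | nil => simpa using Reach.refl 0 _ (by simpa using hN)
  | cons y C ih =>
    have h2 : Step p (x :: U, y :: (C ++ A ++ p x :: B)) 0 (x :: U, C ++ A ++ y :: p x :: B) :=
      Step.Lm x y U (C ++ A) B
    have hN' : NN p (x :: U, C ++ (A ++ [y]) ++ p x :: B) := by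
      obtain ⟨h3, b, hb1, hb2⟩ := hN
      refine ⟨h3, b, ?_, ?_⟩
      · simp only [List.cons_append, List.mem_cons, List.mem_append] at hb1 ⊢
        tauto
      · simp only [List.cons_append, List.mem_cons, List.mem_append] at hb2 ⊢
        tauto
    have h1 := ih (A ++ [y]) hN'
    have h3 : Reach p 0 (x :: U, y :: (C ++ A ++ p x :: B)) (x :: U, C ++ (A ++ [y]) ++ p x :: B) := by
      have h4 : C ++ (A ++ [y]) ++ p x :: B = C ++ A ++ y :: p x :: B := by simp
      have h7 : Step p (x :: U, y :: (C ++ A ++ p x :: B)) 0 (x :: U, C ++ (A ++ [y]) ++ p x :: B) := by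
        rw [h4]
        exact h2
      exact Reach.step (Reach.refl 0 _ (by simpa using hN)) h7 hN' (by omega)
    have h5 := h3.trans h1
    have h6 : A ++ [y] ++ C ++ p x :: B = A ++ y :: C ++ p x :: B := by simp
    rw [h6] at h5
    simpa using h5

/-! ## Symbolic words -/

/-- symbols: token `i` (first or second copy) or block `j`. -/
inductive Sy
  | tk (i : ℕ) (c : Bool)
  | bk (j : ℕ)
  deriving DecidableEq

/-- the partner symbol. -/
def Sy.par : Sy → Sy
  | .tk i c => .tk i (!c)
  | .bk j => .bk j

/-- symbolic states. -/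
abbrev SSt := List Sy × List Sy

/-- split a list at a symbol. -/
def splitAt (x : Sy) : List Sy → Option (List Sy × List Sy)
  | [] => none
  | y :: w => if y = x then some ([], w) else (splitAt x w).map (fun r => (y :: r.1, r.2))

theorem splitAt_spec (x : Sy) (w : List Sy) (A B : List Sy) (h : splitAt x w = some (A, B)) :
    w = A ++ x :: B := by
  induction w generalizing A B with
  | nil => simp [splitAt] at h
  | cons y w ih =>
    unfold splitAt at h
    split_ifs at h with h1
    · simp only [Option.some.injEq, Prod.mk.injEq] at h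
      obtain ⟨rfl, rfl⟩ := h
      simp [h1]
    · simp only [Option.map_eq_some_iff, Prod.mk.injEq, Prod.exists] at h
      obtain ⟨A', B', h2, rfl, rfl⟩ := h
      rw [ih A' B' h2]
      rfl

/-- symbolic step of the left winner; the second component is the cost (times the length of the block). -/
def sL : SSt → Option (SSt × ℕ)
  | (.tk i c :: U, s :: V) =>
    match splitAt (.tk i (!c)) U with
    | some (A, B) => some ((.tk i c :: (A ++ s :: .tk i (!c) :: B), V), 1)
    | none => match splitAt (.tk i (!c)) V with
      | some (A, B) => some ((.tk i c :: U, A ++ s :: .tk i (!c) :: B), 0)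
      | none => none
  | _ => none

/-- symbolic step of the right winner. -/
def sR (S : SSt) : Option (SSt × ℕ) := (sL (S.2, S.1)).map (fun r => ((r.1.2, r.1.1), r.2))

/-- some letter among the first ten has both tokens in `w`. -/
def hasPair (w : List Sy) : Bool := (List.range 10).any (fun i => decide (Sy.tk i false ∈ w) && decide (Sy.tk i true ∈ w))

/-- symbolic `NN`. -/
def SN (S : SSt) : Bool := hasPair S.1 && hasPair S.2

/-- run a list of moves (`true` = left winner). -/
def run : List Bool → SSt → Option (SSt × ℕ)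
  | [], S => if SN S then some (S, 0) else none
  | m :: ms, S =>
    if SN S then
      match (if m then sL S else sR S) with
      | some (S', c) => (run ms S').map (fun r => (r.1, c + r.2))
      | none => none
    else none

/-- meaning of a symbol. -/
def sem1 (τ : ℕ → Bool → Om) (σ : ℕ → List Om) : Sy → List Om
  | .tk i c => [τ i c]
  | .bk j => σ j

/-- meaning of a word. -/
def sem (τ : ℕ → Bool → Om) (σ : ℕ → List Om) : List Sy → List Om
  | [] => []
  | [.bk j] => σ j
  | .tk i c :: w => τ i c :: sem τ σ w
  | .bk j :: w => σ j ++ sem τ σ w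

theorem sem_cons (τ : ℕ → Bool → Om) (σ : ℕ → List Om) (s : Sy) (w : List Sy) :
    sem τ σ (s :: w) = sem1 τ σ s ++ sem τ σ w := by
  cases s with
  | tk i c => simp [sem, sem1]
  | bk j =>
    cases w with
    | nil => simp [sem, sem1]
    | cons t w => simp [sem, sem1]

theorem sem_append (τ : ℕ → Bool → Om) (σ : ℕ → List Om) (v w : List Sy) :
    sem τ σ (v ++ w) = sem τ σ v ++ sem τ σ w := by
  induction v with
  | nil => simp [sem]
  | cons s v ih => rw [List.cons_append, sem_cons, sem_cons, ih, List.append_assoc]

theorem sem_mem (τ : ℕ → Bool → Om) (σ : ℕ → List Om) (i : ℕ) (c : Bool) (w : List Sy) (h : Sy.tk i c ∈ w) :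
    τ i c ∈ sem τ σ w := by
  obtain ⟨A, B, rfl⟩ := List.append_of_mem h
  rw [sem_append, sem_cons]
  simp [sem1]

/-- meaning of a state. -/
def semS (τ : ℕ → Bool → Om) (σ : ℕ → List Om) (S : SSt) : St Om := (sem τ σ S.1, sem τ σ S.2)

theorem hasPair_sound (τ : ℕ → Bool → Om) (σ : ℕ → List Om) (hτ : ∀ i c, p (τ i c) = τ i (!c)) (w : List Sy)
    (h : hasPair w = true) : ∃ r ∈ sem τ σ w, p r ∈ sem τ σ w := by
  unfold hasPair at h
  rw [List.any_eq_true] at h
  obtain ⟨i, -, hi⟩ := h
  simp only [Bool.and_eq_true, decide_eq_true_eq] at hi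
  refine ⟨τ i false, sem_mem τ σ i false w hi.1, ?_⟩
  rw [hτ]
  exact sem_mem τ σ i true w hi.2

theorem SN_sound (τ : ℕ → Bool → Om) (σ : ℕ → List Om) (hτ : ∀ i c, p (τ i c) = τ i (!c)) (S : SSt)
    (h : SN S = true) : NN p (semS τ σ S) := by
  unfold SN at h
  rw [Bool.and_eq_true] at h
  exact ⟨hasPair_sound τ σ hτ _ h.1, hasPair_sound τ σ hτ _ h.2⟩

theorem sL_sound (τ : ℕ → Bool → Om) (σ : ℕ → List Om) (hτ : ∀ i c, p (τ i c) = τ i (!c)) (m : ℕ) (hm1 : 1 ≤ m)
    (hm : ∀ j, (σ j).length ≤ m) (S S' : SSt) (c : ℕ) (h : sL S = some (S', c)) (h1 : SN S = true)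
    (h2 : SN S' = true) : Reach p (c * m) (semS τ σ S) (semS τ σ S') := by
  obtain ⟨U, V⟩ := S
  cases U with
  | nil => simp [sL] at h
  | cons u U =>
    cases V with
    | nil => cases u <;> simp [sL] at h
    | cons s V =>
      cases u with
      | bk j => simp [sL] at h
      | tk i d =>
        have hs : (sem1 τ σ s).length ≤ m := by
          cases s with
          | tk i c => simpa [sem1] using hm1
          | bk j => exact hm j
        simp only [sL] at h
        cases h3 : splitAt (.tk i (!d)) U with
        | some r =>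
          obtain ⟨A, B⟩ := r
          rw [h3] at h
          simp only [Option.some.injEq, Prod.mk.injEq] at h
          obtain ⟨rfl, rfl⟩ := h
          have h4 := splitAt_spec _ _ _ _ h3
          subst h4
          have hN2 := SN_sound τ σ hτ _ h2
          have h5 := runLr (p := p) (τ i d) (sem τ σ A) (sem τ σ B) (sem1 τ σ s) (sem τ σ V) hN2.2
          have h6 : semS τ σ (Sy.tk i d :: (A ++ Sy.tk i (!d) :: B), s :: V) =
              (τ i d :: (sem τ σ A ++ p (τ i d) :: sem τ σ B), sem1 τ σ s ++ sem τ σ V) := by
            simp only [semS, sem_cons, sem_append, sem1, hτ]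
            simp
          have h7 : semS τ σ (Sy.tk i d :: (A ++ s :: Sy.tk i (!d) :: B), V) =
              (τ i d :: (sem τ σ A ++ sem1 τ σ s ++ p (τ i d) :: sem τ σ B), sem τ σ V) := by
            simp only [semS, sem_cons, sem_append, hτ]
            simp [sem1]
          rw [h6, h7]
          exact h5.mono (by omega)
        | none =>
          rw [h3] at h
          simp only at h
          cases h4 : splitAt (.tk i (!d)) V with
          | none => rw [h4] at h; simp at h
          | some r =>
            obtain ⟨A, B⟩ := r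
            rw [h4] at h
            simp only [Option.some.injEq, Prod.mk.injEq] at h
            obtain ⟨rfl, rfl⟩ := h
            have h5 := splitAt_spec _ _ _ _ h4
            subst h5
            have h6 : semS τ σ (Sy.tk i d :: U, s :: (A ++ Sy.tk i (!d) :: B)) =
                (τ i d :: sem τ σ U, sem1 τ σ s ++ sem τ σ A ++ p (τ i d) :: sem τ σ B) := by
              simp only [semS, sem_cons, sem_append, hτ]
              simp [sem1]
            have h7 : semS τ σ (Sy.tk i d :: U, A ++ s :: Sy.tk i (!d) :: B) =
                (τ i d :: sem τ σ U, sem τ σ A ++ sem1 τ σ s ++ p (τ i d) :: sem τ σ B) := by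
              simp only [semS, sem_cons, sem_append, hτ]
              simp [sem1]
            have hN := SN_sound τ σ hτ _ h1
            rw [h6] at hN
            rw [h6, h7]
            exact (runLm (p := p) (τ i d) (sem τ σ U) (sem τ σ A) (sem τ σ B) (sem1 τ σ s) hN).mono (by omega)

theorem sR_sound (τ : ℕ → Bool → Om) (σ : ℕ → List Om) (hτ : ∀ i c, p (τ i c) = τ i (!c)) (m : ℕ) (hm1 : 1 ≤ m)
    (hm : ∀ j, (σ j).length ≤ m) (S S' : SSt) (c : ℕ) (h : sR S = some (S', c)) (h1 : SN S = true)
    (h2 : SN S' = true) : Reach p (c * m) (semS τ σ S) (semS τ σ S') := by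
  unfold sR at h
  simp only [Option.map_eq_some_iff, Prod.mk.injEq, Prod.exists] at h
  obtain ⟨A, B, k, h3, rfl, rfl⟩ := h
  have h4 : SN (S.2, S.1) = true := by
    unfold SN at h1 ⊢
    rw [Bool.and_comm]
    exact h1
  have h5 : SN (A, B) = true := by
    unfold SN at h2 ⊢
    rw [Bool.and_comm]
    exact h2
  exact (sL_sound τ σ hτ m hm1 hm _ _ _ h3 h4 h5).mir

theorem run_sound (τ : ℕ → Bool → Om) (σ : ℕ → List Om) (hτ : ∀ i c, p (τ i c) = τ i (!c)) (m : ℕ) (hm1 : 1 ≤ m)
    (hm : ∀ j, (σ j).length ≤ m) (ms : List Bool) (S S' : SSt) (c : ℕ) (h : run ms S = some (S', c)) :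
    Reach p (c * m) (semS τ σ S) (semS τ σ S') := by
  induction ms generalizing S c with
  | nil =>
    unfold run at h
    split_ifs at h with h1
    simp only [Option.some.injEq, Prod.mk.injEq] at h
    obtain ⟨rfl, rfl⟩ := h
    exact Reach.refl _ _ (SN_sound τ σ hτ _ h1)
  | cons b ms ih =>
    unfold run at h
    split_ifs at h with h1 h2
    · cases h3 : sL S with
      | none => simp [h3] at h
      | some r =>
        obtain ⟨S1, c1⟩ := r
        rw [h3] at h
        obtain ⟨⟨S2, k⟩, h4, h7⟩ := Option.map_eq_some_iff.mp h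
        simp only [Prod.mk.injEq] at h7
        obtain ⟨rfl, rfl⟩ := h7
        have h5 := ih S1 k h4
        have h6 : SN S1 = true := by
          cases ms with
          | nil => unfold run at h4; split_ifs at h4 with h7; exact h7
          | cons b' ms' => unfold run at h4; by_contra h7; simp [h7] at h4
        exact ((sL_sound τ σ hτ m hm1 hm _ _ _ h3 h1 h6).trans h5).mono (by rw [Nat.add_mul])
    · cases h3 : sR S with
      | none => simp [h3] at h
      | some r =>
        obtain ⟨S1, c1⟩ := r
        rw [h3] at h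
        obtain ⟨⟨S2, k⟩, h4, h7⟩ := Option.map_eq_some_iff.mp h
        simp only [Prod.mk.injEq] at h7
        obtain ⟨rfl, rfl⟩ := h7
        have h5 := ih S1 k h4
        have h6 : SN S1 = true := by
          cases ms with
          | nil => unfold run at h4; split_ifs at h4 with h7; exact h7
          | cons b' ms' => unfold run at h4; by_contra h7; simp [h7] at h4
        exact ((sR_sound τ σ hτ m hm1 hm _ _ _ h3 h1 h6).trans h5).mono (by rw [Nat.add_mul])

end NTok
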