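import Pool.Agent.helper55.NT.Dual

/-!
Thresholds, and the window theorem: a monotone function has small circuits without NOT gates on a
few consecutive levels.
-/

set_option autoImplicit false

namespace Pool.Agent.helper55.NT

open Pool.Agent.helper38.Neg

variable {n : ℕ}

/-- remove the elements of `S` from `x` -/
def rem (S : Finset (Fin n)) (x : Fin n → Bool) : Fin n → Bool := fun i => x i && decide (i ∉ S)

/-- the threshold function of `rem S x` -/
def T (S : Finset (Fin n)) (k : ℕ) : Fn n := fun x => decide (k ≤ wt (rem S x))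

lemma wt_le (x : Fin n → Bool) : wt x ≤ n := by
  unfold wt
  exact (Finset.card_le_univ _).trans (by simp)

lemma rem_empty (x : Fin n → Bool) : rem ∅ x = x := by
  funext i; simp [rem]

lemma rem_insert_false (S : Finset (Fin n)) (x : Fin n → Bool) (i : Fin n)
    (h : rem S x i = false) : rem (insert i S) x = rem S x := by
  funext j
  by_cases hj : j = i
  · subst hj
    rw [h]
    simp [rem]
  · simp [rem, hj]

lemma rem_insert_wt (S : Finset (Fin n)) (x : Fin n → Bool) (i : Fin n)
    (h : rem S x i = true) : wt (rem (insert i S) x) + 1 = wt (rem S x) := by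
  unfold wt
  have h1 : (Finset.univ.filter fun j => rem S x j = true) =
      insert i (Finset.univ.filter fun j => rem (insert i S) x j = true) := by
    ext j
    by_cases hj : j = i
    · subst hj
      simp [h]
    · simp [rem, hj]
  rw [h1, Finset.card_insert_of_notMem]
  simp [rem]

lemma rem_insert_le (S : Finset (Fin n)) (x : Fin n → Bool) (i : Fin n) :
    ∀ j, rem (insert i S) x j = true → rem S x j = true := by
  intro j
  simp only [rem, Bool.and_eq_true, decide_eq_true_eq, Finset.mem_insert, not_or]
  tauto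

/-- number of ones of `rem S x` among the first `i` bits -/
def cnti (S : Finset (Fin n)) (i : ℕ) (x : Fin n → Bool) : ℕ :=
  (Finset.univ.filter fun l : Fin n => l.val < i ∧ rem S x l = true).card

lemma cnti_n (S : Finset (Fin n)) (x : Fin n → Bool) : cnti S n x = wt (rem S x) := by
  unfold cnti wt
  congr 1
  ext l
  simp

lemma cnti_zero (S : Finset (Fin n)) (x : Fin n → Bool) : cnti S 0 x = 0 := by
  simp [cnti]

lemma cnti_le (S : Finset (Fin n)) (i : ℕ) (x : Fin n → Bool) : cnti S i x ≤ n := by
  unfold cnti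
  exact (Finset.card_le_univ _).trans (by simp)

lemma cnti_succ (S : Finset (Fin n)) (i : Fin n) (x : Fin n → Bool) :
    cnti S (i + 1) x = cnti S i x + if rem S x i = true then 1 else 0 := by
  unfold cnti
  split_ifs with h
  · have h1 : (Finset.univ.filter fun l : Fin n => l.val < i + 1 ∧ rem S x l = true) =
        insert i (Finset.univ.filter fun l : Fin n => l.val < i ∧ rem S x l = true) := by
      ext l
      simp only [Finset.mem_filter, Finset.mem_univ, true_and, Finset.mem_insert]
      constructor
      · rintro ⟨h1, h2⟩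
        by_cases hl : l = i
        · exact Or.inl hl
        · refine Or.inr ⟨?_, h2⟩
          have : l.val ≠ i.val := fun h => hl (Fin.ext h)
          omega
      · rintro (rfl | ⟨h1, h2⟩)
        · exact ⟨by omega, h⟩
        · exact ⟨by omega, h2⟩
    rw [h1, Finset.card_insert_of_notMem]
    simp
  · rw [add_zero]
    congr 1
    ext l
    simp only [Finset.mem_filter, Finset.mem_univ, true_and]
    constructor
    · rintro ⟨h1, h2⟩
      refine ⟨?_, h2⟩
      have : l.val ≠ i.val := fun h' => h (by rwa [← Fin.ext h'])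
      omega
    · rintro ⟨h1, h2⟩
      exact ⟨by omega, h2⟩

/-- thresholds of the first `i` bits -/
def Ti (S : Finset (Fin n)) (i j : ℕ) : Fn n := fun x => decide (j ≤ cnti S i x)

lemma Ti_big (S : Finset (Fin n)) (i j : ℕ) (hj : n + 1 ≤ j) : Ti S i j = fun _ => false := by
  funext x
  have := cnti_le S i x
  simp [Ti]
  omega

lemma Ti_rel_base (S : Finset (Fin n)) : Rel ∅ 2 0 (Set.range (Ti S 0)) := by
  refine ((Rel.const ∅ true).union (Rel.const ∅ false)).mono le_rfl ?_ le_rfl le_rfl
  rintro g ⟨j, rfl⟩
  rcases Nat.eq_zero_or_pos j with rfl | hj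
  · refine Or.inl ?_
    rw [Set.mem_singleton_iff]
    funext x
    simp [Ti]
  · refine Or.inr ?_
    rw [Set.mem_singleton_iff]
    funext x
    simp [Ti, cnti_zero]
    omega

lemma Ti_rel_step (S : Finset (Fin n)) (i : Fin n) :
    Rel (Set.range (Ti S i)) ((n + 2) * 2) 0 (Set.range (Ti S (i + 1))) := by
  have key : ∀ j ∈ Finset.range (n + 2), Rel (Set.range (Ti S i)) 2 0 {Ti S (i + 1) j} := by
    intro j _
    by_cases hi : i ∈ S
    · refine (Rel.sub ?_).mono le_rfl subset_rfl (by omega) le_rfl
      rintro g rfl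
      refine ⟨j, ?_⟩
      funext x
      simp only [Ti, cnti_succ]
      simp [rem, hi]
    · rcases j with _ | j
      · refine (Rel.sub ?_).mono le_rfl subset_rfl (by omega) le_rfl
        rintro g rfl
        refine ⟨0, ?_⟩
        funext x
        simp [Ti]
      · have h1 : Rel (Set.range (Ti S i)) 0 0 {fun x => x i} := Rel.var _ i
        have h2 : Rel (Set.range (Ti S i) ∪ {fun x => x i}) 1 0
            {fun x => x i && Ti S i j x} :=
          Rel.and (u := fun x => x i) (v := Ti S i j) (Or.inr rfl) (Or.inl ⟨j, rfl⟩)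
        have h3 := h1.trans' h2
        have h4 : Rel (Set.range (Ti S i) ∪ {fun x => x i && Ti S i j x}) 1 0
            {fun x => Ti S i (j + 1) x || (x i && Ti S i j x)} :=
          Rel.or (u := Ti S i (j + 1)) (v := fun x => x i && Ti S i j x) (Or.inl ⟨j + 1, rfl⟩)
            (Or.inr rfl)
        have h5 := h3.trans' h4
        refine h5.mono le_rfl ?_ le_rfl le_rfl
        rintro g rfl
        rw [Set.mem_singleton_iff]
        funext x
        simp only [Ti, cnti_succ]
        have hr : rem S x i = x i := by simp [rem, hi]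
        rw [hr]
        cases hx : x i
        · simp
        · simp only [if_true, Bool.true_and]
          rw [Bool.eq_iff_iff]
          simp only [decide_eq_true_eq, Bool.or_eq_true]
          omega
  refine (Rel.biUnion (Finset.range (n + 2)) (fun j => {Ti S (i + 1) j}) key).mono le_rfl ?_ ?_ le_rfl
  · rintro g ⟨j, rfl⟩
    by_cases hj : j < n + 2
    · simp only [Set.mem_iUnion]
      exact ⟨j, Finset.mem_range.2 hj, rfl⟩
    · simp only [Set.mem_iUnion]
      refine ⟨n + 1, Finset.mem_range.2 (by omega), ?_⟩
      rw [Set.mem_singleton_iff, Ti_big S _ j (by omega), Ti_big S _ (n + 1) le_rfl]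
  · rw [Finset.card_range]

lemma Ti_rel (S : Finset (Fin n)) (i : ℕ) (hi : i ≤ n) :
    Rel ∅ (2 + i * ((n + 2) * 2)) 0 (Set.range (Ti S i)) := by
  induction i with
  | zero => exact (Ti_rel_base S).mono le_rfl subset_rfl (by omega) le_rfl
  | succ i ih =>
    have h1 := ih (by omega)
    have h2 := Ti_rel_step S ⟨i, by omega⟩
    refine (h1.trans' (h2.mono Set.subset_union_right le_rfl le_rfl le_rfl)).mono le_rfl
      subset_rfl (le_of_eq (by ring)) le_rfl

lemma T_rel (S : Finset (Fin n)) : Rel ∅ (2 * (n + 2) ^ 2) 0 (Set.range (T S)) := by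
  refine (Ti_rel S n le_rfl).mono le_rfl ?_ ?_ le_rfl
  · rintro g ⟨j, rfl⟩
    refine ⟨j, ?_⟩
    funext x
    simp [T, Ti, cnti_n]
  · nlinarith

lemma T_big (S : Finset (Fin n)) (j : ℕ) (hj : n + 1 ≤ j) : T S j = fun _ => false := by
  funext x
  have := wt_le (rem S x)
  simp [T]
  omega

/-- the sets with at most `t` elements -/
def Sm (n t : ℕ) : Finset (Finset (Fin n)) := Finset.univ.filter fun S => S.card ≤ t

lemma Sm_card (t : ℕ) : (Sm n t).card ≤ (n + 1) ^ t := by
  classical
  have h1 : Sm n t ⊆ Finset.univ.image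
      (fun g : Fin t → Option (Fin n) => Finset.univ.filter fun i => ∃ j, g j = some i) := by
    intro S hS
    rw [Sm, Finset.mem_filter] at hS
    rw [Finset.mem_image]
    refine ⟨fun j => S.toList[j.val]?, Finset.mem_univ _, ?_⟩
    ext i
    simp only [Finset.mem_filter, Finset.mem_univ, true_and]
    constructor
    · rintro ⟨j, hj⟩
      rw [← Finset.mem_toList]
      exact List.mem_of_getElem? hj
    · intro hi
      rw [← Finset.mem_toList] at hi
      obtain ⟨j, hj, hj'⟩ := List.getElem_of_mem hi
      have hlen : S.toList.length = S.card := Finset.length_toList S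
      refine ⟨⟨j, by omega⟩, ?_⟩
      rw [List.getElem?_eq_getElem hj, hj']
  refine (Finset.card_le_card h1).trans (Finset.card_image_le.trans ?_)
  rw [Finset.card_univ, Fintype.card_fun, Fintype.card_option, Fintype.card_fin, Fintype.card_fin]

/-- variables and thresholds -/
def F0 (n B : ℕ) : Set (Fn n) :=
  (⋃ i ∈ (Finset.univ : Finset (Fin n)), {fun x : Fin n → Bool => x i}) ∪
    ⋃ S ∈ Sm n B, Set.range (T S)

lemma F0_rel (B : ℕ) : Rel ∅ ((n + 1) ^ B * (2 * (n + 2) ^ 2)) 0 (F0 n B) := by
  have h1 := Rel.biUnion (F := (∅ : Set (Fn n))) (m := 0) Finset.univ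
    (fun i : Fin n => {fun x : Fin n → Bool => x i}) (fun i _ => Rel.var _ i)
  have h2 := Rel.biUnion (F := (∅ : Set (Fn n))) (Sm n B) (fun S => Set.range (T S))
    (fun S _ => T_rel S)
  refine (h1.union h2).mono le_rfl subset_rfl ?_ le_rfl
  rw [mul_zero, zero_add]
  exact Nat.mul_le_mul_right _ (Sm_card B)

/-- The function `f` on the levels `k, ..., k + b - 1`, `0` below and `1` above, after the elements of
`S` are removed. -/
def W (f : Fn n) (k b : ℕ) (S : Finset (Fin n)) : Fn n :=
  fun x => T S k x && (T S (k + b) x || f (rem S x))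

/-- `f` is monotone -/
def Mon (f : Fn n) : Prop := ∀ x y, (∀ i, x i = true → y i = true) → f x = true → f y = true

lemma W_zero (f : Fn n) (k : ℕ) (S : Finset (Fin n)) : W f k 0 S = T S k := by
  funext x
  simp only [W, add_zero]
  cases T S k x <;> simp

lemma W_succ {s : ℕ} (f : Fn n) (hf : Mon f) (C : Circuit n s) (o : Fin (n + s))
    (hC : ∀ x, C.val x o = f x) (k b : ℕ) (S : Finset (Fin n)) (x : Fin n → Bool) :
    W f k (b + 1) S x = (T S k x && (T S (k + (b + 1)) x ||
      (dval C (fun i => rem S x i) (fun i => W f k b (insert i S) x) o).1)) := by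
  show (T S k x && (T S (k + (b + 1)) x || f (rem S x))) = _
  by_cases h1 : k ≤ wt (rem S x)
  swap
  · simp [T, h1]
  by_cases h2 : k + (b + 1) ≤ wt (rem S x)
  · simp [T, h2]
  have h3 : f (rem S x) =
      (dval C (fun i => rem S x i) (fun i => W f k b (insert i S) x) o).1 := by
    cases hz : f (rem S x)
    · symm
      rw [Bool.eq_false_iff]
      intro hd
      have h4 := (dval_ge C (rem S x) (fun i => rem S x i) (fun i => W f k b (insert i S) x)
        (fun i => ⟨fun h => h, fun h => ?_⟩) o).1 hd
      · rw [hC, hz] at h4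
        exact absurd h4 (by simp)
      · by_contra hi
        rw [Bool.not_eq_false] at hi
        have h5 := rem_insert_wt S x i hi
        have h6 : f (rem (insert i S) x) = false := by
          rw [Bool.eq_false_iff]
          intro h7
          rw [hf _ _ (rem_insert_le S x i) h7] at hz
          exact absurd hz (by simp)
        simp only [W, T] at h
        rw [h6, Bool.or_false, Bool.and_eq_true, decide_eq_true_eq, decide_eq_true_eq] at h
        omega
    · symm
      refine (dval_le C (rem S x) (fun i => rem S x i) (fun i => W f k b (insert i S) x)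
        (fun i => ⟨fun h => h, fun h => ?_⟩) o).1 ?_
      · simp only [W, T]
        rw [rem_insert_false S x i h, hz]
        simp [h1]
      · rw [hC, hz]
  rw [h3]

lemma W_rel_step {s : ℕ} (f : Fn n) (hf : Mon f) (C : Circuit n s) (o : Fin (n + s))
    (hC : ∀ x, C.val x o = f x) (k b B : ℕ) (S : Finset (Fin n)) (hS : S.card + (b + 1) ≤ B) :
    Rel (F0 n B ∪ ⋃ S ∈ Sm n (B - b), {W f k b S}) (2 * s + 2) 0 {W f k (b + 1) S} := by
  classical
  set F : Set (Fn n) := F0 n B ∪ ⋃ S ∈ Sm n (B - b), {W f k b S} with hF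
  have hT : ∀ j, T S j ∈ F := by
    intro j
    refine Or.inl (Or.inr ?_)
    simp only [Set.mem_iUnion]
    exact ⟨S, by rw [Sm, Finset.mem_filter]; exact ⟨Finset.mem_univ _, by omega⟩, j, rfl⟩
  have h0 : Rel F 0 0 ((Set.range fun (i : Fin n) (x : Fin n → Bool) => rem S x i) ∪
      Set.range fun (i : Fin n) => W f k b (insert i S)) := by
    refine Rel.sub ?_
    rintro g (⟨i, rfl⟩ | ⟨i, rfl⟩)
    · by_cases hi : i ∈ S
      · have h1 : (fun x : Fin n → Bool => rem S x i) = T S (n + 1) := by
          rw [T_big S (n + 1) le_rfl]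
          funext x
          simp [rem, hi]
        show (fun x : Fin n → Bool => rem S x i) ∈ F
        rw [h1]
        exact hT _
      · refine Or.inl (Or.inl ?_)
        simp only [Set.mem_iUnion]
        refine ⟨i, Finset.mem_univ _, ?_⟩
        rw [Set.mem_singleton_iff]
        funext x
        simp [rem, hi]
    · refine Or.inr ?_
      simp only [Set.mem_iUnion]
      refine ⟨insert i S, ?_, rfl⟩
      rw [Sm, Finset.mem_filter]
      refine ⟨Finset.mem_univ _, ?_⟩
      have := Finset.card_insert_le i S
      omega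
  have h1 := Rel.dual C (fun (i : Fin n) (x : Fin n → Bool) => rem S x i)
    (fun (i : Fin n) => W f k b (insert i S))
  have h2 := h0.trans' (h1.mono Set.subset_union_right le_rfl le_rfl le_rfl)
  have h3 : Rel F (2 * s) 0 {fun x : Fin n → Bool =>
      (dval C (fun i => rem S x i) (fun i => W f k b (insert i S) x) o).1} := by
    refine h2.mono le_rfl ?_ (by omega) le_rfl
    rintro g rfl
    exact Or.inl ⟨o, rfl⟩
  have h4 : Rel (F ∪ {fun x : Fin n → Bool =>
      (dval C (fun i => rem S x i) (fun i => W f k b (insert i S) x) o).1}) 1 0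
      {fun x => T S (k + (b + 1)) x ||
        (dval C (fun i => rem S x i) (fun i => W f k b (insert i S) x) o).1} :=
    Rel.or (u := T S (k + (b + 1))) (Or.inl (hT _)) (Or.inr rfl)
  have h5 := h3.trans' h4
  have h6 : Rel (F ∪ {fun x => T S (k + (b + 1)) x ||
        (dval C (fun i => rem S x i) (fun i => W f k b (insert i S) x) o).1}) 1 0
      {fun x => T S k x && (T S (k + (b + 1)) x ||
        (dval C (fun i => rem S x i) (fun i => W f k b (insert i S) x) o).1)} :=
    Rel.and (u := T S k) (Or.inl (hT _)) (Or.inr rfl)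
  refine (h5.trans' h6).mono le_rfl ?_ (by omega) le_rfl
  rintro g rfl
  rw [Set.mem_singleton_iff]
  funext x
  exact W_succ f hf C o hC k b S x

/-- THE WINDOW THEOREM. -/
lemma W_rel {s : ℕ} (f : Fn n) (hf : Mon f) (C : Circuit n s) (o : Fin (n + s))
    (hC : ∀ x, C.val x o = f x) (k B b : ℕ) (hb : b ≤ B) :
    Rel (F0 n B) (b * ((n + 1) ^ B * (2 * s + 2))) 0 (⋃ S ∈ Sm n (B - b), {W f k b S}) := by
  induction b with
  | zero =>
    refine (Rel.sub ?_).mono le_rfl subset_rfl (by omega) le_rfl
    intro g hg
    simp only [Set.mem_iUnion] at hg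
    obtain ⟨S, hS, hg⟩ := hg
    rw [Set.mem_singleton_iff] at hg
    subst hg
    rw [W_zero]
    refine Or.inr ?_
    simp only [Set.mem_iUnion]
    exact ⟨S, hS, k, rfl⟩
  | succ b ih =>
    have h1 := ih (by omega)
    have h2 := Rel.biUnion (F := F0 n B ∪ ⋃ S ∈ Sm n (B - b), {W f k b S}) (Sm n (B - (b + 1)))
      (fun S => {W f k (b + 1) S}) (fun S hS => W_rel_step f hf C o hC k b B S (by
        rw [Sm, Finset.mem_filter] at hS
        omega))
    refine (h1.trans' h2).mono le_rfl subset_rfl ?_ le_rfl
    have h3 : (Sm n (B - (b + 1))).card ≤ (n + 1) ^ B :=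
      (Sm_card _).trans (Nat.pow_le_pow_right (by omega) (by omega))
    calc b * ((n + 1) ^ B * (2 * s + 2)) + (Sm n (B - (b + 1))).card * (2 * s + 2)
        ≤ b * ((n + 1) ^ B * (2 * s + 2)) + (n + 1) ^ B * (2 * s + 2) :=
          Nat.add_le_add_left (Nat.mul_le_mul_right _ h3) _
      _ = (b + 1) * ((n + 1) ^ B * (2 * s + 2)) := by ring

end Pool.Agent.helper55.NT
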